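import Pool.Agent.MDSL.Defs
import Pool.Agent.MDS.Abel

/-!
# Abel summation for Dirichlet series with bounded partial sums
-/

set_option autoImplicit false

open Complex Filter Topology
open Pool.Agent.MDS

namespace Pool.Agent.MDSL

theorem BPS.nonneg {f : ℕ → ℂ} {B : ℝ} (h : BPS f B) : 0 ≤ B := by
  have := h.sum_le 0
  simpa using this

theorem norm_pow_sub_pow_tele {n : ℕ} (hn : 1 ≤ n) {s : ℂ} (hs : 0 < s.re) :
    ‖(n : ℂ) ^ (-s) - ((n + 1 : ℕ) : ℂ) ^ (-s)‖ ≤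
      ‖s‖ / s.re * ((n : ℝ) ^ (-s.re) - ((n + 1 : ℕ) : ℝ) ^ (-s.re)) := by
  have hn0 : (0 : ℝ) < n := by exact_mod_cast hn
  have hs0 : s ≠ 0 := by
    rintro rfl
    simp at hs
  have hderiv : ∀ x : ℝ, 0 < x → HasDerivAt (fun x : ℝ => (x : ℂ) ^ (-s) - (n : ℂ) ^ (-s))
      ((-s) * (x : ℂ) ^ (-s - 1)) x := by
    intro x hx0
    exact (hasDerivAt_ofReal_cpow_const hx0.ne' (neg_ne_zero.mpr hs0)).sub_const _
  have hB : ∀ x : ℝ, 0 < x → HasDerivAt
      (fun x : ℝ => ‖s‖ / s.re * ((n : ℝ) ^ (-s.re) - x ^ (-s.re))) (‖s‖ * x ^ (-s.re - 1)) x := by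
    intro x hx0
    have h1 := (Real.hasDerivAt_rpow_const (x := x) (p := -s.re) (Or.inl hx0.ne')).const_sub
      ((n : ℝ) ^ (-s.re))
    have h2 := h1.const_mul (‖s‖ / s.re)
    have h3 : ‖s‖ / s.re * -(-s.re * x ^ (-s.re - 1)) = ‖s‖ * x ^ (-s.re - 1) := by
      rw [div_mul_eq_mul_div, div_eq_iff hs.ne']
      ring
    rw [h3] at h2
    exact h2
  have key := image_norm_le_of_norm_deriv_right_le_deriv_boundary'
    (f := fun x : ℝ => (x : ℂ) ^ (-s) - (n : ℂ) ^ (-s))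
    (f' := fun x : ℝ => (-s) * (x : ℂ) ^ (-s - 1)) (a := (n : ℝ)) (b := (n : ℝ) + 1)
    (B := fun x : ℝ => ‖s‖ / s.re * ((n : ℝ) ^ (-s.re) - x ^ (-s.re)))
    (B' := fun x : ℝ => ‖s‖ * x ^ (-s.re - 1))
    (fun x hx => (hderiv x (hn0.trans_le hx.1)).continuousAt.continuousWithinAt)
    (fun x hx => (hderiv x (hn0.trans_le hx.1)).hasDerivWithinAt)
    (by simp)
    (fun x hx => (hB x (hn0.trans_le hx.1)).continuousAt.continuousWithinAt)
    (fun x hx => (hB x (hn0.trans_le hx.1)).hasDerivWithinAt)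
    (by
      intro x hx
      have hx0 : 0 < x := hn0.trans_le hx.1
      rw [norm_mul, norm_neg, norm_cpow_eq_rpow_re_of_pos hx0]
      have : (-s - 1).re = -s.re - 1 := by simp
      rw [this])
  have h := key (x := (n : ℝ) + 1) (Set.right_mem_Icc.mpr (by linarith))
  rw [norm_sub_rev]
  push_cast at h ⊢
  exact h

theorem norm_gAb_term {f : ℕ → ℂ} {B : ℝ} (h : BPS f B) {s : ℂ} (hs : 0 < s.re) (n : ℕ) :
    ‖(∑ m ∈ Finset.range (n + 1), f m) * ((n : ℂ) ^ (-s) - ((n + 1 : ℕ) : ℂ) ^ (-s))‖ ≤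
      B * (‖s‖ * ((n : ℝ) ^ (1 + s.re))⁻¹) := by
  have hB := h.nonneg
  rcases Nat.eq_zero_or_pos n with rfl | hn
  · simp only [zero_add, Finset.range_one, Finset.sum_singleton, Nat.cast_zero, h.zero, zero_mul,
      norm_zero]
    positivity
  · rw [norm_mul]
    have h1 := h.sum_le (n + 1)
    have h2 := norm_pow_sub_pow hn (s := s) (by linarith)
    gcongr

theorem summable_gAb {f : ℕ → ℂ} {B : ℝ} (h : BPS f B) {s : ℂ} (hs : 0 < s.re) :
    Summable fun n : ℕ => (∑ m ∈ Finset.range (n + 1), f m) *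
      ((n : ℂ) ^ (-s) - ((n + 1 : ℕ) : ℂ) ^ (-s)) :=
  Summable.of_norm_bounded (((summable_zr (σ := 1 + s.re) (by linarith)).mul_left ‖s‖).mul_left B)
    (norm_gAb_term h hs)

theorem gAb_differentiableOn {f : ℕ → ℂ} {B : ℝ} (h : BPS f B) :
    DifferentiableOn ℂ (gAb f) {s | 0 < s.re} := by
  intro s hs
  simp only [Set.mem_ofPred_eq] at hs
  have hB := h.nonneg
  apply DifferentiableAt.differentiableWithinAt
  set U : Set ℂ := {z | s.re / 2 < z.re} ∩ Metric.ball 0 (‖s‖ + 1) with hU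
  have hUo : IsOpen U := (isOpen_lt continuous_const continuous_re).inter Metric.isOpen_ball
  have hsU : s ∈ U := ⟨by show s.re / 2 < s.re; linarith, by simp⟩
  have key : DifferentiableOn ℂ (gAb f) U := by
    unfold gAb
    refine differentiableOn_tsum_of_summable_norm
      (u := fun n : ℕ => B * ((‖s‖ + 1) * ((n : ℝ) ^ (1 + s.re / 2))⁻¹)) ?_ ?_ hUo ?_
    · exact ((summable_zr (σ := 1 + s.re / 2) (by linarith)).mul_left _).mul_left _
    · intro n
      rcases Nat.eq_zero_or_pos n with rfl | hn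
      · simp only [zero_add, Finset.range_one, Finset.sum_singleton, Nat.cast_zero, h.zero, zero_mul]
        exact differentiableOn_const _
      · apply DifferentiableOn.const_mul
        apply DifferentiableOn.sub
        · exact (Differentiable.const_cpow differentiable_neg (Or.inl (by exact_mod_cast hn.ne'))).differentiableOn
        · exact (Differentiable.const_cpow differentiable_neg
            (Or.inl (by exact_mod_cast (Nat.succ_ne_zero n)))).differentiableOn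
    · rintro n w ⟨hw1, hw2⟩
      simp only [Set.mem_ofPred_eq] at hw1
      rw [mem_ball_zero_iff] at hw2
      refine (norm_gAb_term h (by linarith) n).trans ?_
      rcases Nat.eq_zero_or_pos n with rfl | hn
      · simp only [Nat.cast_zero]
        rw [Real.zero_rpow (by linarith), Real.zero_rpow (by linarith)]
        simp
      · have h1 : (1 : ℝ) ≤ n := by exact_mod_cast hn
        gcongr
  exact key.differentiableAt (hUo.mem_nhds hsU)

/-- finite Abel summation -/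
theorem abel_fin (f : ℕ → ℂ) (s : ℂ) (N : ℕ) :
    ∑ n ∈ Finset.range N, f n * (n : ℂ) ^ (-s) =
      ∑ n ∈ Finset.range N, (∑ m ∈ Finset.range (n + 1), f m) *
        ((n : ℂ) ^ (-s) - ((n + 1 : ℕ) : ℂ) ^ (-s)) +
      (∑ m ∈ Finset.range N, f m) * (N : ℂ) ^ (-s) := by
  induction N with
  | zero => simp
  | succ N ih =>
    rw [Finset.sum_range_succ, ih, Finset.sum_range_succ (fun n =>
      (∑ m ∈ Finset.range (n + 1), f m) * ((n : ℂ) ^ (-s) - ((n + 1 : ℕ) : ℂ) ^ (-s))),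
      Finset.sum_range_succ (fun m => f m) N]
    ring

theorem gAb_tail {f : ℕ → ℂ} {B : ℝ} (h : BPS f B) {s : ℂ} (hs : 0 < s.re) {N : ℕ} (hN : 1 ≤ N) :
    ‖gAb f s - ∑ n ∈ Finset.range N, f n * (n : ℂ) ^ (-s)‖ ≤
      B * (1 + ‖s‖ / s.re) * (N : ℝ) ^ (-s.re) := by
  have hB := h.nonneg
  have hsum := summable_gAb h hs
  set t : ℕ → ℂ := fun n : ℕ => (∑ m ∈ Finset.range (n + 1), f m) *
      ((n : ℂ) ^ (-s) - ((n + 1 : ℕ) : ℂ) ^ (-s)) with ht
  have h1 : gAb f s = ∑ n ∈ Finset.range N, t n + ∑' n, t (n + N) :=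
    (hsum.sum_add_tsum_nat_add N).symm
  have h2 : ‖∑' n, t (n + N)‖ ≤ B * (‖s‖ / s.re) * (N : ℝ) ^ (-s.re) := by
    have hsN : Summable fun n => t (n + N) := (summable_nat_add_iff N).mpr hsum
    refine (norm_tsum_le_tsum_norm hsN.norm).trans ?_
    refine Real.tsum_le_of_sum_range_le (fun n => norm_nonneg _) ?_
    intro K
    have h3 : ∀ n : ℕ, ‖t (n + N)‖ ≤ B * (‖s‖ / s.re) *
        (((n + N : ℕ) : ℝ) ^ (-s.re) - ((n + 1 + N : ℕ) : ℝ) ^ (-s.re)) := by
      intro n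
      rw [ht]
      simp only
      rw [norm_mul]
      have h4 := h.sum_le (n + N + 1)
      have h5 := norm_pow_sub_pow_tele (n := n + N) (by omega) hs
      have e : n + 1 + N = n + N + 1 := by ring
      rw [e, mul_assoc]
      exact mul_le_mul h4 h5 (norm_nonneg _) hB
    refine (Finset.sum_le_sum fun n _ => h3 n).trans ?_
    rw [← Finset.mul_sum]
    have h6 := Finset.sum_range_sub' (fun n : ℕ => ((n + N : ℕ) : ℝ) ^ (-s.re)) K
    rw [h6, zero_add]
    have h7 : (0 : ℝ) ≤ ((K + N : ℕ) : ℝ) ^ (-s.re) := by positivity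
    have h8 : 0 ≤ B * (‖s‖ / s.re) := by positivity
    nlinarith
  have h5 : ‖(N : ℂ) ^ (-s)‖ = (N : ℝ) ^ (-s.re) := by
    have := norm_cpow_eq_rpow_re_of_pos (x := (N : ℝ)) (by exact_mod_cast hN) (-s)
    simpa using this
  have h6 : ‖(∑ m ∈ Finset.range N, f m) * (N : ℂ) ^ (-s)‖ ≤ B * (N : ℝ) ^ (-s.re) := by
    rw [norm_mul, h5]
    exact mul_le_mul_of_nonneg_right (h.sum_le N) (by positivity)
  have h7 : gAb f s - ∑ n ∈ Finset.range N, f n * (n : ℂ) ^ (-s) =
      ∑' n, t (n + N) - (∑ m ∈ Finset.range N, f m) * (N : ℂ) ^ (-s) := by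
    rw [abel_fin f s N, h1]
    ring
  rw [h7]
  refine (norm_sub_le _ _).trans ?_
  calc _ ≤ B * (‖s‖ / s.re) * (N : ℝ) ^ (-s.re) + B * (N : ℝ) ^ (-s.re) := add_le_add h2 h6
    _ = _ := by ring

theorem summable_of_bps {f : ℕ → ℂ} {B : ℝ} (h : BPS f B) {s : ℂ} (hs : 1 < s.re) :
    Summable fun n : ℕ => f n * (n : ℂ) ^ (-s) := by
  refine Summable.of_norm_bounded (summable_zr hs) ?_
  intro n
  rcases Nat.eq_zero_or_pos n with rfl | hn
  · rw [h.zero, zero_mul, norm_zero]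
    positivity
  · rw [norm_mul, norm_cpow_neg hn]
    exact mul_le_of_le_one_left (by positivity) (h.le_one n)

theorem LSeries_eq_of_bps {f : ℕ → ℂ} {B : ℝ} (h : BPS f B) (s : ℂ) :
    LSeries f s = ∑' n : ℕ, f n * (n : ℂ) ^ (-s) := by
  unfold LSeries
  refine tsum_congr fun n => ?_
  rcases Nat.eq_zero_or_pos n with rfl | hn
  · simp [h.zero]
  · rw [LSeries.term_of_ne_zero hn.ne', cpow_neg, div_eq_mul_inv]

theorem gAb_eq {f : ℕ → ℂ} {B : ℝ} (h : BPS f B) {s : ℂ} (hs : 1 < s.re) :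
    gAb f s = LSeries f s := by
  rw [LSeries_eq_of_bps h]
  have h1 := (summable_of_bps h hs).hasSum.tendsto_sum_nat
  refine tendsto_nhds_unique ?_ h1
  rw [tendsto_iff_norm_sub_tendsto_zero]
  have hz : Tendsto (fun N : ℕ => B * (1 + ‖s‖ / s.re) * ((N : ℝ) ^ (-s.re))) atTop
      (𝓝 (B * (1 + ‖s‖ / s.re) * 0)) :=
    (((tendsto_rpow_neg_atTop (by linarith : 0 < s.re)).comp tendsto_natCast_atTop_atTop).const_mul _)
  rw [mul_zero] at hz
  refine squeeze_zero' (Eventually.of_forall fun _ => norm_nonneg _) ?_ hz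
  filter_upwards [eventually_ge_atTop 1] with N hN
  rw [norm_sub_rev]
  exact gAb_tail h (by linarith) hN

/-- identity principle -/
theorem gAb_eq_of {f : ℕ → ℂ} {B : ℝ} (h : BPS f B) {F : ℂ → ℂ}
    (hF : DifferentiableOn ℂ F {s | 0 < s.re}) (heq : ∀ s : ℂ, 1 < s.re → LSeries f s = F s)
    {s : ℂ} (hs : 0 < s.re) : gAb f s = F s := by
  have hopen : IsOpen {s : ℂ | 0 < s.re} := isOpen_lt continuous_const continuous_re
  have hpre : IsPreconnected {s : ℂ | 0 < s.re} := (convex_halfSpace_re_gt 0).isPreconnected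
  have h1 : AnalyticOnNhd ℂ (gAb f) {s : ℂ | 0 < s.re} :=
    (gAb_differentiableOn h).analyticOnNhd hopen
  have h2 : AnalyticOnNhd ℂ F {s : ℂ | 0 < s.re} := hF.analyticOnNhd hopen
  have h3 : (2 : ℂ) ∈ {s : ℂ | 0 < s.re} := by simp
  refine h1.eqOn_of_preconnected_of_eventuallyEq h2 hpre h3 ?_ hs
  have h4 : {s : ℂ | 1 < s.re} ∈ 𝓝 (2 : ℂ) := (isOpen_lt continuous_const continuous_re).mem_nhds (by simp)
  filter_upwards [h4] with z hz
  rw [gAb_eq h hz, heq z hz]

end Pool.Agent.MDSL
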