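import Pool.Agent.MDSL.Defs

/-!
# The number of odd integers below `N` prime to `l`
-/

set_option autoImplicit false

open Complex Filter Topology
open scoped NumberTheorySymbols
open Pool.Agent.MDS Pool.Agent.TubeDS

namespace Pool.Agent.MDSL

theorem fA_sq {l : ℕ} (m : ℕ) (hl : l % 2 = 1) :
    fA (l ^ 2) m = if (2 * l).Coprime m then (1 : ℂ) else 0 := by
  have hl0 : l ≠ 0 := by omega
  have : NeZero l := ⟨hl0⟩
  unfold fA
  by_cases hm : m % 2 = 1
  · rw [if_pos hm, jacobiSym.pow_right]
    by_cases hc : m.Coprime l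
    · have h1 : J((m : ℤ) | l) ^ 2 = 1 := jacobiSym.sq_one (by simpa [Int.gcd_natCast_natCast] using hc)
      have h2 : (2 * l).Coprime m :=
        Nat.Coprime.mul_left (Nat.coprime_two_left.mpr (Nat.odd_iff.mpr hm)) hc.symm
      rw [h1, if_pos h2]
      simp
    · have h1 : J((m : ℤ) | l) = 0 := by
        rw [jacobiSym.eq_zero_iff_not_coprime]
        simpa [Int.gcd_natCast_natCast] using hc
      have h2 : ¬ (2 * l).Coprime m := fun h => hc (Nat.Coprime.coprime_mul_left h).symm
      rw [h1, if_neg h2]
      simp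
  · rw [if_neg hm]
    have h2 : ¬ (2 * l).Coprime m := by
      intro h
      have := Nat.Coprime.coprime_mul_right h
      rw [Nat.coprime_two_left, Nat.odd_iff] at this
      exact hm this
    rw [if_neg h2]

theorem card_block (M a : ℕ) :
    ((Finset.range (M * a)).filter (fun m => M.Coprime m)).card = a * Nat.totient M := by
  induction a with
  | zero => simp
  | succ a ih =>
    have h1 : Finset.range (M * (a + 1)) = Finset.range (M * a) ∪ Finset.Ico (M * a) (M * a + M) := by
      ext x
      simp only [Finset.mem_range, Finset.mem_union, Finset.mem_Ico]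
      rw [show M * (a + 1) = M * a + M by ring]
      omega
    have h2 : Disjoint (Finset.range (M * a)) (Finset.Ico (M * a) (M * a + M)) := by
      rw [Finset.disjoint_left]
      intro x hx hx'
      simp only [Finset.mem_range, Finset.mem_Ico] at hx hx'
      omega
    rw [h1, Finset.filter_union, Finset.card_union_of_disjoint
      (Finset.disjoint_filter_filter h2), ih, Nat.filter_coprime_Ico_eq_totient]
    ring

/-- the number of odd `m < N` prime to `l` -/
theorem count_sq {l : ℕ} (hl : l % 2 = 1) (N : ℕ) :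
    ‖∑ m ∈ Finset.range N, fA (l ^ 2) m - (N : ℂ) * (Nat.totient l : ℂ) / (2 * l)‖ ≤ 2 * l := by
  have hl0 : l ≠ 0 := by omega
  set M := 2 * l with hM
  have hM0 : 0 < M := by omega
  set a := N / M with ha
  set b := N % M with hb
  have hN : N = M * a + b := (Nat.div_add_mod N M).symm
  have hbM : b < M := Nat.mod_lt _ hM0
  have hφ : Nat.totient M = Nat.totient l := by
    rw [hM, Nat.totient_mul (Nat.coprime_two_left.mpr (Nat.odd_iff.mpr hl))]
    simp
  set c := ((Finset.Ico (M * a) (M * a + b)).filter (fun m => M.Coprime m)).card with hc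
  have hcle : c ≤ Nat.totient M := by
    rw [hc, ← Nat.filter_coprime_Ico_eq_totient M (M * a)]
    apply Finset.card_le_card
    apply Finset.filter_subset_filter
    apply Finset.Ico_subset_Ico le_rfl
    omega
  have h1 : ∑ m ∈ Finset.range N, fA (l ^ 2) m = ((a * Nat.totient M + c : ℕ) : ℂ) := by
    rw [Finset.sum_congr rfl fun m _ => fA_sq m hl, Finset.sum_boole]
    congr 1
    have e1 : Finset.range N = Finset.range (M * a) ∪ Finset.Ico (M * a) (M * a + b) := by
      ext x
      simp only [Finset.mem_range, Finset.mem_union, Finset.mem_Ico]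
      omega
    have e2 : Disjoint (Finset.range (M * a)) (Finset.Ico (M * a) (M * a + b)) := by
      rw [Finset.disjoint_left]
      intro x hx hx'
      simp only [Finset.mem_range, Finset.mem_Ico] at hx hx'
      omega
    rw [e1, Finset.filter_union, Finset.card_union_of_disjoint
      (Finset.disjoint_filter_filter e2), card_block]
  have hMr : (0 : ℝ) < M := by exact_mod_cast hM0
  have h2 : ∑ m ∈ Finset.range N, fA (l ^ 2) m - (N : ℂ) * (Nat.totient l : ℂ) / (2 * l) =
      (((c : ℝ) - b * Nat.totient M / M : ℝ) : ℂ) := by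
    rw [h1, ← hφ]
    have e1 : (2 * (l : ℂ)) = (M : ℂ) := by rw [hM]; push_cast; ring
    have e2 : (M : ℂ) ≠ 0 := by exact_mod_cast hM0.ne'
    rw [e1, hN]
    push_cast
    field_simp
    ring
  rw [h2, Complex.norm_real, Real.norm_eq_abs]
  have hφl : (Nat.totient M : ℝ) ≤ l := by
    rw [hφ]
    exact_mod_cast Nat.totient_le l
  have hb1 : (b : ℝ) * Nat.totient M / M ≤ Nat.totient M := by
    rw [div_le_iff₀ hMr, mul_comm]
    have : (b : ℝ) ≤ M := by exact_mod_cast hbM.le
    exact mul_le_mul_of_nonneg_left this (Nat.cast_nonneg _)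
  have hb0 : 0 ≤ (b : ℝ) * Nat.totient M / M := by positivity
  have hc1 : (c : ℝ) ≤ Nat.totient M := by exact_mod_cast hcle
  have hc0 : (0 : ℝ) ≤ c := Nat.cast_nonneg _
  have hl1 : (0 : ℝ) ≤ l := Nat.cast_nonneg _
  rw [abs_le]
  constructor <;> linarith

/-- the number of odd squares below `N` is at most `√N` -/
theorem card_odd_sq_le (N : ℕ) :
    (((Finset.range N).filter (fun r => r % 2 = 1 ∧ IsSquare r)).card : ℝ) ≤ √N := by
  have hsub : (Finset.range N).filter (fun r => r % 2 = 1 ∧ IsSquare r) ⊆
      (Finset.Icc 1 (Nat.sqrt N)).image (fun j => j * j) := by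
    intro r hr
    rw [Finset.mem_filter, Finset.mem_range] at hr
    obtain ⟨h1, h2, j, rfl⟩ := hr
    rw [Finset.mem_image]
    refine ⟨j, Finset.mem_Icc.mpr ⟨?_, ?_⟩, rfl⟩
    · rcases Nat.eq_zero_or_pos j with h | h
      · subst h
        simp at h2
      · exact h
    · exact Nat.le_sqrt.mpr h1.le
  have h1 : ((Finset.range N).filter (fun r => r % 2 = 1 ∧ IsSquare r)).card ≤ Nat.sqrt N := by
    refine (Finset.card_le_card hsub).trans (Finset.card_image_le.trans ?_)
    simp
  have h2 : ((Nat.sqrt N : ℕ) : ℝ) ≤ √N := Real.nat_sqrt_le_real_sqrt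
  have h3 : (((Finset.range N).filter (fun r => r % 2 = 1 ∧ IsSquare r)).card : ℝ) ≤
      (Nat.sqrt N : ℝ) := by exact_mod_cast h1
  linarith

end Pool.Agent.MDSL
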