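import Mathlib

set_option autoImplicit false

open Complex
open scoped NumberTheorySymbols

namespace Pool.Agent.MDSL

/-- Chinese remainder theorem for sums of periodic functions -/
theorem sum_crt {q b : ℕ} (hq : 0 < q) (hb : 0 < b) (hcop : q.Coprime b) (F : ℕ → ℂ)
    (hF : ∀ x y, x ≡ y [MOD q * b] → F x = F y) :
    ∑ x ∈ Finset.range (q * b), F x =
      ∑ a ∈ Finset.range q, ∑ y ∈ Finset.range b, F (b * a + q * y) := by
  have hqb : 0 < q * b := Nat.mul_pos hq hb
  rw [← Finset.sum_product']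
  set φ : ℕ × ℕ → ℕ := fun p => (b * p.1 + q * p.2) % (q * b) with hφ
  have hinj : Set.InjOn φ (Finset.range q ×ˢ Finset.range b : Finset (ℕ × ℕ)) := by
    rintro ⟨a, y⟩ h1 ⟨a', y'⟩ h2 h
    simp only [Finset.coe_product, Set.mem_prod, Finset.mem_coe, Finset.mem_range] at h1 h2
    have h3 : b * a + q * y ≡ b * a' + q * y' [MOD q * b] := h
    have h4 : b * a + q * y ≡ b * a' + q * y' [MOD q] := h3.of_dvd (Dvd.intro _ rfl)
    have h5 : b * a + q * y ≡ b * a' + q * y' [MOD b] := h3.of_dvd (Dvd.intro_left _ rfl)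
    have h6 : b * a ≡ b * a' [MOD q] := by
      unfold Nat.ModEq at h4 ⊢
      simpa using h4
    have h7 : q * y ≡ q * y' [MOD b] := by
      unfold Nat.ModEq at h5 ⊢
      simpa using h5
    have h8 : a ≡ a' [MOD q] := Nat.ModEq.cancel_left_of_coprime hcop h6
    have h9 : y ≡ y' [MOD b] := Nat.ModEq.cancel_left_of_coprime hcop.symm h7
    have e1 : a = a' := Nat.ModEq.eq_of_lt_of_lt h8 h1.1 h2.1
    have e2 : y = y' := Nat.ModEq.eq_of_lt_of_lt h9 h1.2 h2.2
    rw [e1, e2]
  have himg : (Finset.range q ×ˢ Finset.range b).image φ = Finset.range (q * b) := by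
    apply Finset.eq_of_subset_of_card_le
    · intro x hx
      rw [Finset.mem_image] at hx
      obtain ⟨p, _, rfl⟩ := hx
      rw [Finset.mem_range]
      exact Nat.mod_lt _ hqb
    · rw [Finset.card_image_of_injOn hinj]
      simp
  rw [← himg, Finset.sum_image hinj]
  refine Finset.sum_congr rfl fun p _ => ?_
  exact hF _ _ (Nat.mod_modEq _ _)

end Pool.Agent.MDSL
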