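import Pool.Agent.MDSL.Defs

/-!
# Euler factors of the series of the characters `(n / r)` and `χ₋₄(n) (n / r)`
-/

set_option autoImplicit false

open Complex Filter Topology
open scoped NumberTheorySymbols
open Pool.Agent.MDS Pool.Agent.TubeDS

namespace Pool.Agent.MDSL

theorem lam_eq_fA {r : ℕ} (hr : r % 4 = 1) : lam r = fA r := by
  funext n
  unfold lam fA
  split_ifs with h
  · rw [jacobiSym.quadratic_reciprocity_one_mod_four hr (Nat.odd_iff.mpr h)]
  · rfl

theorem chi4_even {n : ℕ} (h : n % 2 = 0) : ZMod.χ₄ (n : ZMod 4) = 0 := by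
  rw [ZMod.χ₄_nat_eq_if_mod_four, if_pos h]

theorem lam_eq_fB {r : ℕ} (hr : r % 4 = 3) : lam r = fB r := by
  funext n
  unfold lam fB
  split_ifs with h
  · have h2 : n % 4 = 1 ∨ n % 4 = 3 := by omega
    rcases h2 with h2 | h2
    · rw [ZMod.χ₄_nat_one_mod_four h2,
        jacobiSym.quadratic_reciprocity_one_mod_four' (Nat.odd_iff.mpr (by omega : r % 2 = 1)) h2,
        one_mul]
    · rw [ZMod.χ₄_nat_three_mod_four h2,
        jacobiSym.quadratic_reciprocity_three_mod_four hr h2, neg_one_mul]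
  · rw [chi4_even (by omega : n % 2 = 0)]
    simp

theorem fE_eq (r n : ℕ) : fE r n = (fA r n + fB r n) / 2 := by
  unfold fE fA fB
  have h : n % 4 = 1 ∨ n % 4 = 3 ∨ n % 2 = 0 := by omega
  rcases h with h | h | h
  · rw [if_pos h, if_pos (by omega : n % 2 = 1), ZMod.χ₄_nat_one_mod_four h]
    push_cast
    ring
  · rw [if_neg (by omega : ¬ n % 4 = 1), if_pos (by omega : n % 2 = 1),
      ZMod.χ₄_nat_three_mod_four h]
    push_cast
    ring
  · rw [if_neg (by omega : ¬ n % 4 = 1), if_neg (by omega : ¬ n % 2 = 1), chi4_even h]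
    simp

/-! ### Removing Euler factors -/

theorem lser_summable {f : ℕ → ℂ} (hle : ∀ n, ‖f n‖ ≤ 1) {s : ℂ} (hs : 1 < s.re) :
    LSeriesSummable f s :=
  LSeriesSummable_of_bounded_of_one_lt_re (m := 1) (fun n _ => hle n) hs

theorem remove_one {f : ℕ → ℂ} (hmul : ∀ m n, m ≠ 0 → n ≠ 0 → f (m * n) = f m * f n)
    (hle : ∀ n, ‖f n‖ ≤ 1) {p : ℕ} (hp : p ≠ 0) {s : ℂ} (hs : 1 < s.re) :
    LSeries (fun n => if p ∣ n then 0 else f n) s = (1 - f p * (p : ℂ) ^ (-s)) * LSeries f s := by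
  have hsum := lser_summable hle hs
  have hle' : ∀ n, ‖(if p ∣ n then 0 else f n : ℂ)‖ ≤ 1 := by
    intro n
    split_ifs
    · simp
    · exact hle n
  have hsum' := lser_summable hle' hs
  have key : LSeries f s - LSeries (fun n => if p ∣ n then 0 else f n) s =
      f p * (p : ℂ) ^ (-s) * LSeries f s := by
    unfold LSeries
    rw [← hsum.tsum_sub hsum', ← tsum_mul_left]
    have hinj : Function.Injective (fun m : ℕ => p * m) := fun a b h =>
      Nat.eq_of_mul_eq_mul_left (Nat.pos_of_ne_zero hp) h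
    rw [← hinj.tsum_eq]
    · refine tsum_congr fun m => ?_
      rcases eq_or_ne m 0 with rfl | hm
      · simp
      · have hpm : p * m ≠ 0 := mul_ne_zero hp hm
        rw [LSeries.term_of_ne_zero hpm, LSeries.term_of_ne_zero hpm, LSeries.term_of_ne_zero hm,
          if_pos (Dvd.intro _ rfl), hmul p m hp hm, Nat.cast_mul, Complex.natCast_mul_natCast_cpow,
          Complex.cpow_neg]
        field_simp
        ring
    · intro n hn
      rw [Function.mem_support] at hn
      by_cases h : p ∣ n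
      · obtain ⟨m, rfl⟩ := h
        exact ⟨m, rfl⟩
      · exfalso
        apply hn
        rcases eq_or_ne n 0 with rfl | hn0
        · exact absurd (dvd_zero p) h
        · rw [LSeries.term_of_ne_zero hn0, LSeries.term_of_ne_zero hn0, if_neg h, sub_self]
  linear_combination -key

theorem remove_finset {f : ℕ → ℂ} (hmul : ∀ m n, m ≠ 0 → n ≠ 0 → f (m * n) = f m * f n)
    (hle : ∀ n, ‖f n‖ ≤ 1) (P : Finset ℕ) (hP : ∀ p ∈ P, p.Prime) {s : ℂ} (hs : 1 < s.re) :
    LSeries (fun n => if ∀ p ∈ P, ¬ p ∣ n then f n else 0) s =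
      (∏ p ∈ P, (1 - f p * (p : ℂ) ^ (-s))) * LSeries f s := by
  induction P using Finset.induction_on with
  | empty => simp
  | insert q P hq ih =>
    have hqp : q.Prime := hP q (Finset.mem_insert_self _ _)
    have hP' : ∀ p ∈ P, p.Prime := fun p hp => hP p (Finset.mem_insert_of_mem hp)
    have hmul' : ∀ m n, m ≠ 0 → n ≠ 0 →
        (if ∀ p ∈ P, ¬ p ∣ m * n then f (m * n) else 0 : ℂ) =
        (if ∀ p ∈ P, ¬ p ∣ m then f m else 0) * (if ∀ p ∈ P, ¬ p ∣ n then f n else 0) := by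
      intro m n hm hn
      by_cases h1 : ∀ p ∈ P, ¬ p ∣ m
      · by_cases h2 : ∀ p ∈ P, ¬ p ∣ n
        · rw [if_pos h1, if_pos h2, if_pos, hmul m n hm hn]
          intro p hp hdvd
          rcases (hP' p hp).dvd_mul.mp hdvd with h | h
          · exact h1 p hp h
          · exact h2 p hp h
        · rw [if_neg h2, mul_zero, if_neg]
          intro h
          apply h2
          intro p hp hdvd
          exact h p hp (hdvd.mul_left _)
      · rw [if_neg h1, zero_mul, if_neg]
        intro h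
        apply h1
        intro p hp hdvd
        exact h p hp (hdvd.mul_right _)
    have hle' : ∀ n, ‖(if ∀ p ∈ P, ¬ p ∣ n then f n else 0 : ℂ)‖ ≤ 1 := by
      intro n
      split_ifs
      · exact hle n
      · simp
    have h1 := remove_one hmul' hle' hqp.ne_zero hs
    rw [ih hP'] at h1
    have hq' : ∀ p ∈ P, ¬ p ∣ q := by
      intro p hp hdvd
      rcases (Nat.dvd_prime hqp).mp hdvd with h | h
      · exact (hP' p hp).one_lt.ne' h
      · exact hq (h ▸ hp)
    rw [if_pos hq'] at h1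
    rw [Finset.prod_insert hq, mul_assoc, ← h1]
    refine LSeries_congr (fun {n} _ => ?_) s
    by_cases h : q ∣ n
    · rw [if_pos h, if_neg]
      intro h'
      exact h' q (Finset.mem_insert_self _ _) h
    · rw [if_neg h]
      by_cases h2 : ∀ p ∈ P, ¬ p ∣ n
      · rw [if_pos h2, if_pos]
        intro p hp
        rcases Finset.mem_insert.mp hp with rfl | hp
        · exact h
        · exact h2 p hp
      · rw [if_neg h2, if_neg]
        intro h'
        exact h2 fun p hp => h' p (Finset.mem_insert_of_mem hp)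

/-! ### The characters are multiplicative and bounded -/

theorem jac_abs_le (a : ℤ) (b : ℕ) : ‖((J(a | b) : ℤ) : ℂ)‖ ≤ 1 := by
  rcases jacobiSym.trichotomy a b with h | h | h <;> simp [h]

theorem fA_mul (r m n : ℕ) : fA r (m * n) = fA r m * fA r n := by
  unfold fA
  by_cases h1 : m % 2 = 1
  · by_cases h2 : n % 2 = 1
    · rw [if_pos h1, if_pos h2, if_pos (Nat.odd_iff.mp
        ((Nat.odd_iff.mpr h1).mul (Nat.odd_iff.mpr h2)))]
      push_cast
      rw [jacobiSym.mul_left]
      push_cast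
      ring
    · rw [if_neg h2, mul_zero, if_neg]
      intro h
      exact h2 (Nat.odd_iff.mp (Nat.odd_mul.mp (Nat.odd_iff.mpr h)).2)
  · rw [if_neg h1, zero_mul, if_neg]
    intro h
    exact h1 (Nat.odd_iff.mp (Nat.odd_mul.mp (Nat.odd_iff.mpr h)).1)

theorem norm_fA_le (r n : ℕ) : ‖fA r n‖ ≤ 1 := by
  unfold fA
  split_ifs
  · exact jac_abs_le _ _
  · simp

theorem fB_mul (r m n : ℕ) : fB r (m * n) = fB r m * fB r n := by
  unfold fB
  push_cast
  rw [map_mul, jacobiSym.mul_left]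
  push_cast
  ring

theorem norm_fB_le (r n : ℕ) : ‖fB r n‖ ≤ 1 := by
  unfold fB
  push_cast
  rw [norm_mul]
  refine mul_le_one₀ ?_ (norm_nonneg _) (jac_abs_le _ _)
  rw [ZMod.χ₄_nat_eq_if_mod_four]
  split_ifs <;> simp

theorem jac_mul_sq {r l : ℕ} (hr : r ≠ 0) (hl : l ≠ 0) (n : ℕ) :
    J((n : ℤ) | r * l ^ 2) = if ∀ p ∈ l.primeFactors, ¬ p ∣ n then J((n : ℤ) | r) else 0 := by
  rw [jacobiSym.mul_right' _ hr (pow_ne_zero 2 hl), jacobiSym.pow_right]
  by_cases h : ∀ p ∈ l.primeFactors, ¬ p ∣ n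
  · rw [if_pos h, jacobiSym.sq_one, mul_one]
    rw [Int.gcd_natCast_natCast]
    apply Nat.coprime_of_dvd
    intro p hp h1 h2
    exact h p (Nat.mem_primeFactors.mpr ⟨hp, h2, hl⟩) h1
  · rw [if_neg h]
    push Not at h
    obtain ⟨p, hp, hpn⟩ := h
    have : NeZero l := ⟨hl⟩
    have h0 : J((n : ℤ) | l) = 0 := by
      rw [jacobiSym.eq_zero_iff_not_coprime, Int.gcd_natCast_natCast]
      intro h1
      have h2 := Nat.dvd_gcd hpn (Nat.dvd_of_mem_primeFactors hp)
      rw [h1] at h2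
      exact (Nat.prime_of_mem_primeFactors hp).one_lt.ne' (Nat.dvd_one.mp h2)
    rw [h0]
    ring

theorem LSeries_fA_mul_sq {r l : ℕ} (hr : r % 2 = 1) (hl : l % 2 = 1) {s : ℂ} (hs : 1 < s.re) :
    LSeries (fA (r * l ^ 2)) s =
      (∏ p ∈ l.primeFactors, (1 - ((J((p : ℤ) | r) : ℤ) : ℂ) * (p : ℂ) ^ (-s))) *
        LSeries (fA r) s := by
  have h := remove_finset (f := fA r) (fun m n _ _ => fA_mul r m n) (norm_fA_le r) l.primeFactors
    (fun p hp => Nat.prime_of_mem_primeFactors hp) hs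
  have h1 : fA (r * l ^ 2) = fun n => if ∀ p ∈ l.primeFactors, ¬ p ∣ n then fA r n else 0 := by
    funext n
    unfold fA
    rw [jac_mul_sq (by omega) (by omega)]
    split_ifs <;> simp
  rw [h1, h]
  congr 1
  refine Finset.prod_congr rfl fun p hp => ?_
  have hpo : p % 2 = 1 := by
    have h2 := (Nat.odd_iff.mpr hl).of_dvd_nat (Nat.dvd_of_mem_primeFactors hp)
    exact Nat.odd_iff.mp h2
  unfold fA
  rw [if_pos hpo]

theorem LSeries_fB_mul_sq {r l : ℕ} (hr : r % 2 = 1) (hl : l % 2 = 1) {s : ℂ} (hs : 1 < s.re) :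
    LSeries (fB (r * l ^ 2)) s =
      (∏ p ∈ l.primeFactors, (1 - ((ZMod.χ₄ (p : ZMod 4) * J((p : ℤ) | r) : ℤ) : ℂ) *
        (p : ℂ) ^ (-s))) * LSeries (fB r) s := by
  have h := remove_finset (f := fB r) (fun m n _ _ => fB_mul r m n) (norm_fB_le r) l.primeFactors
    (fun p hp => Nat.prime_of_mem_primeFactors hp) hs
  have h1 : fB (r * l ^ 2) = fun n => if ∀ p ∈ l.primeFactors, ¬ p ∣ n then fB r n else 0 := by
    funext n
    unfold fB
    rw [jac_mul_sq (by omega) (by omega)]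
    split_ifs <;> simp
  rw [h1, h]
  rfl

theorem kron_odd {d n : ℕ} (hn : n % 2 = 1) : kron d n = J((d : ℤ) | n) := by
  have h : n.factorization 2 = 0 := Nat.factorization_eq_zero_of_not_dvd (by omega)
  unfold kron
  rw [h]
  simp

theorem LSeries_fA_eq_L {r : ℕ} (hr : r % 4 = 1) (hsq : Squarefree r) {s : ℂ} (hs : 1 < s.re) :
    LSeries (fA r) s = (1 - (kron r 2 : ℂ) * (2 : ℂ) ^ (-s)) * L r s := by
  have h := remove_one (f := fun n => (kron r n : ℂ)) (fun m n hm hn => by
      rw [kron_mul r hm hn]; push_cast; ring) (norm_kron_le r) (p := 2) two_ne_zero hs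
  rw [L, ← lam_eq_fA hr]
  refine Eq.trans ?_ (h.trans (by push_cast; rfl))
  refine LSeries_congr (fun {n} _ => ?_) s
  unfold lam
  by_cases h2 : n % 2 = 1
  · rw [if_pos h2, if_neg (by omega), kron_odd h2]
  · rw [if_neg h2, if_pos (by omega)]

theorem LSeries_fB_eq_L {r : ℕ} (hr : r % 4 = 3) (hsq : Squarefree r) {s : ℂ} (hs : 1 < s.re) :
    LSeries (fB r) s = L (4 * r) s := by
  rw [L, ← lam_eq_fB hr]
  refine LSeries_congr (fun {n} hn => ?_) s
  unfold lam
  by_cases h2 : n % 2 = 1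
  · rw [if_pos h2, kron_odd h2]
    congr 1
    push_cast
    rw [jacobiSym.mul_left, show (4 : ℤ) = 2 ^ 2 by norm_num, jacobiSym.pow_left,
      jacobiSym.sq_one, one_mul]
    exact Int.isCoprime_iff_gcd_eq_one.mp (by
      have : Nat.Coprime 2 n := (Nat.coprime_two_left).mpr (Nat.odd_iff.mpr h2)
      exact_mod_cast Nat.isCoprime_iff_coprime.mpr this)
  · rw [if_neg h2]
    unfold kron
    have h3 : n.factorization 2 ≠ 0 := by
      have := (Nat.Prime.dvd_iff_one_le_factorization Nat.prime_two hn).mp (by omega)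
      omega
    have h4 : ZMod.χ₈ ((4 * r : ℕ) : ZMod 8) = 0 := by
      rw [ZMod.χ₈_nat_eq_if_mod_eight, if_pos (by omega)]
    rw [h4, zero_pow h3]
    simp

end Pool.Agent.MDSL
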