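import Pool.Agent.MDSL.Abel
import Pool.Agent.MDSL.Euler

/-!
# The generating series of the values `(d / r)`, and the zeros of its abscissa function
-/

set_option autoImplicit false

open Complex Filter Topology
open scoped NumberTheorySymbols
open Pool.Agent.MDS Pool.Agent.TubeDS

namespace Pool.Agent.MDSL

namespace DM

theorem kron_four_pow_mul {r a : ℕ} (ha : 1 ≤ a) (hr : r % 2 = 1) (d : ℕ) :
    kron d (4 ^ a * r) = if d % 2 = 1 then J((d : ℤ) | r) else 0 := by
  have hr0 : r ≠ 0 := by omega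
  have h2r : ¬ 2 ∣ r := by omega
  have h1 : (4 ^ a * r).factorization 2 = 2 * a := by
    rw [show (4 : ℕ) = 2 ^ 2 by norm_num, ← pow_mul, Nat.factorization_mul (by positivity) hr0,
      Nat.factorization_pow, Finsupp.add_apply, Finsupp.smul_apply,
      Nat.Prime.factorization_self Nat.prime_two, Nat.factorization_eq_zero_of_not_dvd h2r]
    simp
  have h2 : 4 ^ a * r / 2 ^ (2 * a) = r := by
    rw [show (4 : ℕ) = 2 ^ 2 by norm_num, ← pow_mul]
    exact Nat.mul_div_cancel_left r (by positivity)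
  unfold kron
  rw [h1, h2]
  have h3 : ZMod.χ₈ (d : ZMod 8) ^ 2 = if d % 2 = 1 then 1 else 0 := by
    have h4 : ∀ x : ZMod 8, ZMod.χ₈ x ^ 2 = if x.val % 2 = 1 then 1 else 0 := by decide
    rw [h4, ZMod.val_natCast]
    congr 1
    rw [Nat.mod_mod_of_dvd _ (by norm_num)]
  rw [pow_mul, h3]
  split_ifs
  · rw [one_pow, one_mul]
  · rw [zero_pow (by omega), zero_mul]

/-- the coefficients of the sum over the fundamental discriminants -/
noncomputable def u (r : ℕ) (w : ℂ) (d : ℕ) : ℂ :=
  open Classical in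
  if d % 4 = 1 ∧ Squarefree d then ((J((d : ℤ) | r) : ℤ) : ℂ) * (d : ℂ) ^ (-w) else 0

theorem A_eq {r a : ℕ} (ha : 1 ≤ a) (hr : r % 2 = 1) (w : ℂ) :
    A 0 (4 ^ a * r) (fun i => i.elim0) w = ∑' d : ℕ, u r w d := by
  classical
  unfold A
  simp only [Finset.univ_eq_empty, Finset.prod_empty, mul_one]
  have h0 := tsum_subtype {d : ℕ | IsFundDisc d}
    (fun d : ℕ => (kron d (4 ^ a * r) : ℂ) * (d : ℂ) ^ (-w))
  refine h0.trans (tsum_congr fun d => ?_)
  rw [Set.indicator_apply, u]
  rw [kron_four_pow_mul ha hr]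
  change (if IsFundDisc d then _ else _) = _
  by_cases h1 : d % 4 = 1 ∧ Squarefree d
  · have h2 : IsFundDisc d := Or.inl h1
    rw [if_pos h1, if_pos h2, if_pos (by omega)]
  · rw [if_neg h1]
    split_ifs with h2 h3
    · exfalso
      rcases h2 with h2 | ⟨m, rfl, _⟩
      · exact h1 h2
      · omega
    · simp
    · rfl

theorem norm_u_le (r : ℕ) (w : ℂ) (d : ℕ) : ‖u r w d‖ ≤ ((d : ℝ) ^ w.re)⁻¹ := by
  unfold u
  split_ifs with h
  · rw [norm_mul, norm_cpow_neg (by omega)]
    have h1 : ‖((J((d : ℤ) | r) : ℤ) : ℂ)‖ ≤ 1 := by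
      rcases jacobiSym.trichotomy (d : ℤ) r with h | h | h <;> simp [h]
    calc _ ≤ 1 * ((d : ℝ) ^ w.re)⁻¹ := by gcongr
      _ = _ := one_mul _
  · simp only [norm_zero]
    positivity

/-- the coefficients of the trivial character modulo `2 r` -/
noncomputable def v (r : ℕ) (w : ℂ) (l : ℕ) : ℂ :=
  if l.Coprime (2 * r) then (l : ℂ) ^ (-(2 * w)) else 0

theorem norm_v_le {r : ℕ} (hr : r % 2 = 1) (w : ℂ) (l : ℕ) : ‖v r w l‖ ≤ ((l : ℝ) ^ (2 * w).re)⁻¹ := by
  unfold v
  split_ifs with h
  · have : 0 < l := by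
      rcases Nat.eq_zero_or_pos l with h0 | h0
      · subst h0
        rw [Nat.coprime_zero_left] at h
        omega
      · exact h0
    rw [norm_cpow_neg this]
  · simp only [norm_zero]
    positivity

theorem sq_squarefree_inj {d d' l l' : ℕ} (hd : Squarefree d) (hd' : Squarefree d') (hl : l ≠ 0)
    (hl' : l' ≠ 0) (h : d * l ^ 2 = d' * l' ^ 2) : d = d' ∧ l = l' := by
  have h0 := hd.ne_zero
  have h0' := hd'.ne_zero
  have h1 : ∀ p, d.factorization p + 2 * l.factorization p =
      d'.factorization p + 2 * l'.factorization p := by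
    intro p
    have h2 : (d * l ^ 2).factorization p = (d' * l' ^ 2).factorization p := by rw [h]
    rw [Nat.factorization_mul h0 (by positivity), Nat.factorization_mul h0' (by positivity),
      Nat.factorization_pow, Nat.factorization_pow, Finsupp.add_apply, Finsupp.add_apply,
      Finsupp.smul_apply, Finsupp.smul_apply, smul_eq_mul, smul_eq_mul] at h2
    exact h2
  have h3 : ∀ p, d.factorization p ≤ 1 := fun p => hd.natFactorization_le_one p
  have h4 : ∀ p, d'.factorization p ≤ 1 := fun p => hd'.natFactorization_le_one p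
  constructor
  · refine Nat.eq_of_factorization_eq h0 h0' fun p => ?_
    have := h1 p
    have := h3 p
    have := h4 p
    omega
  · refine Nat.eq_of_factorization_eq hl hl' fun p => ?_
    have := h1 p
    have := h3 p
    have := h4 p
    omega

/-- the coefficient at `d l ^ 2` -/
theorem term_eq {r d l : ℕ} (hr : r % 2 = 1) (hd : Squarefree d) (hl : l ≠ 0) (w : ℂ) :
    LSeries.term (fE r) w (d * l ^ 2) = u r w d * v r w l := by
  have h0 := hd.ne_zero
  have hne : d * l ^ 2 ≠ 0 := by positivity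
  rw [LSeries.term_of_ne_zero hne]
  rcases Nat.even_or_odd l with he | ho
  · -- `l` even
    have h1 : ¬ l.Coprime (2 * r) := by
      intro h
      have := Nat.Coprime.coprime_mul_right_right h
      rw [Nat.coprime_two_right] at this
      exact (Nat.not_even_iff_odd.mpr this) he
    have h2 : d * l ^ 2 % 4 ≠ 1 := by
      obtain ⟨k, rfl⟩ := he
      have : d * (k + k) ^ 2 = 4 * (d * k ^ 2) := by ring
      omega
    rw [v, if_neg h1, fE, if_neg h2]
    simp
  · have h1 : d * l ^ 2 % 4 = d % 4 := by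
      obtain ⟨k, rfl⟩ := ho
      have : d * (2 * k + 1) ^ 2 = 4 * (d * (k * k + k)) + d := by ring
      omega
    rw [u, v, fE, h1]
    by_cases h2 : d % 4 = 1
    · rw [if_pos h2, if_pos ⟨h2, hd⟩]
      have h3 : J(((d * l ^ 2 : ℕ) : ℤ) | r) = J((d : ℤ) | r) * J((l : ℤ) | r) ^ 2 := by
        push_cast
        rw [jacobiSym.mul_left, jacobiSym.pow_left]
      rw [h3]
      have h4 : ((d * l ^ 2 : ℕ) : ℂ) ^ w = (d : ℂ) ^ w * (l : ℂ) ^ (2 * w) := by
        have hl0 : (l : ℂ) ≠ 0 := Nat.cast_ne_zero.mpr hl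
        push_cast
        rw [sq, ← Nat.cast_mul, Complex.natCast_mul_natCast_cpow]
        push_cast
        rw [Complex.natCast_mul_natCast_cpow, ← Complex.cpow_add _ _ hl0, two_mul]
      rw [h4]
      by_cases h5 : l.Coprime r
      · have h6 : J((l : ℤ) | r) ^ 2 = 1 := by
          apply jacobiSym.sq_one
          simpa [Int.gcd] using h5
        have h7 : l.Coprime (2 * r) :=
          Nat.Coprime.mul_right (Nat.coprime_two_right.mpr ho) h5
        rw [h6, if_pos h7, Complex.cpow_neg, Complex.cpow_neg]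
        push_cast
        field_simp
      · have h6 : J((l : ℤ) | r) = 0 := by
          rw [jacobiSym.eq_zero_iff]
          refine ⟨by omega, fun h => h5 ?_⟩
          simpa [Int.gcd] using h
        have h7 : ¬ l.Coprime (2 * r) := fun h => h5 (Nat.Coprime.coprime_mul_left_right h)
        rw [h6, if_neg h7]
        simp
    · rw [if_neg h2, if_neg (fun h => h2 h.1)]
      simp

theorem sum_v {r : ℕ} (hr : r % 2 = 1) {w : ℂ} (hw : 1 < w.re) :
    ∑' l : ℕ, v r w l = riemannZeta (2 * w) * ∏ p ∈ (2 * r).primeFactors, (1 - (p : ℂ) ^ (-(2 * w))) := by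
  have : NeZero (2 * r) := ⟨by omega⟩
  have h2w : 1 < (2 * w).re := by
    simp
    linarith
  have h1 : (2 * w : ℂ) ≠ 1 := by
    intro h
    rw [h] at h2w
    simp at h2w
  have h2 := DirichletCharacter.LFunctionTrivChar_eq_mul_riemannZeta (N := 2 * r) h1
  rw [mul_comm, ← h2, DirichletCharacter.LFunctionTrivChar,
    DirichletCharacter.LFunction_eq_LSeries _ h2w, LSeries]
  refine tsum_congr fun l => ?_
  rcases Nat.eq_zero_or_pos l with h0 | h0
  · subst h0
    rw [LSeries.term_zero, v, if_neg]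
    rw [Nat.coprime_zero_left]
    omega
  · rw [LSeries.term_of_ne_zero (by omega), v]
    split_ifs with h3
    · rw [MulChar.one_apply ((ZMod.isUnit_iff_coprime _ _).mpr h3), Complex.cpow_neg, one_div]
    · rw [MulChar.map_nonunit _ (fun h => h3 ((ZMod.isUnit_iff_coprime _ _).mp h)), zero_div]

end DM

open DM in
/-- the generating series of the values `(d / r)` -/
theorem dm_identity {r a : ℕ} (ha : 1 ≤ a) (hr : r % 2 = 1) {w : ℂ} (hw : 1 < w.re) :
    LSeries (fE r) w = A 0 (4 ^ a * r) (fun i => i.elim0) w *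
      (riemannZeta (2 * w) * ∏ p ∈ (2 * r).primeFactors, (1 - (p : ℂ) ^ (-(2 * w)))) := by
  have h2w : 1 < (2 * w).re := by
    simp
    linarith
  have hsu : Summable (fun d => ‖u r w d‖) :=
    Summable.of_nonneg_of_le (fun _ => norm_nonneg _) (norm_u_le r w) (summable_zr hw)
  have hsv : Summable (fun l => ‖v r w l‖) :=
    Summable.of_nonneg_of_le (fun _ => norm_nonneg _) (norm_v_le hr w) (summable_zr h2w)
  rw [A_eq ha hr, ← sum_v hr hw, tsum_mul_tsum_of_summable_norm hsu hsv]
  set S : Set (ℕ × ℕ) := {p | Squarefree p.1 ∧ p.2 ≠ 0} with hS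
  have h1 : ∑' p : S, (fun p : ℕ × ℕ => u r w p.1 * v r w p.2) p =
      ∑' p : ℕ × ℕ, u r w p.1 * v r w p.2 := by
    refine tsum_subtype_eq_of_support_subset (f := fun p : ℕ × ℕ => u r w p.1 * v r w p.2) ?_
    intro p hp
    rw [Function.mem_support] at hp
    change Squarefree p.1 ∧ p.2 ≠ 0
    constructor
    · by_contra hcon
      apply hp
      rw [u, if_neg (fun h => hcon h.2), zero_mul]
    · intro hcon
      apply hp
      rw [hcon, v, if_neg, mul_zero]
      rw [Nat.coprime_zero_left]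
      omega
  rw [← h1]
  set g : S → ℕ := fun p => p.1.1 * p.1.2 ^ 2 with hg
  have hinj : Function.Injective g := by
    rintro ⟨⟨d, l⟩, hd, hl⟩ ⟨⟨d', l'⟩, hd', hl'⟩ h
    obtain ⟨e1, e2⟩ := sq_squarefree_inj hd hd' hl hl' h
    simp only at e1 e2
    subst e1 e2
    rfl
  have hsupp : Function.support (LSeries.term (fE r) w) ⊆ Set.range g := by
    intro n hn
    have hn0 : n ≠ 0 := by
      rintro rfl
      exact hn (LSeries.term_zero _ _)
    obtain ⟨d, l, hd0, hl0, h2, h3⟩ := Nat.sq_mul_squarefree_of_pos (Nat.pos_of_ne_zero hn0)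
    exact ⟨⟨(d, l), h3, hl0.ne'⟩, by rw [hg, ← h2]; simp only; ring⟩
  rw [LSeries, ← hinj.tsum_eq hsupp]
  refine tsum_congr fun p => ?_
  rw [hg]
  exact term_eq hr p.2.1 p.2.2 w

open DM in
theorem fE_zero_aux {r a : ℕ} (ha : 1 ≤ a) (hr : r % 2 = 1) {c : ℝ}
    (h : HolD (4 ^ a * r) c) {z : ℂ} (hz0 : 0 < z.re) (hz : z.re < 1 / 2) (hc : c < z.re)
    (hζ : riemannZeta (2 * z) = 0) (hdiff : DifferentiableOn ℂ (gAb (fE r)) {s | 0 < s.re})
    (heq : ∀ s : ℂ, 1 < s.re → gAb (fE r) s = LSeries (fE r) s) : gAb (fE r) z = 0 := by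
  obtain ⟨H, hH, hHeq⟩ := h
  have : NeZero (2 * r) := ⟨by omega⟩
  set Z := DirichletCharacter.LFunctionTrivChar₁ (2 * r) with hZ
  have hZd : Differentiable ℂ Z := DirichletCharacter.differentiable_LFunctionTrivChar₁ (2 * r)
  have hZe : ∀ s : ℂ, s ≠ 1 → Z s = (s - 1) *
      (riemannZeta s * ∏ p ∈ (2 * r).primeFactors, (1 - (p : ℂ) ^ (-s))) := by
    intro s hs
    rw [hZ, DirichletCharacter.LFunctionTrivChar₁, Function.update_of_ne hs,
      DirichletCharacter.LFunctionTrivChar_eq_mul_riemannZeta hs]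
    ring
  set U : Set ℂ := {w | max c 0 < w.re} with hU
  have hUo : IsOpen U := isOpen_lt continuous_const Complex.continuous_re
  have hUc : IsPreconnected U := (convex_halfSpace_re_gt _).isPreconnected
  set f1 : ℂ → ℂ := fun w => (w - 1) * (2 * w - 1) * gAb (fE r) w with hf1
  set f2 : ℂ → ℂ := fun w => (H w + (w - 1)) * Z (2 * w) with hf2
  have hd1 : DifferentiableOn ℂ f1 U := by
    refine DifferentiableOn.mul (by fun_prop) (hdiff.mono ?_)
    intro w hw
    have hw' : max c 0 < w.re := hw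
    exact lt_of_le_of_lt (le_max_right _ _) hw'
  have hd2 : DifferentiableOn ℂ f2 U := by
    refine DifferentiableOn.mul (DifferentiableOn.add (hH.mono ?_) (by fun_prop)) ?_
    · intro w hw
      have hw' : max c 0 < w.re := hw
      exact lt_of_le_of_lt (le_max_left _ _) hw'
    · exact (hZd.comp (by fun_prop : Differentiable ℂ (fun w : ℂ => 2 * w))).differentiableOn
  have hev : ∀ w : ℂ, 1 < w.re → f1 w = f2 w := by
    intro w hw
    have h2w : (2 * w : ℂ) ≠ 1 := by
      intro h
      have := congrArg Complex.re h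
      simp at this
      linarith
    simp only [hf1, hf2]
    rw [heq w hw, dm_identity ha hr hw, hHeq w hw, hZe _ h2w]
    ring
  have hmem : ((max c 0 + 2 : ℝ) : ℂ) ∈ U := by
    change max c 0 < (((max c 0 + 2 : ℝ) : ℂ)).re
    rw [Complex.ofReal_re]
    linarith
  have hnear : f1 =ᶠ[𝓝 ((max c 0 + 2 : ℝ) : ℂ)] f2 := by
    have : {w : ℂ | 1 < w.re} ∈ 𝓝 ((max c 0 + 2 : ℝ) : ℂ) := by
      refine (isOpen_lt continuous_const Complex.continuous_re).mem_nhds ?_
      change 1 < (((max c 0 + 2 : ℝ) : ℂ)).re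
      rw [Complex.ofReal_re]
      have := le_max_right c 0
      linarith
    filter_upwards [this] with w hw using hev w hw
  have hmain := (hd1.analyticOnNhd hUo).eqOn_of_preconnected_of_eventuallyEq
    (hd2.analyticOnNhd hUo) hUc hmem hnear
  have hzU : z ∈ U := by
    change max c 0 < z.re
    exact max_lt hc hz0
  have h1 := hmain hzU
  have h2z : (2 * z : ℂ) ≠ 1 := by
    intro h
    have := congrArg Complex.re h
    simp at this
    linarith
  have hz1 : (z - 1 : ℂ) ≠ 0 := by
    intro h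
    have := congrArg Complex.re h
    simp at this
    linarith
  simp only [hf1, hf2] at h1
  rw [hZe _ h2z, hζ, zero_mul, mul_zero, mul_zero] at h1
  have h3 : (2 * z - 1 : ℂ) ≠ 0 := sub_ne_zero.mpr h2z
  exact (mul_eq_zero.mp h1).resolve_left (mul_ne_zero hz1 h3)

/-- the version with the bounds for the partial sums as hypotheses -/
theorem fE_zero_of_bps {r a : ℕ} (ha : 1 ≤ a) (hr : r % 2 = 1) {BA BB : ℝ} (hA : BPS (fA r) BA)
    (hB : BPS (fB r) BB) {c : ℝ} (h : HolD (4 ^ a * r) c) {z : ℂ} (hz0 : 0 < z.re)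
    (hz : z.re < 1 / 2) (hc : c < z.re) (hζ : riemannZeta (2 * z) = 0) : gAb (fE r) z = 0 := by
  have hE : BPS (fE r) ((BA + BB) / 2) := by
    refine ⟨?_, fun n => ?_, fun N => ?_⟩
    · rw [fE_eq, hA.zero, hB.zero]
      simp
    · rw [fE_eq, norm_div]
      have h1 := norm_add_le (fA r n) (fB r n)
      have h2 := hA.le_one n
      have h3 := hB.le_one n
      have h4 : ‖(2 : ℂ)‖ = 2 := by simp
      rw [h4, div_le_one two_pos]
      linarith
    · have h1 : ∑ m ∈ Finset.range N, fE r m =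
          (∑ m ∈ Finset.range N, fA r m + ∑ m ∈ Finset.range N, fB r m) / 2 := by
        rw [← Finset.sum_add_distrib, Finset.sum_div]
        exact Finset.sum_congr rfl fun m _ => fE_eq r m
      have h2 := hA.sum_le N
      have h3 := hB.sum_le N
      have h4 : ‖(2 : ℂ)‖ = 2 := by simp
      rw [h1, norm_div, h4]
      have h5 := norm_add_le (∑ m ∈ Finset.range N, fA r m) (∑ m ∈ Finset.range N, fB r m)
      linarith
  exact fE_zero_aux ha hr h hz0 hz hc hζ (gAb_differentiableOn hE) (fun s hs => gAb_eq hE hs)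

end Pool.Agent.MDSL
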