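import Mathlib

/-!
# The Pólya–Vinogradov inequality for primitive characters
-/

set_option autoImplicit false

open Complex Filter Topology

namespace Pool.Agent.MDSL

theorem norm_gaussSum_sq {q : ℕ} [NeZero q] {χ : DirichletCharacter ℂ q} (hχ : χ.IsPrimitive) :
    ‖gaussSum χ⁻¹ (ZMod.stdAddChar (N := q))‖ ^ 2 = q := by
  have hχi : (χ⁻¹).IsPrimitive := by
    rw [DirichletCharacter.isPrimitive_def, DirichletCharacter.conductor_inv]
    exact hχ
  have h1 : (ZMod.dft (ZMod.dft (χ : ZMod q → ℂ))) 1 = (q : ℂ) * χ (-1) := by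
    rw [ZMod.dft_dft]
    simp
  have h2 : ZMod.dft (χ : ZMod q → ℂ) =
      fun k => (fun j => χ⁻¹ j * gaussSum χ ZMod.stdAddChar) (-k) := by
    funext k
    exact hχ.fourierTransform_eq_inv_mul_gaussSum k
  have h3 : (ZMod.dft (ZMod.dft (χ : ZMod q → ℂ))) 1 =
      gaussSum χ⁻¹ ZMod.stdAddChar * gaussSum χ ZMod.stdAddChar := by
    have e0 := ZMod.dft_comp_neg (fun j : ZMod q => χ⁻¹ j * gaussSum χ ZMod.stdAddChar)
    have e1 := ZMod.dft_mul_const (fun j : ZMod q => χ⁻¹ j) (gaussSum χ (ZMod.stdAddChar (N := q)))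
    rw [h2, e0, e1]
    simp only
    rw [hχi.fourierTransform_eq_inv_mul_gaussSum]
    simp
  have h4 : ‖gaussSum χ ZMod.stdAddChar‖ = ‖gaussSum χ⁻¹ (ZMod.stdAddChar (N := q))‖ := by
    have e1 := star_gaussSum_eq χ (ZMod.stdAddChar (N := q))
    have e2 : (ZMod.stdAddChar (N := q))⁻¹ = (ZMod.stdAddChar (N := q)).mulShift (-1) := by
      ext x
      rw [AddChar.inv_apply, AddChar.mulShift_apply]
      simp
    rw [e2, gaussSum_mulShift_of_isPrimitive _ hχi] at e1
    have e3 : ‖gaussSum χ ZMod.stdAddChar‖ = ‖star (gaussSum χ (ZMod.stdAddChar (N := q)))‖ := by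
      rw [norm_star]
    rw [e3, e1, norm_mul]
    have : ‖(χ⁻¹)⁻¹ (-1)‖ = 1 := by
      have := (χ⁻¹)⁻¹.unit_norm_eq_one (-1)
      simpa using this
    rw [this, one_mul]
  have h5 : ‖χ (-1)‖ = 1 := by
    have := χ.unit_norm_eq_one (-1)
    simpa using this
  have h6 := congrArg norm (h3.symm.trans h1)
  rw [norm_mul, norm_mul, h5, h4] at h6
  simp at h6
  rw [pow_two]
  exact h6

theorem geom_bound {q : ℕ} [NeZero q] {a : ZMod q} (ha : a ≠ 0) (N : ℕ) :
    ‖∑ m ∈ Finset.range N, ZMod.stdAddChar ((m : ZMod q) * a)‖ ≤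
      (q : ℝ) / 2 * ((a.val : ℝ)⁻¹ + ((q : ℝ) - a.val)⁻¹) := by
  have hq0 : (0 : ℝ) < q := by exact_mod_cast Nat.pos_of_ne_zero (NeZero.ne q)
  have hv0 : 0 < a.val := Nat.pos_of_ne_zero (by rwa [Ne, ZMod.val_eq_zero])
  have hvq : a.val < q := ZMod.val_lt a
  have hv0' : (0 : ℝ) < a.val := by exact_mod_cast hv0
  have hvq' : (a.val : ℝ) < q := by exact_mod_cast hvq
  set ω : ℂ := ZMod.stdAddChar a with hω
  have e1 : ∀ m : ℕ, ZMod.stdAddChar ((m : ZMod q) * a) = ω ^ m := by
    intro m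
    rw [← nsmul_eq_mul, AddChar.map_nsmul_eq_pow]
  simp only [e1]
  set θ : ℝ := 2 * Real.pi * (a.val / q) with hθ
  have e2 : ω = Complex.exp (I * θ) := by
    rw [hω, ZMod.stdAddChar_apply, ZMod.toCircle_apply]
    congr 1
    rw [hθ]
    push_cast
    ring
  have e3 : ‖ω - 1‖ = 2 * Real.sin (Real.pi * (a.val / q)) := by
    rw [e2, Complex.norm_exp_I_mul_ofReal_sub_one]
    have : θ / 2 = Real.pi * (a.val / q) := by rw [hθ]; ring
    rw [this, Real.norm_eq_abs, abs_mul, abs_two, abs_of_nonneg]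
    apply Real.sin_nonneg_of_nonneg_of_le_pi
    · positivity
    · have : (a.val : ℝ) / q ≤ 1 := by
        rw [div_le_one hq0]; exact hvq'.le
      nlinarith [Real.pi_pos]
  have e4 : (2 * (a.val : ℝ) * (q - a.val)) / q ^ 2 ≤ Real.sin (Real.pi * (a.val / q)) / 1 := by
    rw [div_one]
    rcases le_total ((a.val : ℝ) / q) (1 / 2) with h | h
    · have := Real.mul_le_sin (x := Real.pi * (a.val / q)) (by positivity) (by nlinarith [Real.pi_pos])
      refine le_trans ?_ this
      have e : 2 / Real.pi * (Real.pi * (a.val / q)) = 2 * (a.val : ℝ) / q := by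
        field_simp
      rw [e, div_le_div_iff₀ (by positivity) hq0]
      nlinarith [mul_pos hv0' hq0, mul_pos (mul_pos hv0' hq0) hv0']
    · have h1 : Real.sin (Real.pi * (a.val / q)) = Real.sin (Real.pi * ((q - a.val) / q)) := by
        rw [← Real.sin_pi_sub]
        congr 1
        field_simp
      rw [h1]
      have h0 : 0 ≤ ((q : ℝ) - a.val) / q := div_nonneg (by linarith) hq0.le
      have h2 : ((q : ℝ) - a.val) / q ≤ 1 / 2 := by
        have : ((q : ℝ) - a.val) / q = 1 - a.val / q := by field_simp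
        rw [this]; linarith
      have := Real.mul_le_sin (x := Real.pi * ((q - a.val) / q)) (by positivity) (by nlinarith [Real.pi_pos])
      refine le_trans ?_ this
      have e : 2 / Real.pi * (Real.pi * (((q : ℝ) - a.val) / q)) = 2 * ((q : ℝ) - a.val) / q := by
        field_simp
      rw [e, div_le_div_iff₀ (by positivity) hq0]
      have h3 : (0 : ℝ) < q - a.val := by linarith
      nlinarith [mul_pos h3 hq0, mul_pos (mul_pos h3 hq0) h3]
  have hpos : 0 < (2 * (a.val : ℝ) * (q - a.val)) / q ^ 2 := by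
    have h3 : (0 : ℝ) < q - a.val := by linarith
    positivity
  have hs : 0 < Real.sin (Real.pi * (a.val / q)) := by
    rw [div_one] at e4
    linarith
  have hω1 : ω ≠ 1 := by
    intro h
    rw [h, sub_self, norm_zero] at e3
    linarith
  have hωn : ‖ω‖ = 1 := by
    rw [e2, mul_comm, Complex.norm_exp_ofReal_mul_I]
  rw [geom_sum_eq hω1, norm_div, e3]
  have e5 : ‖ω ^ N - 1‖ ≤ 2 := by
    refine (norm_sub_le _ _).trans ?_
    rw [norm_pow, hωn]
    norm_num
  have h3 : (0 : ℝ) < q - a.val := by linarith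
  calc ‖ω ^ N - 1‖ / (2 * Real.sin (Real.pi * (a.val / q)))
      ≤ 2 / (2 * ((2 * (a.val : ℝ) * (q - a.val)) / q ^ 2)) := by
        apply div_le_div₀ (by norm_num) e5 (by positivity)
        rw [div_one] at e4
        linarith
    _ = (q : ℝ) / 2 * ((a.val : ℝ)⁻¹ + ((q : ℝ) - a.val)⁻¹) := by
        field_simp
        ring

theorem sum_inv_le {q : ℕ} (hq : 1 < q) :
    ∑ v ∈ Finset.Ico 1 q, ((v : ℝ)⁻¹ + ((q : ℝ) - v)⁻¹) ≤ 2 * (1 + Real.log q) := by
  rw [Finset.sum_add_distrib]
  have h1 : ∑ v ∈ Finset.Ico 1 q, ((q : ℝ) - v)⁻¹ = ∑ v ∈ Finset.Ico 1 q, (v : ℝ)⁻¹ := by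
    refine Finset.sum_nbij' (fun v => q - v) (fun v => q - v) ?_ ?_ ?_ ?_ ?_
    · intro v hv
      simp only [Finset.mem_Ico] at hv ⊢
      omega
    · intro v hv
      simp only [Finset.mem_Ico] at hv ⊢
      omega
    · intro v hv
      simp only [Finset.mem_Ico] at hv
      omega
    · intro v hv
      simp only [Finset.mem_Ico] at hv
      omega
    · intro v hv
      simp only [Finset.mem_Ico] at hv
      rw [Nat.cast_sub hv.2.le]
  rw [h1]
  have h2 := harmonic_le_one_add_log (q - 1)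
  have h3 : ((harmonic (q - 1) : ℚ) : ℝ) = ∑ v ∈ Finset.Ico 1 q, (v : ℝ)⁻¹ := by
    rw [harmonic_eq_sum_Icc]
    push_cast
    refine Finset.sum_congr ?_ fun _ _ => rfl
    ext v
    simp only [Finset.mem_Icc, Finset.mem_Ico]
    omega
  rw [h3] at h2
  have h4 : Real.log ((q - 1 : ℕ) : ℝ) ≤ Real.log q := by
    apply Real.log_le_log
    · exact_mod_cast (by omega : 0 < q - 1)
    · exact_mod_cast (by omega : q - 1 ≤ q)
  linarith

theorem pv {q : ℕ} [NeZero q] (hq : 1 < q) {χ : DirichletCharacter ℂ q} (hχ : χ.IsPrimitive)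
    (N : ℕ) : ‖∑ m ∈ Finset.range N, χ (m : ZMod q)‖ ≤ √q * (1 + Real.log q) := by
  have hq0 : (0 : ℝ) < q := by exact_mod_cast (by omega : 0 < q)
  have hχi : (χ⁻¹).IsPrimitive := by
    rw [DirichletCharacter.isPrimitive_def, DirichletCharacter.conductor_inv]
    exact hχ
  set τ := gaussSum χ⁻¹ (ZMod.stdAddChar (N := q)) with hτ
  have hτn : ‖τ‖ = √q := by
    rw [← norm_gaussSum_sq hχ, Real.sqrt_sq (norm_nonneg _)]
  have h1 : ∀ m : ℕ, χ (m : ZMod q) * τ =
      ∑ a : ZMod q, χ⁻¹ a * ZMod.stdAddChar ((m : ZMod q) * a) := by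
    intro m
    have := gaussSum_mulShift_of_isPrimitive (ZMod.stdAddChar (N := q)) hχi (m : ZMod q)
    rw [inv_inv] at this
    rw [hτ, ← this]
    rfl
  have h2 : (∑ m ∈ Finset.range N, χ (m : ZMod q)) * τ =
      ∑ a : ZMod q, χ⁻¹ a * ∑ m ∈ Finset.range N, ZMod.stdAddChar ((m : ZMod q) * a) := by
    rw [Finset.sum_mul]
    simp only [h1]
    rw [Finset.sum_comm]
    refine Finset.sum_congr rfl fun a _ => ?_
    rw [Finset.mul_sum]
  have h3 : ‖(∑ m ∈ Finset.range N, χ (m : ZMod q)) * τ‖ ≤ q * (1 + Real.log q) := by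
    rw [h2]
    calc ‖∑ a : ZMod q, χ⁻¹ a * ∑ m ∈ Finset.range N, ZMod.stdAddChar ((m : ZMod q) * a)‖
        ≤ ∑ a : ZMod q, (if a = 0 then 0 else
            (q : ℝ) / 2 * ((a.val : ℝ)⁻¹ + ((q : ℝ) - a.val)⁻¹)) := by
          refine norm_sum_le_of_le _ fun a _ => ?_
          by_cases ha : a = 0
          · have : Nontrivial (ZMod q) := by
              have : Fact (1 < q) := ⟨hq⟩
              infer_instance
            rw [ha, MulChar.map_zero]
            simp
          · rw [if_neg ha, norm_mul]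
            have e1 : ‖χ⁻¹ a‖ ≤ 1 := DirichletCharacter.norm_le_one _ _
            calc ‖χ⁻¹ a‖ * ‖∑ m ∈ Finset.range N, ZMod.stdAddChar ((m : ZMod q) * a)‖
                ≤ 1 * ‖∑ m ∈ Finset.range N, ZMod.stdAddChar ((m : ZMod q) * a)‖ :=
                  mul_le_mul_of_nonneg_right e1 (norm_nonneg _)
              _ ≤ _ := by rw [one_mul]; exact geom_bound ha N
      _ = ∑ v ∈ Finset.range q, (if v = 0 then 0 else
            (q : ℝ) / 2 * ((v : ℝ)⁻¹ + ((q : ℝ) - v)⁻¹)) := by
          refine Finset.sum_nbij' (fun a => a.val) (fun v => (v : ZMod q)) ?_ ?_ ?_ ?_ ?_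
          · intro a _
            exact Finset.mem_range.mpr (ZMod.val_lt a)
          · intro v _
            exact Finset.mem_univ _
          · intro a _
            exact ZMod.natCast_zmod_val a
          · intro v hv
            exact ZMod.val_cast_of_lt (Finset.mem_range.mp hv)
          · intro a _
            by_cases ha : a = 0
            · simp [ha]
            · have : a.val ≠ 0 := by rwa [Ne, ZMod.val_eq_zero]
              rw [if_neg ha, if_neg this]
      _ = (q : ℝ) / 2 * ∑ v ∈ Finset.Ico 1 q, ((v : ℝ)⁻¹ + ((q : ℝ) - v)⁻¹) := by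
          rw [Finset.mul_sum, Finset.range_eq_Ico, Finset.sum_eq_sum_Ico_succ_bot (by omega)]
          simp only [if_true, zero_add]
          refine Finset.sum_congr rfl fun v hv => ?_
          rw [if_neg (by rw [Finset.mem_Ico] at hv; omega)]
      _ ≤ q * (1 + Real.log q) := by
          have := sum_inv_le hq
          nlinarith
  rw [norm_mul, hτn] at h3
  have hs : 0 < √(q : ℝ) := Real.sqrt_pos.mpr hq0
  have hqq : (q : ℝ) = √q * √q := (Real.mul_self_sqrt hq0.le).symm
  by_contra hcon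
  push Not at hcon
  have := mul_lt_mul_of_pos_right hcon hs
  have e : √(q : ℝ) * (1 + Real.log q) * √q = q * (1 + Real.log q) := by
    calc √(q : ℝ) * (1 + Real.log q) * √q = (√q * √q) * (1 + Real.log q) := by ring
      _ = q * (1 + Real.log q) := by rw [Real.mul_self_sqrt hq0.le]
  rw [e] at this
  linarith

/-- the number of divisors -/
theorem card_divisors_le_two_sqrt (k : ℕ) : ((Nat.divisors k).card : ℝ) ≤ 2 * √k := by
  have hsub : Nat.divisors k ⊆
      (Finset.Icc 1 (Nat.sqrt k)) ∪ (Finset.Icc 1 (Nat.sqrt k)).image (fun d => k / d) := by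
    intro d hd
    rw [Nat.mem_divisors] at hd
    obtain ⟨⟨e, he⟩, hk⟩ := hd
    have hd0 : 0 < d := Nat.pos_of_ne_zero (by rintro rfl; simp at he; exact hk he)
    have he0 : 0 < e := Nat.pos_of_ne_zero (by rintro rfl; simp at he; exact hk he)
    rw [Finset.mem_union]
    by_cases h : d ≤ Nat.sqrt k
    · left
      exact Finset.mem_Icc.mpr ⟨hd0, h⟩
    · right
      rw [Finset.mem_image]
      refine ⟨e, Finset.mem_Icc.mpr ⟨he0, ?_⟩, ?_⟩
      · by_contra h2
        push Not at h h2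
        have h3 := Nat.lt_succ_sqrt k
        have h4 : (Nat.sqrt k + 1) * (Nat.sqrt k + 1) ≤ d * e := Nat.mul_le_mul h h2
        rw [← he] at h4
        simp only [Nat.succ_eq_add_one] at h3
        omega
      · rw [he, Nat.mul_div_cancel _ he0]
  have h1 : (Nat.divisors k).card ≤ 2 * Nat.sqrt k := by
    refine (Finset.card_le_card hsub).trans ((Finset.card_union_le _ _).trans ?_)
    have h2 : ((Finset.Icc 1 (Nat.sqrt k)).image (fun d => k / d)).card ≤
        (Finset.Icc 1 (Nat.sqrt k)).card := Finset.card_image_le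
    have h3 : (Finset.Icc 1 (Nat.sqrt k)).card = Nat.sqrt k := by simp
    omega
  have h2 : ((Nat.sqrt k : ℕ) : ℝ) ≤ √k := Real.nat_sqrt_le_real_sqrt
  calc ((Nat.divisors k).card : ℝ) ≤ ((2 * Nat.sqrt k : ℕ) : ℝ) := by exact_mod_cast h1
    _ ≤ 2 * √k := by push_cast; linarith

open ArithmeticFunction in
theorem ind_coprime (m : ℕ) {k : ℕ} (hk : k ≠ 0) :
    (if m.Coprime k then (1 : ℂ) else 0) =
      ∑ e ∈ Nat.divisors k, (if e ∣ m then ((ArithmeticFunction.moebius e : ℤ) : ℂ) else 0) := by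
  have h1 : ∑ e ∈ Nat.divisors (Nat.gcd m k), ((ArithmeticFunction.moebius e : ℤ)) =
      if Nat.gcd m k = 1 then 1 else 0 := by
    have := congrArg (fun f : ArithmeticFunction ℤ => f (Nat.gcd m k)) coe_zeta_mul_moebius
    simp only [coe_zeta_mul_apply] at this
    rw [this]
    simp [ArithmeticFunction.one_apply]
  have h2 : Nat.divisors (Nat.gcd m k) = (Nat.divisors k).filter (fun e => e ∣ m) := by
    ext e
    have : Nat.gcd m k ≠ 0 := by
      intro h
      exact hk (Nat.eq_zero_of_gcd_eq_zero_right h)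
    simp only [Nat.mem_divisors, Finset.mem_filter, Nat.dvd_gcd_iff]
    tauto
  rw [h2] at h1
  rw [← Finset.sum_filter]
  have h3 : (if m.Coprime k then (1 : ℂ) else 0) = ((if Nat.gcd m k = 1 then 1 else 0 : ℤ) : ℂ) := by
    by_cases h : Nat.gcd m k = 1
    · simp [Nat.Coprime, h]
    · simp [Nat.Coprime, h]
  rw [h3, ← h1]
  push_cast
  rfl

theorem sum_range_dvd {e : ℕ} (he : e ≠ 0) (N : ℕ) (f : ℕ → ℂ) :
    ∑ m ∈ Finset.range N, (if e ∣ m then f m else 0) =
      ∑ m ∈ Finset.range ((N + e - 1) / e), f (e * m) := by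
  rw [← Finset.sum_filter]
  refine (Finset.sum_nbij' (fun m => e * m) (fun m => m / e) ?_ ?_ ?_ ?_ ?_).symm
  · intro m hm
    rw [Finset.mem_range] at hm
    rw [Finset.mem_filter, Finset.mem_range]
    refine ⟨?_, Dvd.intro _ rfl⟩
    have h1 : (m + 1) * e ≤ N + e - 1 := (Nat.le_div_iff_mul_le (Nat.pos_of_ne_zero he)).mp hm
    have h2 : (m + 1) * e = e * m + e := by ring
    have : 0 < e := Nat.pos_of_ne_zero he
    omega
  · intro m hm
    rw [Finset.mem_filter, Finset.mem_range] at hm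
    obtain ⟨h1, c, rfl⟩ := hm
    rw [Nat.mul_div_cancel_left _ (Nat.pos_of_ne_zero he), Finset.mem_range]
    have : 0 < e := Nat.pos_of_ne_zero he
    refine (Nat.le_div_iff_mul_le this).mpr ?_
    have h2 : (c + 1) * e = e * c + e := by ring
    change (c + 1) * e ≤ _
    omega
  · intro m _
    exact Nat.mul_div_cancel_left _ (Nat.pos_of_ne_zero he)
  · intro m hm
    rw [Finset.mem_filter] at hm
    exact Nat.mul_div_cancel' hm.2
  · intro m _
    rfl

theorem pv_coprime {q : ℕ} [NeZero q] (hq : 1 < q) {χ : DirichletCharacter ℂ q}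
    (hχ : χ.IsPrimitive) {k : ℕ} (hk : k ≠ 0) (N : ℕ) :
    ‖∑ m ∈ Finset.range N, (if m.Coprime k then χ (m : ZMod q) else 0)‖ ≤
      2 * √k * (√q * (1 + Real.log q)) := by
  have hq0 : (0 : ℝ) < q := by exact_mod_cast (by omega : 0 < q)
  have hlog : 0 ≤ Real.log q := Real.log_nonneg (by exact_mod_cast hq.le)
  have hB : 0 ≤ √(q : ℝ) * (1 + Real.log q) := by positivity
  have h1 : ∑ m ∈ Finset.range N, (if m.Coprime k then χ (m : ZMod q) else 0) =
      ∑ e ∈ Nat.divisors k, ((ArithmeticFunction.moebius e : ℤ) : ℂ) * (χ (e : ZMod q) *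
        ∑ m ∈ Finset.range ((N + e - 1) / e), χ (m : ZMod q)) := by
    calc ∑ m ∈ Finset.range N, (if m.Coprime k then χ (m : ZMod q) else 0)
        = ∑ m ∈ Finset.range N, ∑ e ∈ Nat.divisors k,
            ((ArithmeticFunction.moebius e : ℤ) : ℂ) * (if e ∣ m then χ (m : ZMod q) else 0) := by
          refine Finset.sum_congr rfl fun m _ => ?_
          have e1 : (if m.Coprime k then χ (m : ZMod q) else 0) =
              (if m.Coprime k then (1 : ℂ) else 0) * χ (m : ZMod q) := by
            split_ifs <;> simp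
          rw [e1, ind_coprime m hk, Finset.sum_mul]
          refine Finset.sum_congr rfl fun e _ => ?_
          split_ifs <;> simp
      _ = _ := by
          rw [Finset.sum_comm]
          refine Finset.sum_congr rfl fun e he => ?_
          have he0 : e ≠ 0 := by
            rintro rfl
            simp at he
          rw [← Finset.mul_sum, sum_range_dvd he0]
          congr 1
          rw [Finset.mul_sum]
          refine Finset.sum_congr rfl fun m _ => ?_
          rw [Nat.cast_mul, map_mul]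
  rw [h1]
  calc ‖∑ e ∈ Nat.divisors k, ((ArithmeticFunction.moebius e : ℤ) : ℂ) * (χ (e : ZMod q) *
        ∑ m ∈ Finset.range ((N + e - 1) / e), χ (m : ZMod q))‖
      ≤ ∑ e ∈ Nat.divisors k, √(q : ℝ) * (1 + Real.log q) := by
        refine norm_sum_le_of_le _ fun e _ => ?_
        rw [norm_mul, norm_mul]
        have e1 : ‖((ArithmeticFunction.moebius e : ℤ) : ℂ)‖ ≤ 1 := by
          rw [Complex.norm_intCast]
          exact_mod_cast ArithmeticFunction.abs_moebius_le_one
        have e2 : ‖χ (e : ZMod q)‖ ≤ 1 := DirichletCharacter.norm_le_one _ _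
        have e3 := pv hq hχ ((N + e - 1) / e)
        calc ‖((ArithmeticFunction.moebius e : ℤ) : ℂ)‖ * (‖χ (e : ZMod q)‖ *
              ‖∑ m ∈ Finset.range ((N + e - 1) / e), χ (m : ZMod q)‖)
            ≤ 1 * (1 * (√(q : ℝ) * (1 + Real.log q))) := by
              gcongr
          _ = _ := by ring
    _ = ((Nat.divisors k).card : ℝ) * (√(q : ℝ) * (1 + Real.log q)) := by
        rw [Finset.sum_const, nsmul_eq_mul]
    _ ≤ 2 * √k * (√q * (1 + Real.log q)) :=
        mul_le_mul_of_nonneg_right (card_divisors_le_two_sqrt k) hB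

end Pool.Agent.MDSL
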