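import Pool.Agent.MDSL.Defs
import Pool.Agent.MDSL.PV
import Pool.Agent.MDS.Char

/-!
# The characters `(n / r)` and `χ₋₄(n) (n / r)` for odd nonsquare `r`: partial sums
-/

set_option autoImplicit false

open Complex Filter Topology
open scoped NumberTheorySymbols
open Pool.Agent.MDS Pool.Agent.TubeDS

namespace Pool.Agent.MDSL

theorem exists_char_noeven {d q b : ℕ} (hd : d = q * b) (hq : q ≠ 0) (hb : b ≠ 0) (hcop : q.Coprime b)
    (hbsq : Squarefree b) (hbodd : Odd b) (ψ : DirichletCharacter ℤ q)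
    (hψ : ∀ p : ℕ, p.Prime → p ∣ q → ∃ y : ℕ, Nat.Coprime y q ∧ y ≡ 1 [MOD (q / p)] ∧
      ψ (y : ℤ) ≠ 1) :
    ∃ χ : DirichletCharacter ℂ d, (∀ x : ℤ, χ (x : ZMod d) = ((ψ (x : ZMod q) * J(x | b) : ℤ) : ℂ)) ∧
      χ.IsPrimitive := by
  subst hd
  have : NeZero q := ⟨hq⟩
  have : NeZero b := ⟨hb⟩
  have : NeZero (q * b) := ⟨mul_ne_zero hq hb⟩
  have hper : ∀ x y : ℤ, (x : ZMod (q * b)) = y → ψ x * J(x | b) = ψ y * J(y | b) := by
    intro x y hxy
    rw [ZMod.intCast_eq_intCast_iff] at hxy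
    push_cast at hxy
    have h1 : (x : ZMod q) = y := by
      rw [ZMod.intCast_eq_intCast_iff]
      exact hxy.of_mul_right _
    have h2 : x % b = y % b := hxy.of_mul_left _
    rw [h1, jacobiSym.mod_left' h2]
  have h0 : ∀ x : ℤ, ¬ IsCoprime x ((q * b : ℕ) : ℤ) → ψ x * J(x | b) = 0 := by
    intro x hx
    rw [Nat.cast_mul, IsCoprime.mul_right_iff, not_and_or] at hx
    rcases hx with hx | hx
    · rw [(DirichletCharacter.apply_eq_zero_iff ψ x).mpr hx, zero_mul]
    · have : J(x | b) = 0 := by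
        rw [jacobiSym.eq_zero_iff_not_coprime]
        intro h
        exact hx (Int.isCoprime_iff_gcd_eq_one.mpr h)
      rw [this, mul_zero]
  set χ := mkChar (q * b) (fun x => ψ x * J(x | b)) (by simp) (by
    intro x y
    simp only [Int.cast_mul, map_mul, jacobiSym.mul_left]
    ring) hper h0 with hχ
  have hval : ∀ x : ℤ, χ (x : ZMod (q * b)) = ((ψ (x : ZMod q) * J(x | b) : ℤ) : ℂ) := by
    intro x
    rw [hχ, mkChar_apply]
  refine ⟨χ, hval, ?_⟩
  · apply isPrimitive_of
    intro p hp hpd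
    by_cases hpq : p ∣ q
    · obtain ⟨y, hy1, hy2, hy3⟩ := hψ p hp hpq
      obtain ⟨x, hx1, hx2⟩ := Nat.chineseRemainder hcop y 1
      have hxq : ((x : ℤ) : ZMod q) = ((y : ℤ) : ZMod q) := by
        rw [Int.cast_natCast, Int.cast_natCast, ZMod.natCast_eq_natCast_iff]
        exact hx1
      have hxb : J((x : ℤ) | b) = 1 := by
        have : J((x : ℤ) | b) = J(1 | b) := by
          apply jacobiSym.mod_left'
          have : (x : ℤ) ≡ ((1 : ℕ) : ℤ) [ZMOD b] := by
            rw [Int.natCast_modEq_iff]; exact hx2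
          exact this
        rw [this, jacobiSym.one_left]
      refine ⟨(x : ℤ), ?_, ?_, ?_⟩
      · rw [Nat.isCoprime_iff_coprime]
        apply Nat.Coprime.mul_right
        · have := hx1.gcd_eq
          rw [Nat.coprime_iff_gcd_eq_one, Nat.gcd_comm, Nat.gcd_comm] at hy1
          rw [Nat.coprime_iff_gcd_eq_one, ← hy1]
          rw [this]
        · have := hx2.gcd_eq
          rw [Nat.coprime_iff_gcd_eq_one, this]
          simp
      · have h1 : x ≡ 1 [MOD (q / p)] := (hx1.of_dvd (Nat.div_dvd_of_dvd hpq)).trans hy2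
        have h2 : q * b / p = q / p * b := by
          obtain ⟨q', rfl⟩ := hpq
          rw [Nat.mul_div_cancel_left _ hp.pos, mul_assoc, Nat.mul_div_cancel_left _ hp.pos]
        rw [h2]
        have hcop' : (q / p).Coprime b := hcop.coprime_dvd_left (Nat.div_dvd_of_dvd hpq)
        have h3 : x ≡ 1 [MOD (q / p * b)] := (Nat.modEq_and_modEq_iff_modEq_mul hcop').mp ⟨h1, hx2⟩
        have := (ZMod.natCast_eq_natCast_iff _ _ _).mpr h3
        push_cast at this ⊢
        exact this
      · rw [hval, hxb, mul_one, hxq]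
        intro h
        apply hy3
        exact_mod_cast h
    · have hpb : p ∣ b := (hp.dvd_mul.mp hpd).resolve_left hpq
      have hp2 : p ≠ 2 := by
        rintro rfl
        rw [Nat.odd_iff] at hbodd
        omega
      obtain ⟨b', rfl⟩ := hpb
      have hb'0 : b' ≠ 0 := fun h => hb (by rw [h, mul_zero])
      have : NeZero b' := ⟨hb'0⟩
      have : NeZero p := ⟨hp.ne_zero⟩
      have hpb' : p.Coprime b' := Nat.coprime_of_squarefree_mul hbsq
      have hqp : q.Coprime p := hcop.coprime_dvd_right (Dvd.intro _ rfl)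
      have hqb' : q.Coprime b' := hcop.coprime_dvd_right (Dvd.intro_left _ rfl)
      obtain ⟨r, hr⟩ := exists_nonresidue hp hp2
      have hcop2 : (q * b').Coprime p := Nat.Coprime.mul_left hqp hpb'.symm
      obtain ⟨x, hx1, hx2⟩ := Nat.chineseRemainder hcop2 1 r
      have hxq : ((x : ℤ) : ZMod q) = 1 := by
        have : x ≡ 1 [MOD q] := hx1.of_dvd (Dvd.intro _ rfl)
        have := (ZMod.natCast_eq_natCast_iff _ _ _).mpr this
        push_cast at this ⊢
        exact this
      have hxb' : J((x : ℤ) | b') = 1 := by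
        have : J((x : ℤ) | b') = J(1 | b') := by
          apply jacobiSym.mod_left'
          have : (x : ℤ) ≡ ((1 : ℕ) : ℤ) [ZMOD b'] := by
            rw [Int.natCast_modEq_iff]; exact hx1.of_dvd (Dvd.intro_left _ rfl)
          exact this
        rw [this, jacobiSym.one_left]
      have hxp : J((x : ℤ) | p) = -1 := by
        rw [← hr]
        apply jacobiSym.mod_left'
        have : (x : ℤ) ≡ (r : ℤ) [ZMOD p] := by
          rw [Int.natCast_modEq_iff]; exact hx2
        exact this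
      have hxJ : J((x : ℤ) | p * b') = -1 := by
        rw [jacobiSym.mul_right, hxp, hxb', mul_one]
      refine ⟨(x : ℤ), ?_, ?_, ?_⟩
      · by_contra hc
        have h1 := h0 _ hc
        rw [hxJ, hxq] at h1
        simp at h1
      · have h2 : q * (p * b') / p = q * b' := by
          rw [show q * (p * b') = p * (q * b') by ring, Nat.mul_div_cancel_left _ hp.pos]
        rw [h2]
        have := (ZMod.natCast_eq_natCast_iff _ _ _).mpr hx1
        push_cast at this ⊢
        exact this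
      · rw [hval, hxJ, hxq]
        simp
        norm_num

theorem sq_decomp {r : ℕ} (hr : r % 2 = 1) (hns : ¬ IsSquare r) :
    ∃ r₀ l : ℕ, r = r₀ * l ^ 2 ∧ Squarefree r₀ ∧ 1 < r₀ ∧ r₀ % 2 = 1 ∧ l % 2 = 1 ∧ 1 ≤ l := by
  obtain ⟨a, b, hab, hsq⟩ := Nat.sq_mul_squarefree r
  have hmod : b ^ 2 * a % 2 = 1 := by rw [hab]; exact hr
  have hodd : Odd (b ^ 2 * a) := Nat.odd_iff.mpr hmod
  rw [Nat.odd_mul] at hodd
  have hb : Odd b := by
    rcases Nat.even_or_odd b with h | h
    · exfalso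
      have : Even (b ^ 2) := by rw [Nat.even_pow]; exact ⟨h, by norm_num⟩
      exact (Nat.not_even_iff_odd.mpr hodd.1) this
    · exact h
  refine ⟨a, b, by rw [← hab]; ring, hsq, ?_, Nat.odd_iff.mp hodd.2, Nat.odd_iff.mp hb, hb.pos⟩
  by_contra h1
  have : a = 1 := by
    have := hodd.2.pos
    omega
  subst this
  exact hns ⟨b, by rw [← hab]; ring⟩

theorem jac_mul_sq_aux (n : ℕ) {r₀ l : ℕ} (h0 : r₀ ≠ 0) (hl : l ≠ 0) :
    J((n : ℤ) | r₀ * l ^ 2) = if n.Coprime l then J((n : ℤ) | r₀) else 0 := by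
  have : NeZero r₀ := ⟨h0⟩
  have : NeZero l := ⟨hl⟩
  have : NeZero (l ^ 2) := ⟨pow_ne_zero _ hl⟩
  rw [jacobiSym.mul_right, jacobiSym.pow_right]
  split_ifs with h
  · have : J((n : ℤ) | l) ^ 2 = 1 := by
      apply jacobiSym.sq_one
      exact_mod_cast h
    rw [this, mul_one]
  · have : J((n : ℤ) | l) = 0 := by
      rw [jacobiSym.eq_zero_iff_not_coprime]
      exact_mod_cast h
    rw [this]
    ring

theorem abs_jac_le (a : ℤ) (b : ℕ) : |J(a | b)| ≤ 1 := by
  rcases jacobiSym.trichotomy a b with h | h | h <;> rw [h] <;> norm_num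

theorem norm_intCast_le_one {z : ℤ} (h : |z| ≤ 1) : ‖(z : ℂ)‖ ≤ 1 := by
  rw [Complex.norm_intCast]
  exact_mod_cast h

theorem abs_chi4_le (a : ZMod 4) : |ZMod.χ₄ a| ≤ 1 := by
  revert a
  decide

theorem sqrt_le_self_of_one_le {x : ℝ} (hx : 1 ≤ x) : √x ≤ x := by
  rw [Real.sqrt_le_left (by linarith)]
  nlinarith

theorem bps_fA : ∃ C : ℝ, 0 < C ∧ ∀ r : ℕ, r % 2 = 1 → ¬ IsSquare r →
    BPS (fA r) (C * (√r * (1 + Real.log r))) := by
  refine ⟨4, by norm_num, ?_⟩
  intro r hr hns
  refine ⟨?_, ?_, ?_⟩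
  · simp [fA]
  · intro n
    unfold fA
    split_ifs
    · exact norm_intCast_le_one (abs_jac_le _ _)
    · simp
  · intro N
    obtain ⟨r₀, l, hrl, hsq, h1, hodd, hlo, hl1⟩ := sq_decomp hr hns
    have hr0 : r₀ ≠ 0 := by omega
    have : NeZero r₀ := ⟨hr0⟩
    obtain ⟨χ, hχ, hprim⟩ := exists_char_noeven (d := r₀) (q := 1) (b := r₀) (by ring) one_ne_zero
      hr0 (Nat.coprime_one_left r₀) hsq (Nat.odd_iff.mpr hodd) (1 : DirichletCharacter ℤ 1)
      (by
        intro p hp hp1
        exact absurd (Nat.dvd_one.mp hp1) hp.one_lt.ne')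
    have hval : ∀ m : ℕ, fA r m = if m.Coprime (2 * l) then χ (m : ZMod r₀) else 0 := by
      intro m
      have h5 := hχ (m : ℤ)
      rw [MulChar.one_apply (isUnit_of_subsingleton _), one_mul, Int.cast_natCast] at h5
      unfold fA
      rw [hrl, jac_mul_sq_aux m hr0 (by omega), h5]
      by_cases hm : m % 2 = 1
      · rw [if_pos hm]
        have h2 : m.Coprime 2 := by
          rw [Nat.coprime_two_right, Nat.odd_iff]; exact hm
        by_cases hc : m.Coprime l
        · rw [if_pos hc, if_pos (Nat.Coprime.mul_right h2 hc)]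
        · rw [if_neg hc, if_neg (fun h => hc (Nat.Coprime.coprime_mul_left_right h))]
          simp
      · rw [if_neg hm, if_neg]
        intro h
        have h2 : m.Coprime 2 := Nat.Coprime.coprime_mul_right_right h
        rw [Nat.coprime_two_right, Nat.odd_iff] at h2
        exact hm h2
    have hpv := pv_coprime h1 hprim (k := 2 * l) (by omega) N
    have hsum : ∑ m ∈ Finset.range N, fA r m =
        ∑ m ∈ Finset.range N, (if m.Coprime (2 * l) then χ (m : ZMod r₀) else 0) :=
      Finset.sum_congr rfl fun m _ => hval m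
    rw [hsum]
    refine hpv.trans ?_
    have hl1' : (1 : ℝ) ≤ l := by exact_mod_cast hl1
    have hr1 : (1 : ℝ) < r₀ := by exact_mod_cast h1
    have e1 : √(r : ℝ) = √(r₀ : ℝ) * l := by
      rw [hrl]
      push_cast
      rw [Real.sqrt_mul (by positivity), Real.sqrt_sq (by positivity)]
    have e2 : √((2 * l : ℕ) : ℝ) ≤ 2 * l := by
      push_cast
      exact sqrt_le_self_of_one_le (by linarith)
    have hlog : Real.log r₀ ≤ Real.log r := by
      apply Real.log_le_log (by linarith)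
      rw [hrl]
      push_cast
      nlinarith [mul_self_nonneg ((l : ℝ) - 1)]
    have hlog0 : 0 ≤ Real.log r₀ := Real.log_nonneg hr1.le
    rw [e1]
    have h3 : 0 ≤ √(r₀ : ℝ) * (1 + Real.log r₀) := by positivity
    calc 2 * √((2 * l : ℕ) : ℝ) * (√(r₀ : ℝ) * (1 + Real.log r₀))
        ≤ 2 * (2 * l) * (√(r₀ : ℝ) * (1 + Real.log r₀)) := by gcongr
      _ ≤ 2 * (2 * l) * (√(r₀ : ℝ) * (1 + Real.log r)) := by gcongr
      _ = 4 * (√(r₀ : ℝ) * l * (1 + Real.log r)) := by ring

theorem bps_fB : ∃ C : ℝ, 0 < C ∧ ∀ r : ℕ, r % 2 = 1 → ¬ IsSquare r →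
    BPS (fB r) (C * (√r * (1 + Real.log r))) := by
  refine ⟨12, by norm_num, ?_⟩
  intro r hr hns
  refine ⟨?_, ?_, ?_⟩
  · simp [fB]
  · intro n
    unfold fB
    apply norm_intCast_le_one
    rw [abs_mul]
    have h1 := abs_jac_le (n : ℤ) r
    have h2 := abs_chi4_le (n : ZMod 4)
    nlinarith [abs_nonneg (J((n : ℤ) | r)), abs_nonneg (ZMod.χ₄ (n : ZMod 4))]
  · intro N
    obtain ⟨r₀, l, hrl, hsq, h1, hodd, hlo, hl1⟩ := sq_decomp hr hns
    have hr0 : r₀ ≠ 0 := by omega
    have : NeZero r₀ := ⟨hr0⟩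
    have : NeZero (4 * r₀) := ⟨by omega⟩
    have hcop : Nat.Coprime 4 r₀ := by
      have : Nat.Coprime 2 r₀ := by rw [Nat.coprime_two_left, Nat.odd_iff]; exact hodd
      exact Nat.Coprime.pow_left 2 this
    obtain ⟨χ, hχ, hprim⟩ := exists_char_noeven (d := 4 * r₀) (q := 4) (b := r₀) rfl (by norm_num)
      hr0 hcop hsq (Nat.odd_iff.mpr hodd) ZMod.χ₄
      (by
        intro p hp hp8
        have : p = 2 := (Nat.prime_dvd_prime_iff_eq hp Nat.prime_two).mp
          (hp.dvd_of_dvd_pow (show p ∣ 2 ^ 2 from hp8))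
        subst this
        exact ⟨3, by decide, by decide, by decide⟩)
    have hval : ∀ m : ℕ, fB r m = if m.Coprime l then χ (m : ZMod (4 * r₀)) else 0 := by
      intro m
      have h5 := hχ (m : ℤ)
      rw [Int.cast_natCast] at h5
      unfold fB
      rw [hrl, jac_mul_sq_aux m hr0 (by omega), h5]
      split_ifs
      · simp
      · simp
    have hpv := pv_coprime (by omega : 1 < 4 * r₀) hprim (k := l) (by omega) N
    have hsum : ∑ m ∈ Finset.range N, fB r m =
        ∑ m ∈ Finset.range N, (if m.Coprime l then χ (m : ZMod (4 * r₀)) else 0) :=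
      Finset.sum_congr rfl fun m _ => hval m
    rw [hsum]
    refine hpv.trans ?_
    have hl1' : (1 : ℝ) ≤ l := by exact_mod_cast hl1
    have hr1 : (1 : ℝ) < r₀ := by exact_mod_cast h1
    have e1 : √(r : ℝ) = √(r₀ : ℝ) * l := by
      rw [hrl]
      push_cast
      rw [Real.sqrt_mul (by positivity), Real.sqrt_sq (by positivity)]
    have e2 : √(l : ℝ) ≤ l := sqrt_le_self_of_one_le hl1'
    have e3 : √((4 * r₀ : ℕ) : ℝ) = 2 * √(r₀ : ℝ) := by
      push_cast
      rw [Real.sqrt_mul (by norm_num), show (4 : ℝ) = 2 ^ 2 by norm_num, Real.sqrt_sq (by norm_num)]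
    have e4 : Real.log ((4 * r₀ : ℕ) : ℝ) ≤ 2 + Real.log r₀ := by
      push_cast
      rw [Real.log_mul (by norm_num) (by positivity), show (4 : ℝ) = 2 ^ 2 by norm_num, Real.log_pow]
      have := Real.log_two_lt_d9
      push_cast
      linarith
    have hlog : Real.log r₀ ≤ Real.log r := by
      apply Real.log_le_log (by linarith)
      rw [hrl]
      push_cast
      nlinarith [mul_self_nonneg ((l : ℝ) - 1)]
    have hlog0 : 0 ≤ Real.log r₀ := Real.log_nonneg hr1.le
    have hlog4 : 0 ≤ Real.log ((4 * r₀ : ℕ) : ℝ) := by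
      apply Real.log_nonneg
      push_cast
      linarith
    rw [e1, e3]
    calc 2 * √(l : ℝ) * (2 * √(r₀ : ℝ) * (1 + Real.log ((4 * r₀ : ℕ) : ℝ)))
        ≤ 2 * l * (2 * √(r₀ : ℝ) * (1 + Real.log ((4 * r₀ : ℕ) : ℝ))) := by gcongr
      _ ≤ 2 * l * (2 * √(r₀ : ℝ) * (3 * (1 + Real.log r))) := by
          gcongr
          linarith
      _ = 12 * (√(r₀ : ℝ) * l * (1 + Real.log r)) := by ring

end Pool.Agent.MDSL
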