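import Pool.Agent.MDSL.DM
import Pool.Agent.MDSL.Jac

/-!
# The Dirichlet series of `(n / r)`, `n = 1 mod 4`, vanishes at half the zeros of the zeta function
-/

set_option autoImplicit false

open Pool.Agent.MDS

namespace Pool.Agent.MDSL

theorem fE_zero {r a : ℕ} (ha : 1 ≤ a) (hr : r % 2 = 1) (hnsq : ¬ IsSquare r) {c : ℝ}
    (h : HolD (4 ^ a * r) c) {z : ℂ} (hz0 : 0 < z.re) (hz : z.re < 1 / 2) (hc : c < z.re)
    (hζ : riemannZeta (2 * z) = 0) : gAb (fE r) z = 0 := by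
  obtain ⟨CA, _, hA⟩ := bps_fA
  obtain ⟨CB, _, hB⟩ := bps_fB
  exact fE_zero_of_bps ha hr (hA r hr hnsq) (hB r hr hnsq) h hz0 hz hc hζ

end Pool.Agent.MDSL
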