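import Pool.Agent.MDS.Reach

/-!
# Limits to the continuation of the multiple Dirichlet series: definitions used in the proof
-/

set_option autoImplicit false

open Complex Filter Topology
open scoped NumberTheorySymbols
open Pool.Agent.MDS Pool.Agent.TubeDS

namespace Pool.Agent.MDSL

/-- the Abel-summed series `∑ S(n) (n ^ (-s) - (n + 1) ^ (-s))`, `S(n) = f 0 + ... + f n` -/
noncomputable def gAb (f : ℕ → ℂ) (s : ℂ) : ℂ :=
  ∑' n : ℕ, (∑ m ∈ Finset.range (n + 1), f m) * ((n : ℂ) ^ (-s) - ((n + 1 : ℕ) : ℂ) ^ (-s))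

/-- `f` vanishes at `0`, is bounded by `1`, and its partial sums are bounded by `B` -/
structure BPS (f : ℕ → ℂ) (B : ℝ) : Prop where
  zero : f 0 = 0
  le_one : ∀ n, ‖f n‖ ≤ 1
  sum_le : ∀ N, ‖∑ m ∈ Finset.range N, f m‖ ≤ B

/-- `(n / r)` for odd `n` -/
noncomputable def fA (r n : ℕ) : ℂ := if n % 2 = 1 then ((J((n : ℤ) | r) : ℤ) : ℂ) else 0

/-- `χ₋₄(n) (n / r)` -/
noncomputable def fB (r n : ℕ) : ℂ := ((ZMod.χ₄ (n : ZMod 4) * J((n : ℤ) | r) : ℤ) : ℂ)

/-- `(n / r)` for `n` congruent to `1` modulo `4` -/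
noncomputable def fE (r n : ℕ) : ℂ := if n % 4 = 1 then ((J((n : ℤ) | r) : ℤ) : ℂ) else 0

/-- `(r / n)` for odd `n` -/
noncomputable def lam (r n : ℕ) : ℂ := if n % 2 = 1 then ((J((r : ℤ) | n) : ℤ) : ℂ) else 0

/-- `(w - 1) (∑*_d χ_d(m) d ^ (-w) - 1)` extends holomorphically to `Re w > c` -/
def HolD (m : ℕ) (c : ℝ) : Prop :=
  ∃ H : ℂ → ℂ, DifferentiableOn ℂ H {w | c < w.re} ∧
    ∀ w : ℂ, 1 < w.re → H w = (w - 1) * (A 0 m (fun i => i.elim0) w - 1)

/-- the real point obtained by reflecting the coordinates in `J` -/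
noncomputable def flips {k : ℕ} (J : Finset (Fin k)) (x : Option (Fin k) → ℝ) : Option (Fin k) → ℝ :=
  fun o => o.elim (x none - ∑ j ∈ J, (1 / 2 - x (some j)))
    (fun l => if l ∈ J then 1 - x (some l) else x (some l))

/-- all root numbers of the characters `χ_d` are `1` -/
def RootOne : Prop := ∀ d : ℕ, IsFundDisc d → 1 < d → eps d = 1

end Pool.Agent.MDSL
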