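import Pool.Agent.MDSL.Defs

/-!
# Extraction of the coefficients
-/

set_option autoImplicit false

open Complex Filter Topology
open Pool.Agent.MDS Pool.Agent.TubeDS

namespace Pool.Agent.MDSL

/-- `(w - 1) (A - ζ ⋯ ζ)` extends to the tube over `D` -/
def ExtA (k M : ℕ) (D : Set (Option (Fin k) → ℝ)) : Prop :=
  ∃ H : (Option (Fin k) → ℂ) → ℂ, DifferentiableOn ℂ H (tube D) ∧ PolyBdd D H ∧
    ∀ z ∈ tube D, (∀ o, 1 < (z o).re) →
      H z = (z none - 1) * (A k M (toP z).1 (toP z).2 - ∏ j, riemannZeta ((toP z).1 j))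

/-- the change of variables in the extraction step -/
def cv {k : ℕ} {R : Type*} [Add R] (c : R) (y : Option (Option (Fin k)) → R) :
    Option (Fin (k + 1)) → R :=
  fun o => o.elim (y (some none)) (fun j => (Fin.cons (y none + c) (fun i => y (some (some i))) :
    Fin (k + 1) → R) j)

theorem continuous_cv {k : ℕ} (c : ℝ) : Continuous (cv c : (Option (Option (Fin k)) → ℝ) → _) := by
  refine continuous_pi fun o => ?_
  cases o with
  | none => exact continuous_apply _
  | some j =>
    refine Fin.cases ?_ (fun i => ?_) j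
    · show Continuous fun y : Option (Option (Fin k)) → ℝ => y none + c
      fun_prop
    · show Continuous fun y : Option (Option (Fin k)) → ℝ => y (some (some i))
      fun_prop

theorem differentiable_cv {k : ℕ} (c : ℂ) :
    Differentiable ℂ (cv c : (Option (Option (Fin k)) → ℂ) → _) := by
  rw [differentiable_pi]
  intro o
  cases o with
  | none => show Differentiable ℂ fun y : Option (Option (Fin k)) → ℂ => y (some none); fun_prop
  | some j =>
    refine Fin.cases ?_ (fun i => ?_) j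
    · show Differentiable ℂ fun y : Option (Option (Fin k)) → ℂ => y none + c
      fun_prop
    · show Differentiable ℂ fun y : Option (Option (Fin k)) → ℂ => y (some (some i))
      fun_prop

theorem re_cv {k : ℕ} (c : ℝ) (y : Option (Option (Fin k)) → ℂ) :
    (fun o => (cv (c : ℂ) y o).re) = cv c (fun o => (y o).re) := by
  funext o
  cases o with
  | none => rfl
  | some j =>
    refine Fin.cases ?_ (fun i => ?_) j
    · show (y none + (c : ℂ)).re = (y none).re + c
      simp
    · rfl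

theorem im_cv {k : ℕ} (c : ℝ) (y : Option (Option (Fin k)) → ℂ) :
    (fun o => (cv (c : ℂ) y o).im) = cv 0 (fun o => (y o).im) := by
  funext o
  cases o with
  | none => rfl
  | some j =>
    refine Fin.cases ?_ (fun i => ?_) j
    · show (y none + (c : ℂ)).im = (y none).im + 0
      simp
    · rfl

theorem norm_cv_zero_le {k : ℕ} (y : Option (Option (Fin k)) → ℝ) : ‖cv 0 y‖ ≤ ‖y‖ := by
  rw [pi_norm_le_iff_of_nonneg (norm_nonneg _)]
  intro o
  cases o with
  | none => exact norm_le_pi_norm y _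
  | some j =>
    refine Fin.cases ?_ (fun i => ?_) j
    · show ‖y none + 0‖ ≤ _
      rw [add_zero]
      exact norm_le_pi_norm y _
    · exact norm_le_pi_norm y _

/-- one extraction step, at real part `S` -/
theorem ExtA.step {k M : ℕ} (hM : 1 ≤ M) {D : Set (Option (Fin (k + 1)) → ℝ)} (hDo : IsOpen D)
    (h : ExtA (k + 1) M D) {S : ℝ} (hS : 1 < S) {n : ℕ} (hn : 1 ≤ n) :
    ExtA k (M * n) {x | cv (S - 2) (ins 2 x) ∈ D} := by
  obtain ⟨H, hHd, hHb, hHe⟩ := h
  set D₁ : Set (Option (Option (Fin k)) → ℝ) := cv (S - 2) ⁻¹' D with hD₁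
  have hD₁o : IsOpen D₁ := hDo.preimage (continuous_cv _)
  set H₁ : (Option (Option (Fin k)) → ℂ) → ℂ := fun y => H (cv ((S - 2 : ℝ) : ℂ) y) with hH₁
  have hH₁d : DifferentiableOn ℂ H₁ (tube D₁) := by
    refine hHd.comp (differentiable_cv _).differentiableOn ?_
    intro y hy
    show (fun o => (cv ((S - 2 : ℝ) : ℂ) y o).re) ∈ D
    rw [re_cv]; exact hy
  have hH₁b : PolyBdd D₁ H₁ := by
    intro K hK hKc
    obtain ⟨C, N, hC⟩ := hHb (cv (S - 2) '' K) (by rintro _ ⟨x, hx, rfl⟩; exact hK hx)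
      (hKc.image (continuous_cv _))
    refine ⟨|C|, N, fun y hy => ?_⟩
    have h1 := hC (cv ((S - 2 : ℝ) : ℂ) y) (by rw [re_cv]; exact ⟨_, hy, rfl⟩)
    rw [im_cv] at h1
    refine h1.trans ?_
    have h2 := norm_cv_zero_le (fun o => (y o).im)
    have h3 := le_abs_self C
    gcongr
  set O : Set (Option (Fin k) → ℝ) := {x | ∀ o, 1 < x o} ∩ slice 2 D₁ with hO
  set a : ℕ → (Option (Fin k) → ℂ) → ℂ := fun m z => if m = 0 then 0 else
    ((z none - 1) * (A k (M * m) (toP z).1 (toP z).2 - ∏ j, riemannZeta ((toP z).1 j))) *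
      (m : ℂ) ^ (-((S - 2 : ℝ) : ℂ)) with ha
  have hser : ∀ z ∈ tube O, ∀ t : ℝ, H₁ (ins (2 + t * Complex.I) z) =
      ∑' m : ℕ, a m z * (m : ℂ) ^ (-(2 + t * Complex.I)) := by
    intro z hz t
    have hzre : ∀ o, 1 < (z o).re := hz.1
    set v : ℂ := 2 + t * Complex.I with hv
    have hvre : v.re = 2 := by simp [hv]
    set u : ℂ := v + ((S - 2 : ℝ) : ℂ) with hu
    have hure : u.re = S := by rw [hu, add_re, hvre, ofReal_re]; ring
    have hs : ∀ j, 1 < ((toP z).1 j).re := fun j => hzre (some j)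
    have hw : 1 < (toP z).2.re := hzre none
    set X : Option (Fin (k + 1)) → ℂ := cv ((S - 2 : ℝ) : ℂ) (ins v z) with hX
    have hX1 : (toP X).1 = Fin.cons u (toP z).1 := by
      funext j
      refine Fin.cases ?_ (fun i => ?_) j
      · rfl
      · rfl
    have hX2 : (toP X).2 = (toP z).2 := rfl
    have hXre : ∀ o, 1 < (X o).re := by
      intro o
      cases o with
      | none => exact hzre none
      | some j =>
        refine Fin.cases ?_ (fun i => ?_) j
        · show 1 < u.re
          rw [hure]; exact hS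
        · exact hzre (some i)
    have hXD : X ∈ tube D := by
      show (fun o => (cv ((S - 2 : ℝ) : ℂ) (ins v z) o).re) ∈ D
      rw [re_cv, re_ins, hvre]
      exact hz.2
    have h1 : H₁ (ins v z) = H X := rfl
    have hXn : X none = z none := rfl
    rw [h1, hHe X hXD hXre, hX1, hX2, A_sub_succ (by omega) hs hw (by rw [hure]; exact hS), hXn,
      ← tsum_mul_left]
    refine tsum_congr fun m => ?_
    rw [ha]
    simp only
    split_ifs with hm
    · simp
    · have hmC : (m : ℂ) ≠ 0 := by exact_mod_cast hm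
      have e1 : (m : ℂ) ^ (-u) = (m : ℂ) ^ (-((S - 2 : ℝ) : ℂ)) * (m : ℂ) ^ (-v) := by
        rw [← cpow_add _ _ hmC]
        congr 1
        rw [hu]; ring
      rw [e1]
      ring
  have hsum : ∀ z ∈ tube O, Summable (fun m : ℕ => ‖a m z‖ * ((m : ℝ) ^ 2)⁻¹) := by
    intro z hz
    have hzre : ∀ o, 1 < (z o).re := hz.1
    have hs : ∀ j, 1 < ((toP z).1 j).re := fun j => hzre (some j)
    have hw : 1 < (toP z).2.re := hzre none
    set B : ℝ := ‖z none - 1‖ * ((∑' d : {d : ℕ // IsFundDisc d}, (((d : ℕ) : ℝ) ^ (toP z).2.re)⁻¹ *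
      ∏ j, zr ((toP z).1 j).re) + ‖∏ j, riemannZeta ((toP z).1 j)‖) with hB
    have h0 : 0 ≤ ∑' d : {d : ℕ // IsFundDisc d}, (((d : ℕ) : ℝ) ^ (toP z).2.re)⁻¹ *
      ∏ j, zr ((toP z).1 j).re :=
      tsum_nonneg fun d => mul_nonneg (by positivity) (prod_zr_nonneg _)
    have hB0 : 0 ≤ B := by positivity
    refine Summable.of_nonneg_of_le (fun m => by positivity) (fun m => ?_)
      ((summable_zr hS).mul_left B)
    rcases Nat.eq_zero_or_pos m with rfl | hm
    · simp only [ha, if_true, norm_zero, zero_mul]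
      positivity
    · have hm0 : (0 : ℝ) < m := by exact_mod_cast hm
      rw [ha]
      simp only
      rw [if_neg hm.ne', norm_mul, norm_mul]
      have e1 : ‖(m : ℂ) ^ (-((S - 2 : ℝ) : ℂ))‖ = (m : ℝ) ^ (-(S - 2)) := by
        have := norm_cpow_eq_rpow_re_of_pos hm0 (-((S - 2 : ℝ) : ℂ))
        rw [neg_re, ofReal_re] at this
        exact_mod_cast this
      have e2 : (m : ℝ) ^ (-(S - 2)) * ((m : ℝ) ^ 2)⁻¹ = ((m : ℝ) ^ S)⁻¹ := by
        rw [← Real.rpow_natCast (m : ℝ) 2, ← Real.rpow_neg hm0.le, ← Real.rpow_neg hm0.le,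
          ← Real.rpow_add hm0]
        congr 1
        push_cast
        ring
      rw [e1, mul_assoc, e2]
      have e3 : ‖A k (M * m) (toP z).1 (toP z).2 - ∏ j, riemannZeta ((toP z).1 j)‖ ≤
          (∑' d : {d : ℕ // IsFundDisc d}, (((d : ℕ) : ℝ) ^ (toP z).2.re)⁻¹ *
            ∏ j, zr ((toP z).1 j).re) + ‖∏ j, riemannZeta ((toP z).1 j)‖ :=
        (norm_sub_le _ _).trans (by gcongr; exact norm_A_le hs hw _)
      have e4 : ‖z none - 1‖ * ‖A k (M * m) (toP z).1 (toP z).2 - ∏ j, riemannZeta ((toP z).1 j)‖ ≤ B := by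
        rw [hB]
        exact mul_le_mul_of_nonneg_left e3 (norm_nonneg _)
      exact mul_le_mul_of_nonneg_right e4 (by positivity)
  obtain ⟨E, hEd, hEa, hEb⟩ := extraction hD₁o hH₁d hH₁b a O Set.inter_subset_right
    (fun z => by simp [ha]) hsum hser
  have hnC : (n : ℂ) ≠ 0 := by exact_mod_cast (by omega : n ≠ 0)
  refine ⟨fun z => E n z * (n : ℂ) ^ ((S - 2 : ℝ) : ℂ), (hEd n hn).mul_const _, ?_, ?_⟩
  · intro K hK hKc
    obtain ⟨C, N, hC⟩ := hEb K hK hKc
    refine ⟨C * (n : ℝ) ^ N * ‖(n : ℂ) ^ ((S - 2 : ℝ) : ℂ)‖, N, fun z hz => ?_⟩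
    rw [norm_mul]
    calc ‖E n z‖ * ‖(n : ℂ) ^ ((S - 2 : ℝ) : ℂ)‖
        ≤ (C * (n : ℝ) ^ N * (1 + ‖fun j => (z j).im‖) ^ N) * ‖(n : ℂ) ^ ((S - 2 : ℝ) : ℂ)‖ := by
          gcongr
          exact hC n hn z hz
      _ = _ := by ring
  · intro z hz hzre
    have hzO : z ∈ tube O := ⟨hzre, hz⟩
    simp only
    rw [hEa n hn z hzO, ha]
    simp only
    rw [if_neg (by omega), mul_assoc, ← cpow_add _ _ hnC, neg_add_cancel, cpow_zero, mul_one]

/-- the point with coordinates `S, ..., S; w` -/
def pt (k : ℕ) (S w : ℝ) : Option (Fin k) → ℝ := fun o => o.elim w (fun _ => S)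

theorem cv_ins_pt {k : ℕ} (S : ℝ) (x : Option (Fin k) → ℝ) (hx : ∀ j, x (some j) = S) :
    cv (S - 2) (ins 2 x) = pt (k + 1) S (x none) := by
  funext o
  cases o with
  | none => rfl
  | some j =>
    refine Fin.cases ?_ (fun i => ?_) j
    · show (2 : ℝ) + (S - 2) = S
      ring
    · exact hx i

theorem ExtA.mono {k M : ℕ} {D D' : Set (Option (Fin k) → ℝ)} (h : ExtA k M D) (hD : D' ⊆ D) :
    ExtA k M D' := by
  obtain ⟨H, h1, h2, h3⟩ := h
  exact ⟨H, h1.mono fun z hz => hD hz, fun K hK hKc => h2 K (hK.trans hD) hKc,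
    fun z hz => h3 z (hD hz)⟩

theorem ExtA.iterate {S : ℝ} (hS : 1 < S) {n : ℕ} (hn : 1 ≤ n) (k : ℕ) :
    ∀ (M : ℕ), 1 ≤ M → ∀ D : Set (Option (Fin (k + 1)) → ℝ), IsOpen D → ExtA (k + 1) M D →
      ExtA 0 (M * n) {x | pt (k + 1) S (x none) ∈ D} := by
  induction k with
  | zero =>
    intro M hM D hDo h
    refine (h.step hM hDo hS hn).mono ?_
    intro x hx
    show cv (S - 2) (ins 2 x) ∈ D
    rw [cv_ins_pt S x (fun j => j.elim0)]
    exact hx
  | succ k ih =>
    intro M hM D hDo h
    have h1 := h.step hM hDo hS (n := 1) le_rfl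
    rw [mul_one] at h1
    have hD'o : IsOpen {x : Option (Fin (k + 1)) → ℝ | cv (S - 2) (ins 2 x) ∈ D} :=
      hDo.preimage ((continuous_cv _).comp (continuous_ins 2))
    refine (ih M hM _ hD'o h1).mono ?_
    intro x hx
    show cv (S - 2) (ins 2 (pt (k + 1) S (x none))) ∈ D
    rw [cv_ins_pt S _ (fun j => rfl)]
    exact hx

/-- removing the polar factors with `J` nonempty -/
theorem extA_of_good {k M : ℕ} {D : Set (Option (Fin k) → ℝ)} (h : Good k M D) :
    ExtA k M (D ∩ {y | ∀ J : Finset (Fin k), J.Nonempty → 0 < y none + ∑ j ∈ J, (y (some j) - 1 / 2) - 1}) ∧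
    IsOpen (D ∩ {y | ∀ J : Finset (Fin k), J.Nonempty →
      0 < y none + ∑ j ∈ J, (y (some j) - 1 / 2) - 1}) := by
  classical
  obtain ⟨hDo, hDc, hDR, hDQ, G, hGd, hGb, hGR, hGQ⟩ := h
  set T : Finset (Finset (Fin k)) := Finset.univ.erase ∅ with hT
  set fr : Finset (Fin k) → (Option (Fin k) → ℝ) → ℝ := fun J y =>
    y none + ∑ j ∈ J, (y (some j) - 1 / 2) - 1 with hfr
  set fc : Finset (Fin k) → (Option (Fin k) → ℂ) → ℂ := fun J z => sig J (toP z) - 1 with hfc
  have hfre : ∀ J z, (fc J z).re = fr J (fun o => (z o).re) := by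
    intro J z
    have e1 : fc J z = z none - (J.card : ℂ) / 2 + ∑ j ∈ J, z (some j) - 1 := rfl
    rw [e1]
    have e2 : ((J.card : ℂ) / 2).re = (J.card : ℝ) / 2 := by
      have : ((J.card : ℂ) / 2) = (((J.card : ℝ) / 2 : ℝ) : ℂ) := by push_cast; ring
      rw [this, ofReal_re]
    simp only [sub_re, add_re, re_sum, one_re, e2, hfr]
    rw [Finset.sum_sub_distrib]
    simp only [Finset.sum_const, nsmul_eq_mul]
    ring
  have hfrc : ∀ J, Continuous (fr J) := by
    intro J
    simp only [hfr]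
    fun_prop
  have hfcd : ∀ J, Differentiable ℂ (fc J) := by
    intro J
    simp only [hfc]
    unfold sig toP
    fun_prop
  set D₂ : Set (Option (Fin k) → ℝ) := D ∩ {y | ∀ J : Finset (Fin k), J.Nonempty → 0 < fr J y} with hD₂
  have hset : {y : Option (Fin k) → ℝ | ∀ J : Finset (Fin k), J.Nonempty → 0 < fr J y} =
      ⋂ J : Finset (Fin k), {y | J.Nonempty → 0 < fr J y} := by
    ext y; simp
  have hD₂o : IsOpen D₂ := by
    refine hDo.inter ?_
    rw [hset]
    refine isOpen_iInter_of_finite fun J => ?_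
    by_cases hJ : J.Nonempty
    · simp only [hJ, true_imp_iff]
      exact isOpen_lt continuous_const (hfrc J)
    · simp only [hJ, false_imp_iff]
      exact isOpen_univ
  have hne : ∀ z ∈ tube D₂, ∀ J ∈ T, fc J z ≠ 0 := by
    intro z hz J hJ h0
    have hJ' : J.Nonempty := Finset.nonempty_iff_ne_empty.mpr (Finset.mem_erase.mp hJ).1
    have h1 := hz.2 J hJ'
    rw [← hfre, h0] at h1
    simp at h1
  refine ⟨⟨fun z => G z * (∏ J ∈ T, fc J z)⁻¹, ?_, ?_, ?_⟩, hD₂o⟩
  · refine (hGd.mono fun z hz => hz.1).mul (DifferentiableOn.fun_inv ?_ ?_)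
    · have : Differentiable ℂ (fun z => ∏ J ∈ T, fc J z) :=
        differentiable_prod T fc fun J _ => hfcd J
      exact this.differentiableOn
    · intro z hz
      exact Finset.prod_ne_zero_iff.mpr fun J hJ => hne z hz J hJ
  · intro K hK hKc
    obtain ⟨C, N, hC⟩ := hGb K (hK.trans Set.inter_subset_left) hKc
    have hpos : ∀ x ∈ K, ∀ J ∈ T, 0 < fr J x := fun x hx J hJ =>
      (hK hx).2 J (Finset.nonempty_iff_ne_empty.mpr (Finset.mem_erase.mp hJ).1)
    obtain ⟨B, hB⟩ : ∃ B, ∀ x ∈ K, (∏ J ∈ T, fr J x)⁻¹ ≤ B := by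
      have hcont : ContinuousOn (fun x => (∏ J ∈ T, fr J x)⁻¹) K := by
        refine ContinuousOn.inv₀ ?_ ?_
        · exact (continuous_finsetProd _ fun J _ => hfrc J).continuousOn
        · intro x hx
          exact Finset.prod_ne_zero_iff.mpr fun J hJ => (hpos x hx J hJ).ne'
      obtain ⟨B, hB⟩ := (hKc.image_of_continuousOn hcont).bddAbove
      exact ⟨B, fun x hx => hB ⟨x, hx, rfl⟩⟩
    refine ⟨|C| * |B|, N, fun z hz => ?_⟩
    have h1 := hC z hz
    have h2 : ‖(∏ J ∈ T, fc J z)⁻¹‖ ≤ |B| := by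
      rw [norm_inv, norm_prod]
      refine le_trans ?_ ((hB _ hz).trans (le_abs_self B))
      apply inv_anti₀ (Finset.prod_pos fun J hJ => hpos _ hz J hJ)
      refine Finset.prod_le_prod (fun J hJ => (hpos _ hz J hJ).le) fun J _ => ?_
      rw [← hfre]
      exact Complex.re_le_norm _
    simp only
    rw [norm_mul]
    have h3 := le_abs_self C
    calc ‖G z‖ * ‖(∏ J ∈ T, fc J z)⁻¹‖ ≤ (|C| * (1 + ‖fun j => (z j).im‖) ^ N) * |B| := by
          gcongr
          refine h1.trans ?_
          gcongr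
      _ = _ := by ring
  · intro z hz hzre
    simp only
    have h1 : G z = F k M (toP z) := hGQ z hzre
    rw [h1]
    unfold F
    rw [← Finset.mul_prod_erase Finset.univ (fun J => sig J (toP z) - 1) (Finset.mem_univ ∅)]
    have h2 : sig (∅ : Finset (Fin k)) (toP z) = z none := by simp [sig, toP]
    rw [h2]
    have h3 : (∏ J ∈ T, fc J z) ≠ 0 := Finset.prod_ne_zero_iff.mpr fun J hJ => hne z hz J hJ
    have h4 : (∏ J ∈ Finset.univ.erase ∅, (sig J (toP z) - 1)) = ∏ J ∈ T, fc J z := rfl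
    rw [h4]
    field_simp

/-- the extraction, from a point of the domain -/
theorem holD_of_good {k M : ℕ} (hk : 1 ≤ k) (hM : 1 ≤ M) {D : Set (Option (Fin k) → ℝ)}
    (h : Good k M D) {x : Option (Fin k) → ℝ} (hx : x ∈ D) {c : ℝ} (hc : x none < c) {m : ℕ}
    (hm : M ∣ m) (hm0 : m ≠ 0) : HolD m c := by
  obtain ⟨n, rfl⟩ := hm
  have hn : 1 ≤ n := Nat.one_le_iff_ne_zero.mpr fun h => hm0 (by rw [h, mul_zero])
  obtain ⟨k', rfl⟩ : ∃ k', k = k' + 1 := ⟨k - 1, by omega⟩
  obtain ⟨hE, hEo⟩ := extA_of_good h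
  set Sx : ℝ := ∑ j, |x (some j)| with hSx
  have hS0 : 0 ≤ Sx := Finset.sum_nonneg fun j _ => abs_nonneg _
  set S : ℝ := 4 + Sx + |c| with hS
  have hS1 : 1 < S := by have := abs_nonneg c; linarith
  obtain ⟨H, hHd, _, hHe⟩ := ExtA.iterate hS1 hn k' M hM _ hEo hE
  -- the point `(S, ..., S; w)` is in the domain for `w > c`
  have hmem : ∀ w : ℝ, c < w → pt (k' + 1) S w ∈ D ∩ {y | ∀ J : Finset (Fin (k' + 1)), J.Nonempty →
      0 < y none + ∑ j ∈ J, (y (some j) - 1 / 2) - 1} := by
    intro w hw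
    constructor
    · set t : ℝ := min (1 / 2) ((c - x none) / (2 * (1 + |x none|))) with ht
      have hxn := abs_nonneg (x none)
      have ht0 : 0 < t := lt_min (by norm_num) (div_pos (by linarith) (by positivity))
      have ht1 : t ≤ 1 / 2 := min_le_left _ _
      have ht2 : t ≤ (c - x none) / (2 * (1 + |x none|)) := min_le_right _ _
      have ht3 : t * (2 * (1 + |x none|)) ≤ c - x none := (le_div_iff₀ (by positivity)).mp ht2
      set q : Option (Fin (k' + 1)) → ℝ := fun o => (pt (k' + 1) S w o - (1 - t) * x o) / t with hq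
      have hqQ : q ∈ Q0 (k' + 1) := by
        intro o
        rw [hq]
        simp only
        rw [lt_div_iff₀ ht0]
        cases o with
        | none =>
          show 1 * t < w - (1 - t) * x none
          have h1 := neg_abs_le (x none)
          nlinarith
        | some j =>
          show 1 * t < S - (1 - t) * x (some j)
          have h1 : |x (some j)| ≤ Sx :=
            Finset.single_le_sum (f := fun j => |x (some j)|) (fun j _ => abs_nonneg _)
              (Finset.mem_univ j)
          have h2 := le_abs_self (x (some j))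
          have h3 := abs_nonneg (x (some j))
          have h4 := abs_nonneg c
          have h5 : (1 - t) * x (some j) ≤ Sx := by
            calc (1 - t) * x (some j) ≤ (1 - t) * |x (some j)| := by
                  apply mul_le_mul_of_nonneg_left h2 (by linarith)
              _ ≤ 1 * |x (some j)| := by
                  apply mul_le_mul_of_nonneg_right (by linarith) h3
              _ ≤ Sx := by linarith
          linarith
      have hcomb : pt (k' + 1) S w = (1 - t) • x + t • q := by
        funext o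
        simp only [Pi.add_apply, Pi.smul_apply, smul_eq_mul, hq]
        field_simp
        ring
      rw [hcomb]
      exact h.convex hx (h.subQ hqQ) (by linarith) ht0.le (by ring)
    · intro J hJ
      show 0 < w + ∑ j ∈ J, (S - 1 / 2) - 1
      rw [Finset.sum_const, nsmul_eq_mul]
      have h1 : (1 : ℝ) ≤ J.card := by exact_mod_cast hJ.card_pos
      have h2 := neg_abs_le c
      have h3 : (1 : ℝ) * (S - 1 / 2) ≤ J.card * (S - 1 / 2) := by
        apply mul_le_mul_of_nonneg_right h1
        linarith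
      linarith
  refine ⟨fun w => H (fun _ => w), ?_, ?_⟩
  · refine hHd.comp (differentiable_pi.mpr fun _ => differentiable_id).differentiableOn ?_
    intro w hw
    exact hmem w.re hw
  · intro w hw
    have hwD : (fun _ => w : Option (Fin 0) → ℂ) ∈ tube {x | pt (k' + 1) S (x none) ∈
        D ∩ {y | ∀ J : Finset (Fin (k' + 1)), J.Nonempty →
        0 < y none + ∑ j ∈ J, (y (some j) - 1 / 2) - 1}} := by
      show pt (k' + 1) S w.re ∈ D ∩ {y | ∀ J : Finset (Fin (k' + 1)), J.Nonempty →
        0 < y none + ∑ j ∈ J, (y (some j) - 1 / 2) - 1}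
      -- also for `Re w > 1`
      rcases lt_or_ge c w.re with h1 | h1
      · exact hmem _ h1
      · constructor
        · apply h.subQ
          intro o
          cases o with
          | none => exact hw
          | some j => exact hS1
        · intro J hJ
          show 0 < w.re + ∑ j ∈ J, (S - 1 / 2) - 1
          rw [Finset.sum_const, nsmul_eq_mul]
          have h3 : (0 : ℝ) ≤ J.card * (S - 1 / 2) :=
            mul_nonneg (Nat.cast_nonneg _) (by linarith)
          linarith
    have := hHe _ hwD (fun _ => hw)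
    simp only at this ⊢
    rw [this]
    have e1 : (toP (fun _ => w : Option (Fin 0) → ℂ)).1 = fun i => i.elim0 := by
      funext i; exact i.elim0
    have e2 : (toP (fun _ => w : Option (Fin 0) → ℂ)).2 = w := rfl
    rw [e1, e2]
    simp

end Pool.Agent.MDSL
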