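import Pool.Agent.MDSL.Defs

/-!
# Reflections
-/

set_option autoImplicit false

open Complex Filter Topology
open Pool.Agent.MDS Pool.Agent.TubeDS

namespace Pool.Agent.MDSL

/-- extension across an affine reflection for which there is a functional equation -/
theorem good_reflect {k M : ℕ} {D : Set (Option (Fin k) → ℝ)} (h : Good k M D)
    (φ : (Option (Fin k) → ℝ) → (Option (Fin k) → ℝ))
    (Φ : (Option (Fin k) → ℂ) → (Option (Fin k) → ℂ)) (hΦd : Differentiable ℂ Φ)
    (hre : ∀ z, (fun o => (Φ z o).re) = φ (fun o => (z o).re))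
    (him : ∀ z, ‖fun o => (Φ z o).im‖ ≤ 3 * ‖fun o => (z o).im‖) (hφc : Continuous φ)
    (hφa : ∀ (x y : Option (Fin k) → ℝ) {a b : ℝ}, a + b = 1 → φ (a • x + b • y) = a • φ x + b • φ y)
    {B : Set (Option (Fin k) → ℝ)} (hBo : IsOpen B) (hBc : Convex ℝ B)
    {x : Option (Fin k) → ℝ} (hφφ : φ (φ x) = x) (hxB : φ x ∈ B) (hx : x ∈ D)
    (Y : (Option (Fin k) → ℂ) → ℂ) (hYd : DifferentiableOn ℂ Y (tube B))
    (hYb : ∀ u ∈ B, ∃ U ∈ 𝓝 u, ∃ (C : ℝ) (N : ℕ), 0 ≤ C ∧ ∀ z : Option (Fin k) → ℂ,
      (fun o => (z o).re) ∈ U → ‖Y z‖ ≤ C * (1 + ‖fun o => (z o).im‖) ^ N)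
    (hFE : ∀ z ∈ tube B, Fc k M z = Y z * Fc k M (Φ z))
    (hne : (R0 k ∩ φ ⁻¹' (R0 k) ∩ B).Nonempty) : ∃ D', Good k M D' ∧ φ x ∈ D' := by
  obtain ⟨hDo, hDc, hDR, hDQ, G, hGd, hGb, hGR, hGQ⟩ := h
  have hpre : Convex ℝ (φ ⁻¹' D) := by
    intro u hu v hv a b ha hb hab
    show φ (a • u + b • v) ∈ D
    rw [hφa u v hab]
    exact hDc hu hv ha hb hab
  set D'' : Set (Option (Fin k) → ℝ) := φ ⁻¹' D ∩ B with hD''
  have hD''o : IsOpen D'' := (hDo.preimage hφc).inter hBo
  have hD''c : Convex ℝ D'' := hpre.inter hBc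
  have hyD : φ x ∈ D'' := ⟨by show φ (φ x) ∈ D; rw [hφφ]; exact hx, hxB⟩
  set G'' : (Option (Fin k) → ℂ) → ℂ := fun z => Y z * G (Φ z) with hG''
  have hG''d : DifferentiableOn ℂ G'' (tube D'') := by
    refine (hYd.mono fun z hz => hz.2).mul (hGd.comp hΦd.differentiableOn ?_)
    intro z hz
    show (fun o => (Φ z o).re) ∈ D
    rw [hre]; exact hz.1
  have hG''b : PolyBdd D'' G'' := by
    apply polyBdd_of_local
    intro u hu
    obtain ⟨U, hU, C, N, hC, hb⟩ := polyBdd_local hDo hGb (show φ u ∈ D from hu.1)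
    obtain ⟨U1, hU1, C1, N1, hC1, hb1⟩ := hYb u hu.2
    refine ⟨φ ⁻¹' U ∩ U1, inter_mem (hφc.continuousAt.preimage_mem_nhds hU) hU1,
      C1 * (C * 3 ^ N), N1 + N, by positivity, ?_⟩
    rintro z ⟨hz1, hz2⟩
    have e1 := hb1 z hz2
    have e3 := hb (Φ z) (by rw [hre]; exact hz1)
    have e4 := him z
    set T := ‖fun o => (z o).im‖ with hT
    have hT0 : 0 ≤ T := norm_nonneg _
    have e7 : ‖G (Φ z)‖ ≤ C * 3 ^ N * (1 + T) ^ N := by
      refine e3.trans ?_
      rw [mul_assoc, ← mul_pow]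
      gcongr
      linarith
    simp only [hG'']
    rw [norm_mul]
    calc ‖Y z‖ * ‖G (Φ z)‖ ≤ (C1 * (1 + T) ^ N1) * (C * 3 ^ N * (1 + T) ^ N) := by gcongr
      _ = _ := by ring
  set U : Set (Option (Fin k) → ℝ) := R0 k ∩ φ ⁻¹' (R0 k) ∩ B with hU
  have hUo : IsOpen U := ((isOpen_R0 k).inter ((isOpen_R0 k).preimage hφc)).inter hBo
  have hUD : U ⊆ D ∩ D'' := fun u hu => ⟨hDR hu.1.1, hDR hu.1.2, hu.2⟩
  have heq : Set.EqOn G G'' (tube U) := by
    intro z hz
    have h3 : Φ z ∈ tube (R0 k) := by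
      show (fun o => (Φ z o).re) ∈ R0 k
      rw [hre]; exact hz.1.2
    rw [hGR (show z ∈ tube (R0 k) from hz.1.1)]
    simp only [hG'']
    rw [hGR h3, hFE z hz.2]
  obtain ⟨H, hHd, hHb, hHG, _⟩ := glue hDo hDc hD''o hD''c hGd hGb hG''d hG''b hUo hne hUD heq
  refine ⟨convexHull ℝ (D ∪ D''), ⟨(hDo.union hD''o).convexHull, convex_convexHull ℝ _, ?_, ?_, H, hHd, hHb,
    ?_, ?_⟩, subset_convexHull ℝ _ (Or.inr hyD)⟩
  · exact (hDR.trans Set.subset_union_left).trans (subset_convexHull ℝ _)
  · exact (hDQ.trans Set.subset_union_left).trans (subset_convexHull ℝ _)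
  · intro z hz
    rw [hHG (show z ∈ tube D from hDR hz), hGR hz]
  · intro z hz
    rw [hHG (show z ∈ tube D from hDQ hz), hGQ z hz]

theorem convex_abs_lt {k : ℕ} (o : Option (Fin k)) (c δ : ℝ) :
    Convex ℝ {u : Option (Fin k) → ℝ | |u o - c| < δ} := by
  intro u hu v hv a b ha hb hab
  have e : (a • u + b • v) o - c = a * (u o - c) + b * (v o - c) := by
    simp only [Pi.add_apply, Pi.smul_apply, smul_eq_mul]
    linear_combination c * hab
  show |(a • u + b • v) o - c| < δ
  rw [e]
  have e1 := abs_add_le (a * (u o - c)) (b * (v o - c))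
  rw [abs_mul, abs_mul, abs_of_nonneg ha, abs_of_nonneg hb] at e1
  have hu' : |u o - c| < δ := hu
  have hv' : |v o - c| < δ := hv
  rcases eq_or_lt_of_le ha with h2 | h2
  · have hb1 : b = 1 := by linarith
    rw [← h2, hb1] at e1 ⊢
    linarith
  · have e2 := mul_lt_mul_of_pos_left hu' h2
    have e3 := mul_le_mul_of_nonneg_left hv'.le hb
    have e4 : a * δ + b * δ = δ := by rw [← add_mul, hab, one_mul]
    linarith

theorem isOpen_abs_lt {k : ℕ} (o : Option (Fin k)) (c δ : ℝ) :
    IsOpen {u : Option (Fin k) → ℝ | |u o - c| < δ} :=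
  isOpen_lt (by fun_prop : Continuous fun u : Option (Fin k) → ℝ => |u o - c|) continuous_const

/-- the pair flip -/
theorem good_flp {k M : ℕ} {D : Set (Option (Fin k) → ℝ)} (h : Good k M D) {i j : Fin k} (hij : i ≠ j)
    {x : Option (Fin k) → ℝ} (hx : x ∈ D) (hi : ∀ n : ℕ, x (some i) ≠ -(2 * n))
    (hj : ∀ n : ℕ, x (some j) ≠ -(2 * n)) : ∃ D', Good k M D' ∧ flp i j x ∈ D' := by
  set y := flp i j x with hy
  have hyi : y (some i) = 1 - x (some i) := by simp [hy]
  have hyj : y (some j) = 1 - x (some j) := by simp [hy]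
  obtain ⟨δi, hδi, hi'⟩ := odd_nhds (y := y (some i)) (fun n hn => hi n (by rw [hyi] at hn; linarith))
  obtain ⟨δj, hδj, hj'⟩ := odd_nhds (y := y (some j)) (fun n hn => hj n (by rw [hyj] at hn; linarith))
  set B : Set (Option (Fin k) → ℝ) := {u | |u (some i) - y (some i)| < δi} ∩
    {u | |u (some j) - y (some j)| < δj} with hB
  have hne : ∀ z ∈ tube B, (∀ n : ℕ, z (some i) ≠ 2 * n + 1) ∧ (∀ n : ℕ, z (some j) ≠ 2 * n + 1) := by
    intro z hz
    refine ⟨fun n hn => hi' _ hz.1 n ?_, fun n hn => hj' _ hz.2 n ?_⟩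
    · simp [hn]
    · simp [hn]
  refine good_reflect h (flp i j) (flp i j) (differentiable_flp i j) (fun z => re_flp i j z)
    (fun z => norm_im_flp i j z) (continuous_flp i j) (fun x y _ _ hab => flp_affine i j x y hab)
    (B := B) ((isOpen_abs_lt _ _ _).inter (isOpen_abs_lt _ _ _))
    ((convex_abs_lt _ _ _).inter (convex_abs_lt _ _ _)) (flp_flp i j x)
    ⟨by show |y (some i) - y (some i)| < δi; simpa using hδi,
      by show |y (some j) - y (some j)| < δj; simpa using hδj⟩ hx
    (fun z => X (z (some i)) * X (z (some j))) ?_ ?_ ?_ ?_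
  · intro z hz
    obtain ⟨h1, h2⟩ := hne z hz
    apply DifferentiableAt.differentiableWithinAt
    apply DifferentiableAt.mul
    · exact DifferentiableAt.comp (g := X) (f := fun z : Option (Fin k) → ℂ => z (some i)) z
        (differentiableAt_X h1) (by fun_prop)
    · exact DifferentiableAt.comp (g := X) (f := fun z : Option (Fin k) → ℂ => z (some j)) z
        (differentiableAt_X h2) (by fun_prop)
  · intro u hu
    obtain ⟨U1, hU1, C1, N1, hC1, hb1⟩ := X_local_bound (u (some i)) (hi' _ hu.1)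
    obtain ⟨U2, hU2, C2, N2, hC2, hb2⟩ := X_local_bound (u (some j)) (hj' _ hu.2)
    refine ⟨(fun v => v (some i)) ⁻¹' U1 ∩ (fun v => v (some j)) ⁻¹' U2, ?_,
      C1 * C2, N1 + N2, by positivity, ?_⟩
    · exact inter_mem ((continuous_apply (some i)).continuousAt.preimage_mem_nhds hU1)
        ((continuous_apply (some j)).continuousAt.preimage_mem_nhds hU2)
    · rintro z ⟨hz2, hz3⟩
      have e1 := hb1 (z (some i)) hz2
      have e2 := hb2 (z (some j)) hz3
      have e5 : |(z (some i)).im| ≤ ‖fun o => (z o).im‖ := norm_le_pi_norm (fun o => (z o).im) (some i)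
      have e6 : |(z (some j)).im| ≤ ‖fun o => (z o).im‖ := norm_le_pi_norm (fun o => (z o).im) (some j)
      set T := ‖fun o => (z o).im‖ with hT
      have hT0 : 0 ≤ T := norm_nonneg _
      rw [norm_mul]
      calc ‖X (z (some i))‖ * ‖X (z (some j))‖
          ≤ (C1 * (1 + T) ^ N1) * (C2 * (1 + T) ^ N2) := by
            gcongr
            · exact e1.trans (by gcongr)
            · exact e2.trans (by gcongr)
        _ = _ := by ring
  · intro z hz
    obtain ⟨h1, h2⟩ := hne z hz
    rw [Fc_flp hij h1 h2]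
  · obtain ⟨T, hT⟩ := exists_far i j y
    refine ⟨_, hT T le_rfl, ?_⟩
    exact ⟨by show |y (some i) - y (some i)| < δi; simpa using hδi,
      by show |y (some j) - y (some j)| < δj; simpa using hδj⟩

/-! ### the reflection of one variable, when the root numbers are `1` -/

/-- the change of variables in one functional equation -/
noncomputable def sfl {k : ℕ} {R : Type*} [Field R] (i : Fin k) (z : Option (Fin k) → R) :
    Option (Fin k) → R :=
  fun o => o.elim (z none + z (some i) - 1 / 2) (fun l => if l = i then 1 - z (some l) else z (some l))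

@[simp] theorem sfl_none {k : ℕ} {R : Type*} [Field R] (i : Fin k) (z : Option (Fin k) → R) :
    sfl i z none = z none + z (some i) - 1 / 2 := rfl

@[simp] theorem sfl_some {k : ℕ} {R : Type*} [Field R] (i l : Fin k) (z : Option (Fin k) → R) :
    sfl i z (some l) = if l = i then 1 - z (some l) else z (some l) := rfl

theorem sfl_sfl {k : ℕ} (i : Fin k) (z : Option (Fin k) → ℝ) : sfl i (sfl i z) = z := by
  funext o
  cases o with
  | none => simp only [sfl_none, sfl_some, if_true]; ring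
  | some l =>
    simp only [sfl_some]
    split_ifs <;> ring

theorem re_sfl {k : ℕ} (i : Fin k) (z : Option (Fin k) → ℂ) :
    (fun o => (sfl i z o).re) = sfl i (fun o => (z o).re) := by
  funext o
  cases o with
  | none => simp
  | some l => simp only [sfl_some]; split_ifs <;> simp

theorem norm_im_sfl {k : ℕ} (i : Fin k) (z : Option (Fin k) → ℂ) :
    ‖fun o => (sfl i z o).im‖ ≤ 3 * ‖fun o => (z o).im‖ := by
  have h0 := norm_nonneg (fun o => (z o).im)
  have h1 : ∀ o, |(z o).im| ≤ ‖fun o => (z o).im‖ := fun o => norm_le_pi_norm (fun o => (z o).im) o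
  rw [pi_norm_le_iff_of_nonneg (by positivity)]
  intro o
  rw [Real.norm_eq_abs]
  cases o with
  | none =>
    have e : (sfl i z none).im = (z none).im + (z (some i)).im := by simp
    rw [e]
    have h2 := abs_add_le (z none).im (z (some i)).im
    have h4 := h1 none
    have h5 := h1 (some i)
    linarith
  | some l =>
    simp only [sfl_some]
    have h4 := h1 (some l)
    split_ifs
    · simp only [Complex.sub_im, Complex.one_im, zero_sub, abs_neg]
      linarith
    · linarith

theorem continuous_sfl {k : ℕ} (i : Fin k) : Continuous (sfl i : (Option (Fin k) → ℝ) → _) := by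
  refine continuous_pi fun o => ?_
  cases o with
  | none => simp only [sfl_none]; fun_prop
  | some l => simp only [sfl_some]; split_ifs <;> fun_prop

theorem differentiable_sfl {k : ℕ} (i : Fin k) :
    Differentiable ℂ (sfl i : (Option (Fin k) → ℂ) → _) := by
  rw [differentiable_pi]
  intro o
  cases o with
  | none => simp only [sfl_none]; fun_prop
  | some l => simp only [sfl_some]; split_ifs <;> fun_prop

theorem sfl_affine {k : ℕ} (i : Fin k) (x y : Option (Fin k) → ℝ) {a b : ℝ} (hab : a + b = 1) :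
    sfl i (a • x + b • y) = a • sfl i x + b • sfl i y := by
  funext o
  cases o with
  | none =>
    simp only [sfl_none, Pi.add_apply, Pi.smul_apply, smul_eq_mul]
    linear_combination (1 / 2 : ℝ) * hab
  | some l =>
    simp only [sfl_some, Pi.add_apply, Pi.smul_apply, smul_eq_mul]
    split_ifs
    · linear_combination (-1 : ℝ) * hab
    · rfl

theorem sig_sfl {k : ℕ} (i : Fin k) (J : Finset (Fin k)) (z : Option (Fin k) → ℂ) :
    sig J (toP (sfl i z)) = sig (symmDiff J {i}) (toP z) := by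
  rw [sig_eq, sig_eq]
  have h1 : ∀ l : Fin k, (if l ∈ symmDiff J {i} then z (some l) - 1 / 2 else 0) =
      (if l ∈ J then sfl i z (some l) - 1 / 2 else 0) + (if l = i then z (some i) - 1 / 2 else 0) := by
    intro l
    simp only [Finset.mem_symmDiff, Finset.mem_singleton, sfl_some]
    by_cases hl : l = i
    · subst hl
      by_cases hJ : l ∈ J
      · simp [hJ]; ring
      · simp [hJ]
    · by_cases hJ : l ∈ J
      · simp [hJ, hl]
      · simp [hJ, hl]
  rw [Finset.sum_congr rfl fun l _ => h1 l, Finset.sum_add_distrib, Finset.sum_ite_eq' Finset.univ i]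
  simp only [Finset.mem_univ, if_true, sfl_none]
  ring

theorem pol_sfl {k : ℕ} (i : Fin k) (z : Option (Fin k) → ℂ) : pol (sfl i z) = pol z := by
  unfold pol
  simp_rw [sig_sfl]
  exact Equiv.prod_comp (Function.Involutive.toPerm (fun J : Finset (Fin k) => symmDiff J {i})
    (fun J => by simp [symmDiff_symmDiff_cancel_right])) (fun J => sig J (toP z) - 1)

theorem tm_sfl (hR : RootOne) {k M d : ℕ} (hd : IsFundDisc d) (h1 : 1 < d) {i : Fin k}
    {z : Option (Fin k) → ℂ} (hi : ∀ n : ℕ, z (some i) ≠ 2 * n + 1) :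
    tm k M d z = X (z (some i)) * tm k M d (sfl i z) := by
  obtain ⟨_, _, _, hf, _⟩ := Lc_spec hd h1
  rw [hR d hd h1] at hf
  have hd0 : (d : ℂ) ≠ 0 := by exact_mod_cast (by omega : d ≠ 0)
  unfold tm
  rw [← Finset.mul_prod_erase Finset.univ (fun l => Lc d (z (some l))) (Finset.mem_univ i),
    ← Finset.mul_prod_erase Finset.univ (fun l => Lc d (sfl i z (some l))) (Finset.mem_univ i)]
  have h2 : ∏ l ∈ Finset.univ.erase i, Lc d (sfl i z (some l)) =
      ∏ l ∈ Finset.univ.erase i, Lc d (z (some l)) := by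
    refine Finset.prod_congr rfl fun l hl => ?_
    rw [Finset.mem_erase] at hl
    rw [sfl_some, if_neg hl.1]
  rw [h2, hf _ hi]
  simp only [sfl_none, sfl_some, if_true]
  have h3 : (d : ℂ) ^ (-(z none + z (some i) - 1 / 2)) =
      (d : ℂ) ^ (-(z none)) * (d : ℂ) ^ (1 / 2 - z (some i)) := by
    rw [← Complex.cpow_add _ _ hd0]
    congr 1
    ring
  rw [h3]
  ring

theorem Fc_sfl (hR : RootOne) {k M : ℕ} {i : Fin k} {z : Option (Fin k) → ℂ}
    (hi : ∀ n : ℕ, z (some i) ≠ 2 * n + 1) :
    Fc k M z = X (z (some i)) * Fc k M (sfl i z) := by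
  unfold Fc
  rw [pol_sfl, ← mul_assoc]
  congr 1
  unfold E
  rw [← tsum_mul_left]
  exact tsum_congr fun d => tm_sfl hR d.2.1 d.2.2 hi

theorem exists_far_sfl {k : ℕ} (i : Fin k) (x : Option (Fin k) → ℝ) : ∃ T : ℝ,
    (fun o => o.elim T (fun l => x (some l)) : Option (Fin k) → ℝ) ∈ R0 k ∧
      sfl i (fun o => o.elim T (fun l => x (some l)) : Option (Fin k) → ℝ) ∈ R0 k := by
  obtain ⟨T, hT1, hT2⟩ : ∃ T : ℝ, 1 + ∑ l, (3 / 2 + |x (some l)|) < T ∧
      1 + ∑ l, (3 / 2 + |sfl i x (some l)|) < T + x (some i) - 1 / 2 := by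
    refine ⟨max (1 + ∑ l, (3 / 2 + |x (some l)|) + 1)
      (1 + ∑ l, (3 / 2 + |sfl i x (some l)|) - x (some i) + 1 / 2 + 1), ?_, ?_⟩
    · have := le_max_left (1 + ∑ l, (3 / 2 + |x (some l)|) + 1)
        (1 + ∑ l, (3 / 2 + |sfl i x (some l)|) - x (some i) + 1 / 2 + 1)
      linarith
    · have := le_max_right (1 + ∑ l, (3 / 2 + |x (some l)|) + 1)
        (1 + ∑ l, (3 / 2 + |sfl i x (some l)|) - x (some i) + 1 / 2 + 1)
      linarith
  exact ⟨T, hT1, hT2⟩

/-- the flip of one variable -/
theorem good_sfl (hR : RootOne) {k M : ℕ} {D : Set (Option (Fin k) → ℝ)} (h : Good k M D) {i : Fin k}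
    {x : Option (Fin k) → ℝ} (hx : x ∈ D) (hi : ∀ n : ℕ, x (some i) ≠ -(2 * n)) :
    ∃ D', Good k M D' ∧ sfl i x ∈ D' := by
  set y := sfl i x with hy
  have hyi : y (some i) = 1 - x (some i) := by simp [hy]
  obtain ⟨δi, hδi, hi'⟩ := odd_nhds (y := y (some i)) (fun n hn => hi n (by rw [hyi] at hn; linarith))
  set B : Set (Option (Fin k) → ℝ) := {u | |u (some i) - y (some i)| < δi} with hB
  have hne : ∀ z ∈ tube B, (∀ n : ℕ, z (some i) ≠ 2 * n + 1) := by
    intro z hz n hn
    refine hi' _ hz n ?_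
    simp [hn]
  refine good_reflect h (sfl i) (sfl i) (differentiable_sfl i) (fun z => re_sfl i z)
    (fun z => norm_im_sfl i z) (continuous_sfl i) (fun x y _ _ hab => sfl_affine i x y hab)
    (B := B) (isOpen_abs_lt _ _ _) (convex_abs_lt _ _ _) (sfl_sfl i x)
    (by show |y (some i) - y (some i)| < δi; simpa using hδi) hx
    (fun z => X (z (some i))) ?_ ?_ ?_ ?_
  · intro z hz
    apply DifferentiableAt.differentiableWithinAt
    exact DifferentiableAt.comp (g := X) (f := fun z : Option (Fin k) → ℂ => z (some i)) z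
        (differentiableAt_X (hne z hz)) (by fun_prop)
  · intro u hu
    obtain ⟨U1, hU1, C1, N1, hC1, hb1⟩ := X_local_bound (u (some i)) (hi' _ hu)
    refine ⟨(fun v => v (some i)) ⁻¹' U1,
      (continuous_apply (some i)).continuousAt.preimage_mem_nhds hU1, C1, N1, hC1, ?_⟩
    intro z hz2
    have e1 := hb1 (z (some i)) hz2
    have e5 : |(z (some i)).im| ≤ ‖fun o => (z o).im‖ := norm_le_pi_norm (fun o => (z o).im) (some i)
    exact e1.trans (by gcongr)
  · intro z hz
    rw [Fc_sfl hR (hne z hz)]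
  · obtain ⟨T, hT⟩ := exists_far_sfl i y
    refine ⟨_, hT, ?_⟩
    show |y (some i) - y (some i)| < δi
    simpa using hδi

/-! ### all of `J` -/

theorem flips_insert {k : ℕ} {i : Fin k} {J : Finset (Fin k)} (hi : i ∉ J)
    (x : Option (Fin k) → ℝ) : flips (insert i J) x = sfl i (flips J x) := by
  funext o
  cases o with
  | none =>
    simp only [flips, sfl_none, Option.elim, Finset.sum_insert hi, if_neg hi]
    ring
  | some l =>
    simp only [flips, sfl_some, Option.elim, Finset.mem_insert]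
    by_cases hl : l = i
    · subst hl; simp [hi]
    · simp [hl]

theorem flp_eq_sfl {k : ℕ} {i j : Fin k} (hij : i ≠ j) (x : Option (Fin k) → ℝ) :
    flp i j x = sfl i (sfl j x) := by
  funext o
  cases o with
  | none =>
    simp only [flp_none, sfl_none, sfl_some, if_neg hij]
    ring
  | some l =>
    simp only [flp_some, sfl_some]
    by_cases h1 : l = i
    · subst h1; simp [hij]
    · by_cases h2 : l = j
      · subst h2; simp [h1]
      · simp [h1, h2]

theorem good_flips {k M : ℕ} {D : Set (Option (Fin k) → ℝ)} (h : Good k M D)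
    {x : Option (Fin k) → ℝ} (hx : x ∈ D) (hgen : ∀ l (n : ℕ), x (some l) ≠ -(2 * n))
    (J : Finset (Fin k)) (hJ : Even J.card ∨ RootOne) : ∃ D', Good k M D' ∧ flips J x ∈ D' := by
  rcases hJ with hJ | hR
  · obtain ⟨m, hm⟩ := hJ
    induction m generalizing J with
    | zero =>
      have : J = ∅ := Finset.card_eq_zero.mp (by omega)
      subst this
      refine ⟨D, h, ?_⟩
      have : flips ∅ x = x := by
        funext o
        cases o <;> simp [flips]
      rw [this]
      exact hx
    | succ m ih =>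
      obtain ⟨i, J1, hi, hJ1, hc1⟩ := Finset.card_eq_succ.mp (show J.card = (2 * m + 1) + 1 by omega)
      obtain ⟨j, J2, hj, hJ2, hc2⟩ := Finset.card_eq_succ.mp (show J1.card = 2 * m + 1 by omega)
      obtain ⟨D', hD', hx'⟩ := ih J2 (by omega)
      have hij : i ≠ j := by
        rintro rfl
        exact hi (hJ2 ▸ Finset.mem_insert_self _ _)
      have hiJ2 : i ∉ J2 := fun h' => hi (hJ2 ▸ Finset.mem_insert_of_mem h')
      obtain ⟨D'', hD'', hx''⟩ := good_flp hD' hij hx' (fun n => by
        have : flips J2 x (some i) = x (some i) := by simp [flips, hiJ2]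
        rw [this]; exact hgen i n) (fun n => by
        have : flips J2 x (some j) = x (some j) := by simp [flips, hj]
        rw [this]; exact hgen j n)
      refine ⟨D'', hD'', ?_⟩
      rw [← hJ1, flips_insert hi, ← hJ2, flips_insert hj, ← flp_eq_sfl hij]
      exact hx''
  · induction J using Finset.induction_on with
    | empty =>
      refine ⟨D, h, ?_⟩
      have : flips ∅ x = x := by
        funext o
        cases o <;> simp [flips]
      rw [this]
      exact hx
    | insert i J hi ih =>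
      obtain ⟨D', hD', hx'⟩ := ih
      obtain ⟨D'', hD'', hx''⟩ := good_sfl hR hD' hx' (i := i) (fun n => by
        have : flips J x (some i) = x (some i) := by simp [flips, hi]
        rw [this]; exact hgen i n)
      exact ⟨D'', hD'', by rw [flips_insert hi]; exact hx''⟩

theorem exists_generic_near {k : ℕ} {D : Set (Option (Fin k) → ℝ)} (hD : IsOpen D)
    {x : Option (Fin k) → ℝ} (hx : x ∈ D) {ε : ℝ} (hε : 0 < ε) :
    ∃ y ∈ D, (∀ o, |y o - x o| < ε) ∧ ∀ l (n : ℕ), y (some l) ≠ -(2 * n) := by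
  obtain ⟨r, hr, hball⟩ := Metric.isOpen_iff.mp hD x hx
  set S : Set ℝ := ⋃ l : Fin k, ⋃ n : ℕ, {t : ℝ | x (some l) - t = -(2 * n)} with hS
  have hSc : S.Countable := by
    refine Set.countable_iUnion fun l => Set.countable_iUnion fun n => ?_
    refine (Set.countable_singleton (x (some l) + 2 * n)).mono ?_
    intro t ht
    simp only [Set.mem_ofPred_eq] at ht
    simp only [Set.mem_singleton_iff]
    linarith
  obtain ⟨t, ht1, ht2⟩ : ∃ t ∈ Set.Ioo (0 : ℝ) (min r ε), t ∉ S := by
    by_contra hcon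
    push Not at hcon
    have h1 : (Set.Ioo (0 : ℝ) (min r ε)).Countable := hSc.mono hcon
    exact Cardinal.Real.Ioo_countable_iff.mp h1 |>.not_gt (lt_min hr hε)
  refine ⟨fun o => x o - t, ?_, ?_, ?_⟩
  · apply hball
    rw [mem_ball_iff_norm]
    refine lt_of_le_of_lt ((pi_norm_le_iff_of_nonneg ht1.1.le).mpr fun o => ?_)
      (lt_of_lt_of_le ht1.2 (min_le_left _ _))
    simp [abs_of_pos ht1.1]
  · intro o
    have : x o - t - x o = -t := by ring
    rw [this, abs_neg, abs_of_pos ht1.1]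
    exact lt_of_lt_of_le ht1.2 (min_le_right _ _)
  · intro l n hn
    apply ht2
    rw [hS]
    exact Set.mem_iUnion.mpr ⟨l, Set.mem_iUnion.mpr ⟨n, hn⟩⟩

end Pool.Agent.MDSL
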