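import Pool.Agent.MDSL.Defs

/-!
# The quadratic Gauss sum `∑ exp (2 π i x ^ 2 / m)` for odd `m` (Gauss' proof)
-/

set_option autoImplicit false

open Complex

namespace Pool.Agent.MDSL

namespace QG

/-- Gauss' binomial coefficients (value at `q`) -/
noncomputable def gb (q : ℂ) : ℕ → ℕ → ℂ
  | 0, 0 => 1
  | 0, _ + 1 => 0
  | _ + 1, 0 => 1
  | N + 1, k + 1 => gb q N k + q ^ (k + 1) * gb q N (k + 1)

theorem gb_zero_right (q : ℂ) (N : ℕ) : gb q N 0 = 1 := by
  cases N <;> rfl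

theorem gb_succ (q : ℂ) (N k : ℕ) :
    gb q (N + 1) (k + 1) = gb q N k + q ^ (k + 1) * gb q N (k + 1) := rfl

theorem gb_of_lt (q : ℂ) : ∀ {N k : ℕ}, N < k → gb q N k = 0
  | 0, 0, h => absurd h (lt_irrefl _)
  | 0, _ + 1, _ => rfl
  | _ + 1, 0, h => absurd h (Nat.not_lt_zero _)
  | N + 1, k + 1, h => by
    rw [gb_succ, gb_of_lt q (by omega : N < k), gb_of_lt q (by omega : N < k + 1)]
    ring

theorem gb_self (q : ℂ) : ∀ N : ℕ, gb q N N = 1
  | 0 => rfl
  | N + 1 => by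
    rw [gb_succ, gb_self q N, gb_of_lt q (by omega : N < N + 1)]
    ring

/-- the product formula -/
theorem gb_mul (q : ℂ) : ∀ (N k : ℕ), k ≤ N →
    gb q N k * ∏ j ∈ Finset.range k, (1 - q ^ (j + 1)) =
      ∏ j ∈ Finset.range k, (1 - q ^ (N - j))
  | _, 0, _ => by simp [gb_zero_right]
  | 0, _ + 1, h => by omega
  | N + 1, k + 1, h => by
    rw [gb_succ]
    rcases Nat.lt_or_ge N (k + 1) with h1 | h1
    · have hk : k = N := by omega
      subst hk
      rw [gb_self, gb_of_lt q (by omega : k < k + 1)]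
      have : ∏ j ∈ Finset.range (k + 1), (1 - q ^ (k + 1 - j)) =
          ∏ j ∈ Finset.range (k + 1), (1 - q ^ (j + 1)) := by
        rw [← Finset.prod_range_reflect]
        refine Finset.prod_congr rfl fun j hj => ?_
        have := Finset.mem_range.mp hj
        congr 2
        omega
      rw [this]
      ring
    · have e1 := gb_mul q N k (by omega)
      have e2 := gb_mul q N (k + 1) h1
      have e3 : ∏ j ∈ Finset.range (k + 1), (1 - q ^ (N + 1 - j)) =
          (1 - q ^ (N + 1)) * ∏ j ∈ Finset.range k, (1 - q ^ (N - j)) := by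
        rw [Finset.prod_range_succ', mul_comm]
        congr 1
        refine Finset.prod_congr rfl fun j _ => ?_
        congr 2
        omega
      have e4 : ∏ j ∈ Finset.range (k + 1), (1 - q ^ (N - j)) =
          (∏ j ∈ Finset.range k, (1 - q ^ (N - j))) * (1 - q ^ (N - k)) :=
        Finset.prod_range_succ _ _
      rw [add_mul, mul_assoc, e2, e3, e4, Finset.prod_range_succ, ← mul_assoc, e1]
      have e5 : q ^ (N + 1) = q ^ (k + 1) * q ^ (N - k) := by
        rw [← pow_add]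
        congr 1
        omega
      rw [e5]
      ring

/-- the second Pascal rule -/
theorem gb_succ' (q : ℂ) : ∀ (N k : ℕ), k ≤ N →
    gb q (N + 1) (k + 1) = q ^ (N - k) * gb q N k + gb q N (k + 1)
  | 0, 0, _ => by
    rw [gb_succ, gb_of_lt q (by omega : 0 < 0 + 1), gb_self]
    simp
  | 0, _ + 1, h => by omega
  | N + 1, 0, _ => by
    have h1 : gb q (N + 1 + 1) (0 + 1) = gb q (N + 1) 0 + q ^ (0 + 1) * gb q (N + 1) (0 + 1) := rfl
    have h2 : gb q (N + 1) (0 + 1) = q ^ (N - 0) * gb q N 0 + gb q N (0 + 1) :=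
      gb_succ' q N 0 (by omega)
    have h3 : gb q (N + 1) (0 + 1) = gb q N 0 + q ^ (0 + 1) * gb q N (0 + 1) := rfl
    rw [gb_zero_right] at *
    simp only [Nat.sub_zero, mul_one, zero_add, pow_one] at *
    linear_combination h1 + q * h2 - h3
  | N + 1, k + 1, h => by
    have h1 : gb q (N + 1 + 1) (k + 1 + 1) =
      gb q (N + 1) (k + 1) + q ^ (k + 1 + 1) * gb q (N + 1) (k + 1 + 1) := rfl
    have h3 : gb q (N + 1) (k + 1 + 1) = gb q N (k + 1) + q ^ (k + 1 + 1) * gb q N (k + 1 + 1) := rfl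
    have h4 : gb q (N + 1) (k + 1) = gb q N k + q ^ (k + 1) * gb q N (k + 1) := rfl
    have h2 : gb q (N + 1) (k + 1) = q ^ (N - k) * gb q N k + gb q N (k + 1) :=
      gb_succ' q N k (by omega)
    rcases Nat.lt_or_ge N (k + 1) with h5 | h5
    · have hk : k = N := by omega
      subst hk
      rw [h1, gb_self, gb_of_lt q (by omega : k + 1 < k + 1 + 1)]
      simp
    · have h6 : gb q (N + 1) (k + 1 + 1) = q ^ (N - (k + 1)) * gb q N (k + 1) + gb q N (k + 1 + 1) :=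
        gb_succ' q N (k + 1) h5
      have e : q ^ (N + 1 - (k + 1)) = q ^ (N - k) := by congr 1; omega
      have e1 : q ^ (N - k) = q * q ^ (N - (k + 1)) := by
        rw [← pow_succ']
        congr 1
        omega
      rw [e1] at e h2
      rw [e]
      linear_combination h1 + h2 + q ^ (k + 1 + 1) * h6 - q * q ^ (N - (k + 1)) * h4 - h3

/-- the alternating sum -/
noncomputable def F (q : ℂ) (N : ℕ) : ℂ := ∑ k ∈ Finset.range (N + 1), (-1) ^ k * gb q N k

/-- the companion sum -/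
noncomputable def G (q : ℂ) (N : ℕ) : ℂ := ∑ k ∈ Finset.range (N + 1), (-1) ^ k * q ^ k * gb q N k

theorem F_succ (q : ℂ) (N : ℕ) : F q (N + 1) = G q N - F q N := by
  have h1 : G q N = 1 + ∑ k ∈ Finset.range (N + 1), (-1) ^ (k + 1) * q ^ (k + 1) * gb q N (k + 1) := by
    have : G q N = ∑ k ∈ Finset.range (N + 2), (-1) ^ k * q ^ k * gb q N k := by
      rw [Finset.sum_range_succ, gb_of_lt q (by omega : N < N + 1)]
      simp [G]
    rw [this, Finset.sum_range_succ', gb_zero_right]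
    ring
  rw [F, Finset.sum_range_succ', gb_zero_right, h1, F]
  have : ∀ k ∈ Finset.range (N + 1), (-1 : ℂ) ^ (k + 1) * gb q (N + 1) (k + 1) =
      (-1) ^ (k + 1) * q ^ (k + 1) * gb q N (k + 1) - (-1) ^ k * gb q N k := by
    intro k _
    rw [gb_succ]
    ring
  rw [Finset.sum_congr rfl this, Finset.sum_sub_distrib]
  ring

theorem G_succ (q : ℂ) (N : ℕ) : G q (N + 1) = G q N - q ^ (N + 1) * F q N := by
  have h1 : G q N = 1 + ∑ k ∈ Finset.range (N + 1), (-1) ^ (k + 1) * q ^ (k + 1) * gb q N (k + 1) := by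
    have : G q N = ∑ k ∈ Finset.range (N + 2), (-1) ^ k * q ^ k * gb q N k := by
      rw [Finset.sum_range_succ, gb_of_lt q (by omega : N < N + 1)]
      simp [G]
    rw [this, Finset.sum_range_succ', gb_zero_right]
    ring
  rw [G, Finset.sum_range_succ', gb_zero_right, h1, F]
  have : ∀ k ∈ Finset.range (N + 1), (-1 : ℂ) ^ (k + 1) * q ^ (k + 1) * gb q (N + 1) (k + 1) =
      (-1) ^ (k + 1) * q ^ (k + 1) * gb q N (k + 1) - q ^ (N + 1) * ((-1) ^ k * gb q N k) := by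
    intro k hk
    have hk' := Finset.mem_range.mp hk
    rw [gb_succ' q N k (by omega)]
    have e : q ^ (N + 1) = q ^ (k + 1) * q ^ (N - k) := by
      rw [← pow_add]
      congr 1
      omega
    rw [e]
    ring
  rw [Finset.sum_congr rfl this, Finset.sum_sub_distrib, ← Finset.mul_sum]
  ring

theorem F_add_two (q : ℂ) (N : ℕ) : F q (N + 2) = (1 - q ^ (N + 1)) * F q N := by
  rw [F_succ, G_succ, F_succ]
  ring

theorem F_even (q : ℂ) : ∀ n : ℕ, F q (2 * n) = ∏ j ∈ Finset.range n, (1 - q ^ (2 * j + 1))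
  | 0 => by simp [F, gb]
  | n + 1 => by
    rw [show 2 * (n + 1) = 2 * n + 2 by ring, F_add_two, F_even q n, Finset.prod_range_succ]
    ring

/-- the coefficients at a root of unity -/
theorem gb_root {q : ℂ} {m : ℕ} (hq : IsPrimitiveRoot q m) {k : ℕ} (hk : k < m) :
    gb q (m - 1) k = (-1) ^ k * (q ^ (k * (k + 1) / 2))⁻¹ := by
  have hq0 : q ≠ 0 := hq.ne_zero (by omega)
  have h1 := gb_mul q (m - 1) k (by omega)
  have h2 : ∏ j ∈ Finset.range k, (1 - q ^ (j + 1)) ≠ 0 := by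
    rw [Finset.prod_ne_zero_iff]
    intro j hj hcon
    have hj' := Finset.mem_range.mp hj
    have : q ^ (j + 1) = 1 := by linear_combination -hcon
    have h3 := (hq.pow_eq_one_iff_dvd _).mp this
    have := Nat.le_of_dvd (by omega) h3
    omega
  have h3 : ∏ j ∈ Finset.range k, (1 - q ^ (m - 1 - j)) =
      ((-1) ^ k * (q ^ (k * (k + 1) / 2))⁻¹) * ∏ j ∈ Finset.range k, (1 - q ^ (j + 1)) := by
    have h4 : ∀ j ∈ Finset.range k, (1 - q ^ (m - 1 - j)) =
        (-(q ^ (j + 1))⁻¹) * (1 - q ^ (j + 1)) := by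
      intro j hj
      have hj' := Finset.mem_range.mp hj
      have h5 : q ^ (m - 1 - j) * q ^ (j + 1) = 1 := by
        rw [← pow_add, show m - 1 - j + (j + 1) = m by omega, hq.pow_eq_one]
      have h6 : q ^ (j + 1) ≠ 0 := pow_ne_zero _ hq0
      rw [eq_comm, ← sub_eq_zero]
      field_simp
      linear_combination h5
    rw [Finset.prod_congr rfl h4, Finset.prod_mul_distrib]
    congr 1
    have h7 : ∀ k : ℕ, ∏ j ∈ Finset.range k, (-(q ^ (j + 1))⁻¹) =
        (-1) ^ k * (q ^ (k * (k + 1) / 2))⁻¹ := by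
      intro k
      induction k with
      | zero => simp
      | succ k ih =>
        rw [Finset.prod_range_succ, ih]
        have e : (k + 1) * (k + 1 + 1) / 2 = k * (k + 1) / 2 + (k + 1) := by
          have : (k + 1) * (k + 1 + 1) = k * (k + 1) + (k + 1) * 2 := by ring
          rw [this, Nat.add_mul_div_right _ _ (by norm_num)]
        rw [e, pow_add q, mul_inv]
        ring
    exact h7 k
  rw [h3] at h1
  exact mul_right_cancel₀ h2 h1

theorem sum_root {q : ℂ} {n : ℕ} (hq : IsPrimitiveRoot q (2 * n + 1)) :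
    ∑ k ∈ Finset.range (2 * n + 1), (q ^ (k * (k + 1) / 2))⁻¹ =
      ∏ j ∈ Finset.range n, (1 - q ^ (2 * j + 1)) := by
  rw [← F_even, F]
  refine Finset.sum_congr rfl fun k hk => ?_
  have hk' := Finset.mem_range.mp hk
  have := gb_root hq hk'
  rw [Nat.add_sub_cancel] at this
  rw [this, ← mul_assoc, ← mul_pow]
  norm_num

theorem sum_shift {f : ℕ → ℂ} {m : ℕ} (hf : ∀ k, f (k + m) = f k) (h : ℕ) :
    ∑ k ∈ Finset.range m, f (k + h) = ∑ k ∈ Finset.range m, f k := by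
  induction h with
  | zero => simp
  | succ h ih =>
    rw [← ih]
    have h1 := Finset.sum_range_succ (fun k => f (k + h)) m
    have h2 := Finset.sum_range_succ' (fun k => f (k + h)) m
    rw [h1] at h2
    have h3 : f (m + h) = f (0 + h) := by
      rw [add_comm m h, hf, zero_add]
    simp only [h3] at h2
    have h4 : ∀ k ∈ Finset.range m, f (k + (h + 1)) = f (k + 1 + h) := by
      intro k _
      congr 1
      ring
    rw [Finset.sum_congr rfl h4]
    linear_combination -h2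

theorem sum_sq {ω : ℂ} {n : ℕ} (hω : IsPrimitiveRoot ω (2 * n + 1)) :
    ∑ k ∈ Finset.range (2 * n + 1), ω ^ (k ^ 2) =
      ∏ j ∈ Finset.range n, (ω ^ (2 * j + 1) - (ω ^ (2 * j + 1))⁻¹) := by
  have hω0 : ω ≠ 0 := hω.ne_zero (by omega)
  have hq : IsPrimitiveRoot ((ω ^ 2)⁻¹) (2 * n + 1) := by
    refine IsPrimitiveRoot.inv ?_
    refine hω.pow_of_coprime 2 ?_
    rw [Nat.coprime_two_left]
    exact ⟨n, rfl⟩
  have h1 := sum_root hq
  have h2 : ∀ k : ℕ, (((ω ^ 2)⁻¹) ^ (k * (k + 1) / 2))⁻¹ = ω ^ (k * (k + 1)) := by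
    intro k
    rw [inv_pow, inv_inv, ← pow_mul]
    congr 1
    exact Nat.mul_div_cancel' (Nat.even_mul_succ_self k).two_dvd
  simp only [h2] at h1
  have h3 : ∀ k : ℕ, ω ^ ((k + (n + 1)) ^ 2) = ω ^ ((n + 1) ^ 2) * ω ^ (k * (k + 1)) := by
    intro k
    have : (k + (n + 1)) ^ 2 = (n + 1) ^ 2 + k * (k + 1) + (2 * n + 1) * k := by ring
    rw [this, pow_add, pow_add, pow_mul ω (2 * n + 1), hω.pow_eq_one, one_pow, mul_one]
  have h4 : ∀ k : ℕ, ω ^ ((k + (2 * n + 1)) ^ 2) = ω ^ (k ^ 2) := by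
    intro k
    have : (k + (2 * n + 1)) ^ 2 = k ^ 2 + (2 * n + 1) * (2 * k + (2 * n + 1)) := by ring
    rw [this, pow_add, pow_mul ω (2 * n + 1), hω.pow_eq_one, one_pow, mul_one]
  have h5 := sum_shift (f := fun k => ω ^ (k ^ 2)) h4 (n + 1)
  simp only [h3] at h5
  rw [← h5, ← Finset.mul_sum, h1]
  have h6 : ∀ j ∈ Finset.range n, (1 - ((ω ^ 2)⁻¹) ^ (2 * j + 1)) =
      (ω ^ (2 * j + 1))⁻¹ * (ω ^ (2 * j + 1) - (ω ^ (2 * j + 1))⁻¹) := by
    intro j _
    have : ω ^ (2 * j + 1) ≠ 0 := pow_ne_zero _ hω0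
    rw [inv_pow, ← pow_mul, mul_comm 2 (2 * j + 1), pow_mul, mul_sub, inv_mul_cancel₀ this]
    rw [sq, mul_inv]
  rw [Finset.prod_congr rfl h6, Finset.prod_mul_distrib, ← mul_assoc]
  have h7 : ∀ n : ℕ, ∏ j ∈ Finset.range n, (ω ^ (2 * j + 1))⁻¹ = (ω ^ (n ^ 2))⁻¹ := by
    intro n
    induction n with
    | zero => simp
    | succ n ih =>
      rw [Finset.prod_range_succ, ih, ← mul_inv, ← pow_add]
      congr 2
      ring
  rw [h7]
  have h8 : ω ^ ((n + 1) ^ 2) * (ω ^ (n ^ 2))⁻¹ = 1 := by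
    have : (n + 1) ^ 2 = n ^ 2 + (2 * n + 1) := by ring
    rw [this, pow_add, hω.pow_eq_one, mul_one, mul_inv_cancel₀ (pow_ne_zero _ hω0)]
  rw [h8, one_mul]

/-- the square of the absolute value -/
theorem prod_norm {ω : ℂ} {n : ℕ} (hω : IsPrimitiveRoot ω (2 * n + 1)) :
    ∏ j ∈ Finset.range n, (-(ω ^ (2 * j + 1) - (ω ^ (2 * j + 1))⁻¹) ^ 2) = 2 * n + 1 := by
  have hω0 : ω ≠ 0 := hω.ne_zero (by omega)
  have hμ : IsPrimitiveRoot (ω ^ 2) (2 * n + 1) := by
    refine hω.pow_of_coprime 2 ?_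
    rw [Nat.coprime_two_left]
    exact ⟨n, rfl⟩
  have h0 := hμ.prod_one_sub_pow_eq_order
  push_cast at h0
  rw [← h0]
  have h1 : ∀ n : ℕ, ∏ k ∈ Finset.range (2 * n), (1 - (ω ^ 2) ^ (k + 1)) =
      (∏ j ∈ Finset.range n, (1 - (ω ^ 2) ^ (2 * j + 1))) *
        ∏ j ∈ Finset.range n, (1 - (ω ^ 2) ^ (2 * j + 2)) := by
    intro n
    induction n with
    | zero => simp
    | succ n ih =>
      rw [show 2 * (n + 1) = 2 * n + 1 + 1 by ring, Finset.prod_range_succ, Finset.prod_range_succ,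
        ih, Finset.prod_range_succ, Finset.prod_range_succ]
      ring
  rw [h1, ← Finset.prod_range_reflect (fun j => (1 - (ω ^ 2) ^ (2 * j + 2))),
    ← Finset.prod_mul_distrib]
  refine Finset.prod_congr rfl fun j hj => ?_
  have hj' := Finset.mem_range.mp hj
  have h2 : (ω ^ 2) ^ (2 * (n - 1 - j) + 2) = ((ω ^ (2 * j + 1)) ^ 2)⁻¹ := by
    have h3 : (ω ^ 2) ^ (2 * (n - 1 - j) + 2) * (ω ^ (2 * j + 1)) ^ 2 = 1 := by
      rw [← pow_mul, ← pow_mul, ← pow_add]
      have : 2 * (2 * (n - 1 - j) + 2) + (2 * j + 1) * 2 = (2 * n + 1) * 2 := by omega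
      rw [this, pow_mul, hω.pow_eq_one, one_pow]
    exact eq_inv_of_mul_eq_one_left h3
  have h4 : (ω ^ 2) ^ (2 * j + 1) = (ω ^ (2 * j + 1)) ^ 2 := by
    rw [← pow_mul, ← pow_mul, mul_comm]
  rw [h2, h4]
  have : ω ^ (2 * j + 1) ≠ 0 := pow_ne_zero _ hω0
  field_simp
  ring

end QG

open QG in
/-- **Gauss**: the value of the quadratic Gauss sum -/
theorem quad_gauss {m : ℕ} (hm : m % 2 = 1) :
    ∑ x ∈ Finset.range m, Complex.exp (2 * Real.pi * Complex.I * (x : ℂ) ^ 2 / m) =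
      if m % 4 = 1 then ((√(m : ℝ) : ℝ) : ℂ) else Complex.I * ((√(m : ℝ) : ℝ) : ℂ) := by
  obtain ⟨n, rfl⟩ : ∃ n, m = 2 * n + 1 := ⟨m / 2, by omega⟩
  set ω : ℂ := Complex.exp (2 * Real.pi * Complex.I / ((2 * n + 1 : ℕ) : ℂ)) with hωdef
  have hω : IsPrimitiveRoot ω (2 * n + 1) := Complex.isPrimitiveRoot_exp _ (by omega)
  have hm0 : ((2 * n + 1 : ℕ) : ℂ) ≠ 0 := by exact_mod_cast (by omega : 2 * n + 1 ≠ 0)
  have h1 : ∀ x ∈ Finset.range (2 * n + 1),
      Complex.exp (2 * Real.pi * Complex.I * (x : ℂ) ^ 2 / ((2 * n + 1 : ℕ) : ℂ)) =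
        ω ^ (x ^ 2) := by
    intro x _
    rw [hωdef, ← Complex.exp_nat_mul]
    congr 1
    push_cast
    ring
  rw [Finset.sum_congr rfl h1, sum_sq hω]
  -- the real factors
  set a : ℕ → ℝ := fun j => 2 * Real.sin (2 * Real.pi * (2 * j + 1) / (2 * n + 1)) with ha
  have h2 : ∀ j : ℕ, ω ^ (2 * j + 1) - (ω ^ (2 * j + 1))⁻¹ = Complex.I * (a j : ℂ) := by
    intro j
    have e1 : ω ^ (2 * j + 1) = Complex.exp (((2 * Real.pi * (2 * j + 1) / (2 * n + 1) : ℝ) : ℂ) * Complex.I) := by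
      rw [hωdef, ← Complex.exp_nat_mul]
      congr 1
      push_cast
      ring
    rw [e1, ← Complex.exp_neg, ha]
    push_cast
    rw [Complex.sin]
    ring_nf
    rw [Complex.I_sq]
    ring
  have h3 : ∏ j ∈ Finset.range n, (ω ^ (2 * j + 1) - (ω ^ (2 * j + 1))⁻¹) =
      Complex.I ^ n * ((∏ j ∈ Finset.range n, a j : ℝ) : ℂ) := by
    rw [Finset.prod_congr rfl fun j _ => h2 j, Finset.prod_mul_distrib]
    simp
  have h4 : (∏ j ∈ Finset.range n, a j) ^ 2 = 2 * n + 1 := by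
    have := prod_norm hω
    have e : ∀ j ∈ Finset.range n, (-(ω ^ (2 * j + 1) - (ω ^ (2 * j + 1))⁻¹) ^ 2) =
        (((a j) ^ 2 : ℝ) : ℂ) := by
      intro j _
      rw [h2, mul_pow, Complex.I_sq]
      push_cast
      ring
    rw [Finset.prod_congr rfl e, ← Complex.ofReal_prod, Finset.prod_pow] at this
    exact_mod_cast this
  -- the sign
  have hmr : (0 : ℝ) < 2 * n + 1 := by positivity
  have h5 : ∀ j < (n + 1) / 2, 0 < a j := by
    intro j hj
    have hj2 : 2 * j + 1 ≤ n := by omega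
    have hj3 : (2 * j + 1 : ℝ) ≤ n := by exact_mod_cast hj2
    refine mul_pos two_pos (Real.sin_pos_of_pos_of_lt_pi (by positivity) ?_)
    rw [div_lt_iff₀ hmr]
    nlinarith [Real.pi_pos]
  have h6 : ∀ j < n, (n + 1) / 2 ≤ j → a j < 0 := by
    intro j hjn hj
    have hj2 : n + 1 ≤ 2 * j + 1 := by omega
    have hj3 : (n + 1 : ℝ) ≤ 2 * j + 1 := by exact_mod_cast hj2
    have hj4 : 2 * j + 1 ≤ 2 * n := by omega
    have hj5 : (2 * j + 1 : ℝ) ≤ 2 * n := by exact_mod_cast hj4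
    have e : Real.sin (2 * Real.pi * (2 * j + 1) / (2 * n + 1)) < 0 := by
      have e1 : Real.sin (2 * Real.pi * (2 * j + 1) / (2 * n + 1)) =
          Real.sin (2 * Real.pi * (2 * j + 1) / (2 * n + 1) - 2 * Real.pi) := by
        rw [Real.sin_sub_two_pi]
      rw [e1]
      refine Real.sin_neg_of_neg_of_neg_pi_lt ?_ ?_
      · rw [sub_neg, div_lt_iff₀ hmr]
        nlinarith [Real.pi_pos]
      · rw [lt_sub_iff_add_lt, lt_div_iff₀ hmr]
        nlinarith [Real.pi_pos]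
    rw [ha]
    simp only
    linarith
  have h7 : 0 < (-1 : ℝ) ^ (n / 2) * ∏ j ∈ Finset.range n, a j := by
    have e : n = (n + 1) / 2 + n / 2 := by omega
    have e1 : ∏ j ∈ Finset.range n, a j = (∏ j ∈ Finset.range ((n + 1) / 2), a j) *
        ∏ j ∈ Finset.range (n / 2), a ((n + 1) / 2 + j) := by
      conv_lhs => rw [e]
      rw [Finset.prod_range_add]
    have e2 : (-1 : ℝ) ^ (n / 2) * ∏ j ∈ Finset.range (n / 2), a ((n + 1) / 2 + j) =
        ∏ j ∈ Finset.range (n / 2), (-a ((n + 1) / 2 + j)) := by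
      rw [Finset.prod_neg]
      simp
    have e3 : 0 < ∏ j ∈ Finset.range (n / 2), (-a ((n + 1) / 2 + j)) := by
      refine Finset.prod_pos fun j hj => ?_
      have := Finset.mem_range.mp hj
      have := h6 ((n + 1) / 2 + j) (by omega) (by omega)
      linarith
    have e4 : 0 < ∏ j ∈ Finset.range ((n + 1) / 2), a j :=
      Finset.prod_pos fun j hj => h5 j (Finset.mem_range.mp hj)
    rw [e1, mul_left_comm, e2]
    exact mul_pos e4 e3
  have h8 : (-1 : ℝ) ^ (n / 2) * ∏ j ∈ Finset.range n, a j = √((2 * n + 1 : ℕ) : ℝ) := by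
    rw [eq_comm, Real.sqrt_eq_iff_mul_self_eq_of_pos h7, ← sq, mul_pow, h4, ← pow_mul,
      mul_comm (n / 2) 2, pow_mul]
    norm_num
  have h9 : ∏ j ∈ Finset.range n, a j = (-1 : ℝ) ^ (n / 2) * √((2 * n + 1 : ℕ) : ℝ) := by
    rw [← h8, ← mul_assoc, ← pow_add, ← two_mul, pow_mul]
    norm_num
  rw [h3, h9]
  push_cast
  rcases Nat.even_or_odd' n with ⟨k, hk | hk⟩
  · rw [if_pos (by omega), hk, Nat.mul_div_cancel_left k (by norm_num), pow_mul, Complex.I_sq,
      ← mul_assoc, ← mul_pow]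
    norm_num
  · rw [if_neg (by omega), hk, show (2 * k + 1) / 2 = k by omega, pow_succ, pow_mul, Complex.I_sq]
    have : (-1 : ℂ) ^ k * (-1) ^ k = 1 := by
      rw [← mul_pow]
      norm_num
    linear_combination (Complex.I * ((√(2 * ((2 * k + 1 : ℕ) : ℝ) + 1) : ℝ) : ℂ)) * this

end Pool.Agent.MDSL
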