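import Pool.Agent.MDSL.Defs
import Pool.Agent.MDSL.QuadGauss

/-!
# Gauss sums of the Jacobi symbol for odd squarefree modulus
-/

set_option autoImplicit false

open Complex
open scoped NumberTheorySymbols

namespace Pool.Agent.MDSL

private lemma jg_sum_range {n : ℕ} [NeZero n] (f : ZMod n → ℂ) :
    ∑ x ∈ Finset.range n, f (x : ZMod n) = ∑ a : ZMod n, f a := by
  refine Finset.sum_nbij' (fun x => (x : ZMod n)) ZMod.val ?_ ?_ ?_ ?_ ?_
  · intro x _; exact Finset.mem_univ _
  · intro a _; exact Finset.mem_range.mpr (ZMod.val_lt a)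
  · intro x hx; exact ZMod.val_cast_of_lt (Finset.mem_range.mp hx)
  · intro a _; exact ZMod.natCast_zmod_val a
  · intro x _; rfl

private lemma jg_std {n : ℕ} [NeZero n] (x : ℕ) :
    ZMod.stdAddChar (N := n) (x : ZMod n) = Complex.exp (2 * Real.pi * Complex.I * x / n) := by
  have h := ZMod.stdAddChar_coe (N := n) (x : ℤ)
  simpa using h

private lemma jg_prime {p : ℕ} (hp : p.Prime) (h2 : p % 2 = 1) :
    ∑ x ∈ Finset.range p, ((J((x : ℤ) | p) : ℤ) : ℂ) *
      Complex.exp (2 * Real.pi * Complex.I * x / p) =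
    ∑ x ∈ Finset.range p, Complex.exp (2 * Real.pi * Complex.I * (x:ℂ)^2 / p) := by
  haveI : Fact p.Prime := ⟨hp⟩
  haveI : NeZero p := ⟨hp.ne_zero⟩
  have e1 : ∑ x ∈ Finset.range p, ((J((x : ℤ) | p) : ℤ) : ℂ) *
      Complex.exp (2 * Real.pi * Complex.I * x / p) =
      ∑ a : ZMod p, ((quadraticChar (ZMod p) a : ℤ) : ℂ) * ZMod.stdAddChar a := by
    rw [← jg_sum_range (fun a => ((quadraticChar (ZMod p) a : ℤ) : ℂ) * ZMod.stdAddChar a)]
    refine Finset.sum_congr rfl fun x _ => ?_
    rw [jg_std, ← jacobiSym.legendreSym.to_jacobiSym]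
    simp [legendreSym]
  have e2 : ∑ x ∈ Finset.range p, Complex.exp (2 * Real.pi * Complex.I * (x:ℂ)^2 / p) =
      ∑ x : ZMod p, ZMod.stdAddChar (x ^ 2) := by
    rw [← jg_sum_range (fun a => ZMod.stdAddChar (a ^ 2))]
    refine Finset.sum_congr rfl fun x _ => ?_
    have := jg_std (n := p) (x ^ 2)
    push_cast at this
    rw [this]
  rw [e1, e2]
  have e3 : ∑ x : ZMod p, (ZMod.stdAddChar (x ^ 2) : ℂ) =
      ∑ a : ZMod p, ∑ x ∈ Finset.univ.filter (fun x : ZMod p => x ^ 2 = a),
        (ZMod.stdAddChar (x ^ 2) : ℂ) :=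
    (Finset.sum_fiberwise (s := Finset.univ) (g := fun x : ZMod p => x ^ 2)
      (f := fun x => (ZMod.stdAddChar (x ^ 2) : ℂ))).symm
  rw [e3]
  have e4 : ∀ a : ZMod p, ∑ x ∈ Finset.univ.filter (fun x : ZMod p => x ^ 2 = a),
        (ZMod.stdAddChar (x ^ 2) : ℂ) =
      ((quadraticChar (ZMod p) a : ℤ) : ℂ) * ZMod.stdAddChar a + ZMod.stdAddChar a := by
    intro a
    have hc : ((Finset.univ.filter (fun x : ZMod p => x ^ 2 = a)).card : ℤ) =
        quadraticChar (ZMod p) a + 1 := by
      have h2' : ringChar (ZMod p) ≠ 2 := by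
        rw [ZMod.ringChar_zmod_n]
        omega
      rw [← quadraticChar_card_sqrts h2' a]
      congr 2
      ext x
      simp
    rw [Finset.sum_congr rfl (g := fun _ => (ZMod.stdAddChar a : ℂ))
      (fun x hx => by rw [(Finset.mem_filter.mp hx).2])]
    rw [Finset.sum_const, nsmul_eq_mul]
    have hc' : ((Finset.univ.filter (fun x : ZMod p => x ^ 2 = a)).card : ℂ) =
        ((quadraticChar (ZMod p) a : ℤ) : ℂ) + 1 := by
      exact_mod_cast congrArg (fun z : ℤ => (z : ℂ)) hc
    rw [hc']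
    ring
  rw [Finset.sum_congr rfl (fun a _ => e4 a), Finset.sum_add_distrib]
  have e5 : ∑ a : ZMod p, (ZMod.stdAddChar a : ℂ) = 0 := by
    apply AddChar.sum_eq_zero_of_ne_one
    have := ZMod.isPrimitive_stdAddChar p
    intro h
    have h1 := ZMod.injective_stdAddChar (N := p)
    have h01 : (ZMod.stdAddChar (1 : ZMod p) : ℂ) = ZMod.stdAddChar (0 : ZMod p) := by
      rw [h]; simp
    have := h1 h01
    exact one_ne_zero this
  rw [e5, add_zero]

private lemma jg_mul {a b : ℕ} (ha : 0 < a) (hb : 0 < b) (hab : Nat.Coprime a b) :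
    ∑ x ∈ Finset.range (a * b), ((J((x : ℤ) | a * b) : ℤ) : ℂ) *
      Complex.exp (2 * Real.pi * Complex.I * x / ((a * b : ℕ) : ℂ)) =
    ((J((a : ℤ) | b) * J((b : ℤ) | a) : ℤ) : ℂ) *
    (∑ x ∈ Finset.range a, ((J((x : ℤ) | a) : ℤ) : ℂ) *
      Complex.exp (2 * Real.pi * Complex.I * x / a)) *
    (∑ x ∈ Finset.range b, ((J((x : ℤ) | b) : ℤ) : ℂ) *
      Complex.exp (2 * Real.pi * Complex.I * x / b)) := by
  haveI : NeZero (a * b) := ⟨(Nat.mul_pos ha hb).ne'⟩
  have ha' : (a : ℂ) ≠ 0 := by exact_mod_cast ha.ne'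
  have hb' : (b : ℂ) ≠ 0 := by exact_mod_cast hb.ne'
  set f : ℕ → ℂ := fun x => ((J((x : ℤ) | a * b) : ℤ) : ℂ) *
      Complex.exp (2 * Real.pi * Complex.I * x / ((a * b : ℕ) : ℂ)) with hf
  have hper : ∀ x : ℕ, f (x % (a * b)) = f x := by
    intro x
    simp only [hf]
    congr 1
    · congr 1
      apply jacobiSym.mod_left'
      push_cast
      exact Int.emod_emod_of_dvd _ (dvd_refl _)
    · rw [← jg_std, ← jg_std, ZMod.natCast_mod]
  have hinj : Set.InjOn (fun q : ℕ × ℕ => (a * q.1 + b * q.2) % (a * b))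
      ((Finset.range b ×ˢ Finset.range a : Finset (ℕ × ℕ)) : Set (ℕ × ℕ)) := by
    rintro ⟨y, z⟩ h1 ⟨y', z'⟩ h2 h
    simp only [Finset.coe_product, Finset.coe_range, Set.mem_prod, Set.mem_Iio] at h1 h2
    have h' : a * y + b * z ≡ a * y' + b * z' [MOD a * b] := h
    have hy : y ≡ y' [MOD b] := by
      have h3 : a * y + b * z ≡ a * y' + b * z' [MOD b] := h'.of_mul_left a
      have h4 : a * y ≡ a * y' [MOD b] := by
        have e1 : a * y + b * z ≡ a * y [MOD b] := by
          simp [Nat.ModEq]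
        have e2 : a * y' + b * z' ≡ a * y' [MOD b] := by
          simp [Nat.ModEq]
        exact e1.symm.trans (h3.trans e2)
      exact Nat.ModEq.cancel_left_of_coprime (by rw [Nat.gcd_comm]; exact hab) h4
    have hz : z ≡ z' [MOD a] := by
      have h3 : a * y + b * z ≡ a * y' + b * z' [MOD a] := h'.of_mul_right b
      have h4 : b * z ≡ b * z' [MOD a] := by
        have e1 : a * y + b * z ≡ b * z [MOD a] := by
          simp [Nat.ModEq]
        have e2 : a * y' + b * z' ≡ b * z' [MOD a] := by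
          simp [Nat.ModEq]
        exact e1.symm.trans (h3.trans e2)
      exact Nat.ModEq.cancel_left_of_coprime hab h4
    have hy' := Nat.ModEq.eq_of_lt_of_lt hy h1.1 h2.1
    have hz' := Nat.ModEq.eq_of_lt_of_lt hz h1.2 h2.2
    rw [hy', hz']
  have hmaps : ∀ q ∈ (Finset.range b ×ˢ Finset.range a : Finset (ℕ × ℕ)),
      (fun q : ℕ × ℕ => (a * q.1 + b * q.2) % (a * b)) q ∈ Finset.range (a * b) := by
    intro q _
    exact Finset.mem_range.mpr (Nat.mod_lt _ (Nat.mul_pos ha hb))
  have hsurj := Finset.surjOn_of_injOn_of_card_le _ hmaps hinj (by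
    rw [Finset.card_product, Finset.card_range, Finset.card_range, Finset.card_range, mul_comm])
  have e1 : ∑ x ∈ Finset.range (a * b), f x =
      ∑ q ∈ (Finset.range b ×ˢ Finset.range a : Finset (ℕ × ℕ)), f (a * q.1 + b * q.2) := by
    symm
    refine Finset.sum_nbij (fun q : ℕ × ℕ => (a * q.1 + b * q.2) % (a * b)) hmaps hinj hsurj ?_
    intro q _
    exact (hper _).symm
  have e2 : ∀ y z : ℕ, f (a * y + b * z) =
      ((J((a : ℤ) | b) * J((b : ℤ) | a) : ℤ) : ℂ) *
      (((J((z : ℤ) | a) : ℤ) : ℂ) * Complex.exp (2 * Real.pi * Complex.I * z / a)) *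
      (((J((y : ℤ) | b) : ℤ) : ℂ) * Complex.exp (2 * Real.pi * Complex.I * y / b)) := by
    intro y z
    simp only [hf]
    have hJ : J(((a * y + b * z : ℕ) : ℤ) | a * b) =
        J((a : ℤ) | b) * J((b : ℤ) | a) * J((z : ℤ) | a) * J((y : ℤ) | b) := by
      haveI : NeZero a := ⟨ha.ne'⟩
      haveI : NeZero b := ⟨hb.ne'⟩
      rw [jacobiSym.mul_right]
      have h1 : J(((a * y + b * z : ℕ) : ℤ) | a) = J((b : ℤ) * z | a) := by
        apply jacobiSym.mod_left'
        push_cast
        simp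
      have h2 : J(((a * y + b * z : ℕ) : ℤ) | b) = J((a : ℤ) * y | b) := by
        apply jacobiSym.mod_left'
        push_cast
        simp
      rw [h1, h2, jacobiSym.mul_left, jacobiSym.mul_left]
      ring
    have hE : Complex.exp (2 * Real.pi * Complex.I * ((a * y + b * z : ℕ) : ℂ) /
        ((a * b : ℕ) : ℂ)) = Complex.exp (2 * Real.pi * Complex.I * z / a) *
        Complex.exp (2 * Real.pi * Complex.I * y / b) := by
      rw [← Complex.exp_add]
      congr 1
      push_cast
      field_simp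
      ring
    rw [hE, hJ]
    push_cast
    ring
  rw [e1, Finset.sum_product]
  simp_rw [e2]
  rw [Finset.sum_comm]
  simp_rw [← Finset.mul_sum]
  rw [← Finset.sum_mul, ← Finset.mul_sum]

theorem jac_gauss {r : ℕ} (hr : r % 2 = 1) (hsq : Squarefree r) :
    ∑ x ∈ Finset.range r, ((J((x : ℤ) | r) : ℤ) : ℂ) *
      Complex.exp (2 * Real.pi * Complex.I * x / r) =
    if r % 4 = 1 then ((√(r:ℝ) : ℝ) : ℂ) else Complex.I * ((√(r:ℝ) : ℝ) : ℂ) := by
  induction r using Nat.recOnPosPrimePosCoprime with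
  | prime_pow p n hp hn =>
    have hn1 : n = 1 := by
      by_contra hne
      have h2 : 2 ≤ n := by omega
      have : p * p ∣ p ^ n := by
        rw [← pow_two]
        exact pow_dvd_pow _ h2
      exact hp.one_lt.ne' (Nat.isUnit_iff.mp (hsq p this))
    subst hn1
    simp only [pow_one] at hr ⊢
    rw [jg_prime hp hr, quad_gauss hr]
  | zero => simp at hr
  | one => simp
  | coprime a b ha hb hab iha ihb =>
    have hoa : a % 2 = 1 := by
      rcases Nat.mod_two_eq_zero_or_one a with h | h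
      · exfalso
        have := Nat.mul_mod a b 2
        rw [h] at this
        simp at this
        omega
      · exact h
    have hob : b % 2 = 1 := by
      rcases Nat.mod_two_eq_zero_or_one b with h | h
      · exfalso
        have := Nat.mul_mod a b 2
        rw [h] at this
        simp at this
        omega
      · exact h
    have hsa : Squarefree a := hsq.of_mul_left
    have hsb : Squarefree b := hsq.of_mul_right
    rw [jg_mul (by omega) (by omega) hab, iha hoa hsa, ihb hob hsb]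
    have hJ : J((a : ℤ) | b) * J((b : ℤ) | a) = if a % 4 = 3 ∧ b % 4 = 3 then -1 else 1 := by
      have hg : (a : ℤ).gcd b = 1 := by
        simpa using hab
      have hg' : (b : ℤ).gcd a = 1 := by
        rw [Int.gcd_comm]; exact hg
      have hsq1 : J((a : ℤ) | b) * J((a : ℤ) | b) = 1 := by
        rcases jacobiSym.eq_one_or_neg_one hg with h | h <;> rw [h] <;> norm_num
      rcases Nat.odd_mod_four_iff.mp hoa with h4a | h4a
      · rw [if_neg (by omega), ← jacobiSym.quadratic_reciprocity_one_mod_four h4a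
          (Nat.odd_iff.mpr hob)]
        exact hsq1
      · rcases Nat.odd_mod_four_iff.mp hob with h4b | h4b
        · rw [if_neg (by omega), jacobiSym.quadratic_reciprocity_one_mod_four h4b
            (Nat.odd_iff.mpr hoa)]
          exact hsq1
        · rw [if_pos ⟨h4a, h4b⟩]
          have := jacobiSym.quadratic_reciprocity_three_mod_four h4a h4b
          have h5 : J((b : ℤ) | a) = - J((a : ℤ) | b) := by rw [this]; ring
          rw [h5]
          linarith
    rw [hJ]
    have hs : ((√((a * b : ℕ) : ℝ) : ℝ) : ℂ) = ((√(a:ℝ) : ℝ) : ℂ) * ((√(b:ℝ) : ℝ) : ℂ) := by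
      push_cast
      rw [Real.sqrt_mul (by positivity)]
      push_cast
      rfl
    rw [hs]
    have hm4 : (a * b) % 4 = (a % 4) * (b % 4) % 4 := Nat.mul_mod _ _ _
    rcases Nat.odd_mod_four_iff.mp hoa with h4a | h4a <;>
      rcases Nat.odd_mod_four_iff.mp hob with h4b | h4b
    · rw [if_neg (by omega), if_pos h4a, if_pos h4b, if_pos (by rw [hm4, h4a, h4b])]
      push_cast; ring
    · rw [if_neg (by omega), if_pos h4a, if_neg (by omega), if_neg (by rw [hm4, h4a, h4b]; norm_num)]
      push_cast; ring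
    · rw [if_neg (by omega), if_neg (by omega), if_pos h4b, if_neg (by rw [hm4, h4a, h4b]; norm_num)]
      push_cast; ring
    · rw [if_pos ⟨h4a, h4b⟩, if_neg (by omega), if_neg (by omega),
        if_pos (by rw [hm4, h4a, h4b])]
      push_cast
      linear_combination (-((√(a:ℝ) : ℝ) : ℂ) * ((√(b:ℝ) : ℝ) : ℂ)) * Complex.I_mul_I

end Pool.Agent.MDSL
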