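import Pool.Agent.MDSL.Defs

/-!
# L7: the series `∑_{l odd} φ(l) l ^ (-1 - u)`
-/

set_option autoImplicit false

open Complex Filter Topology
open scoped NumberTheorySymbols

namespace Pool.Agent.MDSL

theorem T_char_two (n : ℕ) :
    (1 : DirichletCharacter ℂ 2) (n : ZMod 2) = if n % 2 = 1 then 1 else 0 := by
  rcases Nat.mod_two_eq_zero_or_one n with h | h
  · have h1 : ((n : ℕ) : ZMod 2) = 0 := by
      rw [ZMod.natCast_eq_zero_iff]; exact Nat.dvd_of_mod_eq_zero h
    rw [h1, h]
    simpa using MulChar.map_nonunit (1 : DirichletCharacter ℂ 2) not_isUnit_zero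
  · have h1 : ((n : ℕ) : ZMod 2) = 1 := by
      have : ((n : ℕ) : ZMod 2) = ((1 : ℕ) : ZMod 2) := by
        rw [ZMod.natCast_eq_natCast_iff]; exact h
      simpa using this
    rw [h1, h]
    simp

theorem T_conv : LSeries.convolution (fun n : ℕ => if n % 2 = 1 then (Nat.totient n : ℂ) else 0)
    (fun n : ℕ => if n % 2 = 1 then (1 : ℂ) else 0) =
    fun n : ℕ => if n % 2 = 1 then (n : ℂ) else 0 := by
  rw [LSeries.convolution_def]
  funext n
  by_cases hn : n % 2 = 1
  · rw [if_pos hn]
    have hn0 : n ≠ 0 := by omega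
    have h1 : ∀ p ∈ n.divisorsAntidiagonal,
        (if p.1 % 2 = 1 then (Nat.totient p.1 : ℂ) else 0) * (if p.2 % 2 = 1 then (1 : ℂ) else 0) =
        (fun d : ℕ => (Nat.totient d : ℂ)) p.1 := by
      intro p hp
      have hp' := (Nat.mem_divisorsAntidiagonal.1 hp).1
      have h2 : (p.1 * p.2) % 2 = 1 := by rw [hp']; exact hn
      have h3 : p.1 % 2 = 1 ∧ p.2 % 2 = 1 := by
        rcases Nat.mod_two_eq_zero_or_one p.1 with a | a <;>
        rcases Nat.mod_two_eq_zero_or_one p.2 with b | b <;>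
        simp [Nat.mul_mod, a, b] at h2 ⊢
      rw [if_pos h3.1, if_pos h3.2, mul_one]
    rw [Finset.sum_congr rfl h1,
      Nat.sum_divisorsAntidiagonal (f := fun (d : ℕ) (_ : ℕ) => (Nat.totient d : ℂ))]
    rw [← Nat.cast_sum, Nat.sum_totient]
  · rw [if_neg hn]
    refine Finset.sum_eq_zero fun p hp => ?_
    have hp' := (Nat.mem_divisorsAntidiagonal.1 hp).1
    by_cases h1 : p.1 % 2 = 1
    · by_cases h2 : p.2 % 2 = 1
      · exfalso
        apply hn
        rw [← hp', Nat.mul_mod, h1, h2]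
      · rw [if_neg h2, mul_zero]
    · rw [if_neg h1, zero_mul]

/-- `∑_{l odd} φ(l) l ^ (-1 - u)` is not `0` for `Re u > 1` -/
theorem T_ne_zero {u : ℂ} (hu : 1 < u.re) :
    Summable (fun l : ℕ => if l % 2 = 1 then (Nat.totient l : ℂ) * (l : ℂ) ^ (-(u + 1)) else 0) ∧
    ∑' l : ℕ, (if l % 2 = 1 then (Nat.totient l : ℂ) * (l : ℂ) ^ (-(u + 1)) else 0) ≠ 0 := by
  set f : ℕ → ℂ := fun n : ℕ => if n % 2 = 1 then (Nat.totient n : ℂ) else 0 with hf
  set g : ℕ → ℂ := fun n : ℕ => if n % 2 = 1 then (1 : ℂ) else 0 with hg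
  have hterm : (fun l : ℕ => if l % 2 = 1 then (Nat.totient l : ℂ) * (l : ℂ) ^ (-(u + 1)) else 0) =
      LSeries.term f (u + 1) := by
    funext l
    rcases eq_or_ne l 0 with rfl | hl
    · simp
    · rw [LSeries.term_of_ne_zero hl, hf, cpow_neg]
      by_cases h : l % 2 = 1
      · simp only [h, if_true]; rw [div_eq_mul_inv]
      · simp only [h, if_false]; simp
  have hfs : LSeriesSummable f (u + 1) := by
    refine LSeriesSummable_of_le_const_mul_rpow (x := 2) ?_ ⟨1, fun n hn => ?_⟩
    · rw [add_re, one_re]; linarith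
    · rw [hf, one_mul]
      norm_num
      split_ifs with h
      · rw [RCLike.norm_natCast]
        exact_mod_cast Nat.totient_le n
      · simp
  have hgs : LSeriesSummable g (u + 1) := by
    refine LSeriesSummable_of_le_const_mul_rpow (x := 1) ?_ ⟨1, fun n hn => ?_⟩
    · rw [add_re, one_re]; linarith
    · rw [hg, one_mul]
      norm_num
      split_ifs with h <;> simp
  have hconv := LSeries_convolution' hfs hgs
  rw [hf, hg, T_conv, ← hf, ← hg] at hconv
  have hh : LSeries (fun n : ℕ => if n % 2 = 1 then (n : ℂ) else 0) (u + 1) =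
      LSeries (fun n : ℕ => (1 : DirichletCharacter ℂ 2) (n : ZMod 2)) u := by
    unfold LSeries
    congr 1
    funext n
    rcases eq_or_ne n 0 with rfl | hn
    · simp
    · rw [LSeries.term_of_ne_zero hn, LSeries.term_of_ne_zero hn, T_char_two]
      have hn' : (n : ℂ) ≠ 0 := by exact_mod_cast hn
      by_cases h : n % 2 = 1
      · simp only [h, if_true]
        rw [cpow_add _ _ hn', cpow_one]
        field_simp
      · simp only [h, if_false]; simp
  have hne := DirichletCharacter.LSeries_ne_zero_of_one_lt_re (1 : DirichletCharacter ℂ 2) hu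
  rw [hterm]
  refine ⟨hfs, fun h0 => ?_⟩
  apply hne
  rw [← hh, hconv]
  have h1 : LSeries f (u + 1) = 0 := h0
  rw [h1, zero_mul]

end Pool.Agent.MDSL
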