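import Pool.Agent.MDSL.Abel
import Pool.Agent.MDSL.Count
import Pool.Agent.MDSL.Euler
import Pool.Agent.MDSL.Jac
import Pool.Agent.MDSL.T

/-!
# The mean value: some `L(s, (r / ·))` does not vanish
-/

set_option autoImplicit false

open Complex Filter Topology
open scoped NumberTheorySymbols
open Pool.Agent.MDS Pool.Agent.TubeDS

namespace Pool.Agent.MDSL

private theorem sum_rpow_le_succ {a : ℝ} (ha : 0 < a) (ha1 : a < 1) (N : ℕ) :
    ∑ n ∈ Finset.range (N + 1), (n : ℝ) ^ (a - 1) ≤ (N : ℝ) ^ a / a := by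
  induction N with
  | zero =>
    simp only [zero_add, Finset.range_one, Finset.sum_singleton, Nat.cast_zero]
    rw [Real.zero_rpow (by linarith), Real.zero_rpow ha.ne']
    simp
  | succ N ih =>
    rw [Finset.sum_range_succ]
    have hM : (0 : ℝ) < ((N + 1 : ℕ) : ℝ) := by positivity
    set M : ℝ := ((N + 1 : ℕ) : ℝ) with hMdef
    have hN : (N : ℝ) = M * (1 + (-(1 / M))) := by
      have : M = (N : ℝ) + 1 := by rw [hMdef]; push_cast; ring
      field_simp
      linarith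
    have hM1 : 1 ≤ M := by
      rw [hMdef]; push_cast
      have : (0 : ℝ) ≤ N := Nat.cast_nonneg _
      linarith
    have h1M : (-1 : ℝ) ≤ -(1 / M) := by
      have : 1 / M ≤ 1 := by rw [div_le_one hM]; exact hM1
      linarith
    have hb := rpow_one_add_le_one_add_mul_self (s := -(1 / M)) h1M ha.le ha1.le
    have h0 : (0 : ℝ) ≤ 1 + (-(1 / M)) := by linarith
    have h3 : (N : ℝ) ^ a ≤ M ^ a * (1 + a * (-(1 / M))) := by
      rw [hN, Real.mul_rpow hM.le h0]
      exact mul_le_mul_of_nonneg_left hb (by positivity)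
    have h4 : M ^ (a - 1) = M ^ a / M := by
      rw [Real.rpow_sub hM, Real.rpow_one]
    rw [h4]
    have h5 : (N : ℝ) ^ a / a + M ^ a / M ≤ M ^ a / a := by
      rw [div_add' _ _ _ ha.ne', div_le_div_iff_of_pos_right ha]
      calc (N : ℝ) ^ a + M ^ a / M * a ≤ M ^ a * (1 + a * (-(1 / M))) + M ^ a / M * a := by linarith
        _ = M ^ a := by ring
    linarith

/-- telescoping bound for `∑ n ^ (a - 1)` -/
theorem sum_rpow_le {a : ℝ} (ha : 0 < a) (ha1 : a < 1) (N : ℕ) :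
    ∑ n ∈ Finset.range N, (n : ℝ) ^ (a - 1) ≤ (N : ℝ) ^ a / a := by
  rcases N with _ | N
  · simp [Real.zero_rpow ha.ne']
  · refine (sum_rpow_le_succ ha ha1 N).trans ?_
    gcongr
    simp

/-- the two kinds of odd `r` together -/
theorem bps_lam : ∃ C : ℝ, 0 < C ∧ ∀ r : ℕ, r % 2 = 1 → ¬ IsSquare r →
    BPS (lam r) (C * (√r * (1 + Real.log r))) := by
  obtain ⟨C1, hC1, h1⟩ := bps_fA
  obtain ⟨C2, hC2, h2⟩ := bps_fB
  refine ⟨C1 + C2, by linarith, fun r hr hns => ?_⟩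
  have hr1 : (1 : ℝ) ≤ r := by
    have : 1 ≤ r := by omega
    exact_mod_cast this
  have hpos : 0 ≤ √(r : ℝ) * (1 + Real.log r) :=
    mul_nonneg (Real.sqrt_nonneg _) (by have := Real.log_nonneg hr1; linarith)
  rcases (by omega : r % 4 = 1 ∨ r % 4 = 3) with h | h
  · rw [lam_eq_fA h]
    have hb := h1 r hr hns
    exact ⟨hb.zero, hb.le_one, fun N => (hb.sum_le N).trans (by nlinarith)⟩
  · rw [lam_eq_fB h]
    have hb := h2 r hr hns
    exact ⟨hb.zero, hb.le_one, fun N => (hb.sum_le N).trans (by nlinarith)⟩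

theorem norm_lam_le (r n : ℕ) : ‖lam r n‖ ≤ 1 := by
  unfold lam
  split_ifs
  · rw [Complex.norm_intCast]
    rcases jacobiSym.trichotomy (r : ℤ) n with h | h | h <;> rw [h] <;> simp
  · simp

theorem lam_zero (r : ℕ) : lam r 0 = 0 := by simp [lam]

/-- bound for the row of an odd nonsquare `r` -/
theorem row_nonsq {s : ℂ} (hs : 0 < s.re) {B : ℝ} {r : ℕ} (hb : BPS (lam r) B)
    (hz : gAb (lam r) s = 0) {N : ℕ} (hN : 1 ≤ N) :
    ‖∑ n ∈ Finset.range N, lam r n * (n : ℂ) ^ (-s)‖ ≤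
      B * (1 + ‖s‖ / s.re) * (N : ℝ) ^ (-s.re) := by
  have := gAb_tail hb hs hN
  rwa [hz, zero_sub, norm_neg] at this

theorem norm_nat_cpow (n : ℕ) {s : ℂ} (hs : s.re ≠ 0) : ‖(n : ℂ) ^ (-s)‖ ≤ (n : ℝ) ^ (-s.re) := by
  rcases Nat.eq_zero_or_pos n with rfl | hn
  · have : -s ≠ 0 := fun h => hs (by simpa using congrArg Complex.re h)
    rw [Nat.cast_zero, Complex.zero_cpow this]
    simp only [norm_zero, Nat.cast_zero]
    rw [Real.zero_rpow (by simpa using hs)]
  · rw [Complex.norm_natCast_cpow_of_pos hn]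
    simp

/-- trivial bound for a row -/
theorem row_triv {s : ℂ} (hs : 0 < s.re) (hs1 : s.re < 1) (r N : ℕ) :
    ‖∑ n ∈ Finset.range N, lam r n * (n : ℂ) ^ (-s)‖ ≤ (N : ℝ) ^ (1 - s.re) / (1 - s.re) := by
  refine (norm_sum_le _ _).trans ?_
  refine le_trans (Finset.sum_le_sum (g := fun n : ℕ => (n : ℝ) ^ ((1 - s.re) - 1)) ?_)
    (sum_rpow_le (by linarith) (by linarith) N)
  intro n _
  rw [norm_mul]
  have h1 := norm_lam_le r n
  have h2 := norm_nat_cpow n (s := s) hs.ne'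
  have h3 : (1 - s.re) - 1 = -s.re := by ring
  rw [h3]
  calc ‖lam r n‖ * ‖(n : ℂ) ^ (-s)‖ ≤ 1 * ‖(n : ℂ) ^ (-s)‖ :=
        mul_le_mul_of_nonneg_right h1 (norm_nonneg _)
    _ ≤ _ := by rw [one_mul]; exact h2

/-- number of squares below `N` -/
theorem card_sq_le (N : ℕ) : (((Finset.range N).filter IsSquare).card : ℝ) ≤ √N + 1 := by
  have h : (Finset.range N).filter IsSquare ⊆ (Finset.range (Nat.sqrt N + 1)).image (fun l => l * l) := by
    intro r hr
    rw [Finset.mem_filter, Finset.mem_range] at hr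
    obtain ⟨hrN, l, hl⟩ := hr
    rw [Finset.mem_image]
    refine ⟨l, ?_, hl.symm⟩
    rw [Finset.mem_range, Nat.lt_succ_iff, Nat.le_sqrt]
    omega
  have h2 := (Finset.card_le_card h).trans Finset.card_image_le
  rw [Finset.card_range] at h2
  have h3 : ((Nat.sqrt N : ℕ) : ℝ) ≤ √N := Real.nat_sqrt_le_real_sqrt
  have h4 : (((Finset.range N).filter IsSquare).card : ℝ) ≤ ((Nat.sqrt N + 1 : ℕ) : ℝ) := by
    exact_mod_cast h2
  push_cast at h4
  linarith

/-- the double sum -/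
noncomputable def dbl (s : ℂ) (N : ℕ) : ℂ :=
  ∑ r ∈ (Finset.range N).filter (fun r => r % 2 = 1), ∑ n ∈ Finset.range N, lam r n * (n : ℂ) ^ (-s)

/-- first evaluation of the double sum -/
theorem dbl_le {s : ℂ} (hs : 1 / 2 < s.re) (hs1 : s.re < 1)
    (hz : ∀ r : ℕ, r % 2 = 1 → ¬ IsSquare r → gAb (lam r) s = 0) :
    ∃ K : ℝ, ∀ N : ℕ, 1 ≤ N → ‖dbl s N‖ ≤ K * ((1 + Real.log N) * (N : ℝ) ^ (3 / 2 - s.re)) := by
  obtain ⟨C, hC, hb⟩ := bps_lam
  have hs0 : 0 < s.re := by linarith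
  set κ : ℝ := 1 + ‖s‖ / s.re with hκ
  have hκ0 : 0 < κ := by positivity
  refine ⟨C * κ + 2 / (1 - s.re), fun N hN => ?_⟩
  have hN1 : (1 : ℝ) ≤ N := by exact_mod_cast hN
  have hN0 : (0 : ℝ) < N := by linarith
  have hlog : 0 ≤ Real.log N := Real.log_nonneg hN1
  have hsplit : dbl s N =
      ∑ r ∈ ((Finset.range N).filter (fun r => r % 2 = 1)).filter (fun r => ¬ IsSquare r),
        ∑ n ∈ Finset.range N, lam r n * (n : ℂ) ^ (-s) +
      ∑ r ∈ ((Finset.range N).filter (fun r => r % 2 = 1)).filter (fun r => ¬ ¬ IsSquare r),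
        ∑ n ∈ Finset.range N, lam r n * (n : ℂ) ^ (-s) := by
    unfold dbl
    rw [Finset.sum_filter_add_sum_filter_not]
  have e1 : ‖∑ r ∈ ((Finset.range N).filter (fun r => r % 2 = 1)).filter (fun r => ¬ IsSquare r),
        ∑ n ∈ Finset.range N, lam r n * (n : ℂ) ^ (-s)‖ ≤
      C * κ * ((1 + Real.log N) * (N : ℝ) ^ (3 / 2 - s.re)) := by
    refine (norm_sum_le _ _).trans ?_
    have hterm : ∀ r ∈ ((Finset.range N).filter (fun r => r % 2 = 1)).filter (fun r => ¬ IsSquare r),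
        ‖∑ n ∈ Finset.range N, lam r n * (n : ℂ) ^ (-s)‖ ≤
          C * (√N * (1 + Real.log N)) * κ * (N : ℝ) ^ (-s.re) := by
      intro r hr
      rw [Finset.mem_filter, Finset.mem_filter, Finset.mem_range] at hr
      obtain ⟨⟨hrN, hr1⟩, hns⟩ := hr
      refine (row_nonsq hs0 (hb r hr1 hns) (hz r hr1 hns) hN).trans ?_
      have hr0 : (1 : ℝ) ≤ r := by
        have : 1 ≤ r := by omega
        exact_mod_cast this
      have hrN' : (r : ℝ) ≤ N := by exact_mod_cast hrN.le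
      have hl : Real.log r ≤ Real.log N := Real.log_le_log (by linarith) hrN'
      have hl0 : 0 ≤ Real.log r := Real.log_nonneg hr0
      gcongr
    refine (Finset.sum_le_sum hterm).trans ?_
    rw [Finset.sum_const, nsmul_eq_mul]
    have hcard : ((((Finset.range N).filter (fun r => r % 2 = 1)).filter
        (fun r => ¬ IsSquare r)).card : ℝ) ≤ N := by
      have := ((Finset.card_filter_le ((Finset.range N).filter (fun r => r % 2 = 1))
        (fun r => ¬ IsSquare r)).trans (Finset.card_filter_le _ _))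
      rw [Finset.card_range] at this
      exact_mod_cast this
    have hNpow : (N : ℝ) * (√N * (N : ℝ) ^ (-s.re)) = (N : ℝ) ^ (3 / 2 - s.re) := by
      rw [Real.sqrt_eq_rpow, ← Real.rpow_add hN0]
      nth_rw 1 [← Real.rpow_one (N : ℝ)]
      rw [← Real.rpow_add hN0]
      congr 1
      ring
    calc _ ≤ (N : ℝ) * (C * (√N * (1 + Real.log N)) * κ * (N : ℝ) ^ (-s.re)) := by
          apply mul_le_mul_of_nonneg_right hcard
          positivity
      _ = C * κ * ((1 + Real.log N) * ((N : ℝ) * (√N * (N : ℝ) ^ (-s.re)))) := by ring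
      _ = _ := by rw [hNpow]
  have e2 : ‖∑ r ∈ ((Finset.range N).filter (fun r => r % 2 = 1)).filter (fun r => ¬ ¬ IsSquare r),
        ∑ n ∈ Finset.range N, lam r n * (n : ℂ) ^ (-s)‖ ≤
      2 / (1 - s.re) * ((1 + Real.log N) * (N : ℝ) ^ (3 / 2 - s.re)) := by
    refine (norm_sum_le _ _).trans ?_
    refine (Finset.sum_le_sum (fun r _ => row_triv hs0 hs1 r N)).trans ?_
    rw [Finset.sum_const, nsmul_eq_mul]
    have hcard : ((((Finset.range N).filter (fun r => r % 2 = 1)).filter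
        (fun r => ¬ ¬ IsSquare r)).card : ℝ) ≤ 2 * √N := by
      have h1 : ((Finset.range N).filter (fun r => r % 2 = 1)).filter (fun r => ¬ ¬ IsSquare r) ⊆
          (Finset.range N).filter IsSquare := by
        intro r hr
        rw [Finset.mem_filter, Finset.mem_filter] at hr
        rw [Finset.mem_filter]
        exact ⟨hr.1.1, not_not.mp hr.2⟩
      have h2 := card_sq_le N
      have h3 : ((((Finset.range N).filter (fun r => r % 2 = 1)).filter
        (fun r => ¬ ¬ IsSquare r)).card : ℝ) ≤ (((Finset.range N).filter IsSquare).card : ℝ) := by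
        exact_mod_cast Finset.card_le_card h1
      have h4 : (1 : ℝ) ≤ √N := by
        rw [Real.one_le_sqrt]; exact hN1
      linarith
    have hNpow : √N * (N : ℝ) ^ (1 - s.re) = (N : ℝ) ^ (3 / 2 - s.re) := by
      rw [Real.sqrt_eq_rpow, ← Real.rpow_add hN0]
      congr 1
      ring
    have h1s : 0 < 1 - s.re := by linarith
    calc _ ≤ (2 * √N) * ((N : ℝ) ^ (1 - s.re) / (1 - s.re)) := by
          apply mul_le_mul_of_nonneg_right hcard
          positivity
      _ = 2 / (1 - s.re) * (√N * (N : ℝ) ^ (1 - s.re)) := by ring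
      _ = 2 / (1 - s.re) * ((1 : ℝ) * (N : ℝ) ^ (3 / 2 - s.re)) := by rw [hNpow, one_mul]
      _ ≤ _ := by
          gcongr
          linarith
  rw [hsplit]
  refine (norm_add_le _ _).trans ?_
  rw [add_mul]
  exact add_le_add e1 e2


/-- the summand of the main term -/
noncomputable def gT (s : ℂ) (l : ℕ) : ℂ :=
  if l % 2 = 1 then (Nat.totient l : ℂ) * (l : ℂ) ^ (-(2 * s + 1)) else 0

theorem dbl_swap (s : ℂ) (N : ℕ) :
    dbl s N = ∑ n ∈ (Finset.range N).filter (fun n => n % 2 = 1),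
      (n : ℂ) ^ (-s) * ∑ m ∈ Finset.range N, fA n m := by
  unfold dbl
  rw [Finset.sum_comm, Finset.sum_filter]
  refine Finset.sum_congr rfl fun n _ => ?_
  split_ifs with hn
  · rw [Finset.mul_sum, Finset.sum_filter]
    refine Finset.sum_congr rfl fun r _ => ?_
    by_cases hr : r % 2 = 1
    · simp only [hr, if_true, lam, fA, hn]
      ring
    · simp [hr, fA]
  · refine Finset.sum_eq_zero fun r _ => ?_
    simp [lam, hn]

theorem sq_cpow {l : ℕ} (hl : 0 < l) (s : ℂ) :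
    (((l ^ 2 : ℕ) : ℂ)) ^ (-s) = (l : ℂ) ^ (-(2 * s)) := by
  have hl0 : (l : ℂ) ≠ 0 := by exact_mod_cast hl.ne'
  rw [pow_two, Nat.cast_mul, Complex.natCast_mul_natCast_cpow, ← Complex.cpow_add _ _ hl0]
  congr 1
  ring

theorem main_term {s : ℂ} (hs : 1 / 2 < s.re) {l : ℕ} (hl : l % 2 = 1) (N : ℕ) :
    ‖(((l ^ 2 : ℕ) : ℂ)) ^ (-s) * ∑ m ∈ Finset.range N, fA (l ^ 2) m - (N : ℂ) / 2 * gT s l‖ ≤ 2 := by
  have hl0 : 0 < l := by omega
  have hlC : (l : ℂ) ≠ 0 := by exact_mod_cast hl0.ne'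
  have hg : (N : ℂ) / 2 * gT s l =
      (((l ^ 2 : ℕ) : ℂ)) ^ (-s) * ((N : ℂ) * (Nat.totient l : ℂ) / (2 * l)) := by
    rw [sq_cpow hl0]
    unfold gT
    rw [if_pos hl, neg_add, Complex.cpow_add _ _ hlC, Complex.cpow_neg_one]
    field_simp
  rw [hg, ← mul_sub, norm_mul]
  have h1 := count_sq hl N
  have h2 : ‖(((l ^ 2 : ℕ) : ℂ)) ^ (-s)‖ = (l : ℝ) ^ (-(2 * s.re)) := by
    rw [sq_cpow hl0, Complex.norm_natCast_cpow_of_pos hl0]
    simp
  rw [h2]
  have hl1 : (1 : ℝ) ≤ l := by exact_mod_cast hl0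
  have h3 : (l : ℝ) ^ (-(2 * s.re)) * l ≤ 1 := by
    have : (l : ℝ) ^ (-(2 * s.re)) * l = (l : ℝ) ^ (-(2 * s.re) + 1) := by
      rw [Real.rpow_add (by linarith), Real.rpow_one]
    rw [this]
    exact Real.rpow_le_one_of_one_le_of_nonpos hl1 (by linarith)
  calc (l : ℝ) ^ (-(2 * s.re)) * _ ≤ (l : ℝ) ^ (-(2 * s.re)) * (2 * l) :=
        mul_le_mul_of_nonneg_left h1 (by positivity)
    _ = 2 * ((l : ℝ) ^ (-(2 * s.re)) * l) := by ring
    _ ≤ 2 := by linarith

/-- the squares below `N` -/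
theorem sum_squares {N : ℕ} (hN : 1 ≤ N) (F : ℕ → ℂ) :
    ∑ n ∈ ((Finset.range N).filter (fun n => n % 2 = 1)).filter (fun n => ¬ ¬ IsSquare n), F n =
      ∑ l ∈ (Finset.range (Nat.sqrt (N - 1) + 1)).filter (fun l => l % 2 = 1), F (l ^ 2) := by
  symm
  refine Finset.sum_bij (fun l _ => l ^ 2) ?_ ?_ ?_ ?_
  · intro l hl
    rw [Finset.mem_filter, Finset.mem_range, Nat.lt_succ_iff, Nat.le_sqrt] at hl
    rw [Finset.mem_filter, Finset.mem_filter, Finset.mem_range]
    refine ⟨⟨?_, ?_⟩, ?_⟩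
    · have := hl.1
      rw [pow_two]
      omega
    · rw [Nat.pow_mod, hl.2]
    · rw [not_not]
      exact ⟨l, pow_two l⟩
  · intro a _ b _ hab
    exact Nat.pow_left_injective (n := 2) (by norm_num) hab
  · intro n hn
    rw [Finset.mem_filter, Finset.mem_filter, Finset.mem_range, not_not] at hn
    obtain ⟨⟨hnN, hno⟩, l, hl⟩ := hn
    refine ⟨l, ?_, by rw [pow_two, hl]⟩
    rw [Finset.mem_filter, Finset.mem_range, Nat.lt_succ_iff, Nat.le_sqrt]
    refine ⟨by omega, ?_⟩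
    rw [hl, Nat.mul_mod] at hno
    rcases Nat.mod_two_eq_zero_or_one l with h | h
    · rw [h] at hno; simp at hno
    · exact h
  · intro l _
    rfl

/-- second evaluation of the double sum -/
theorem dbl_main {s : ℂ} (hs : 1 / 2 < s.re) (hs1 : s.re < 1) :
    ∃ K : ℝ, ∀ N : ℕ, 1 ≤ N →
      ‖dbl s N - (N : ℂ) / 2 * ∑ l ∈ Finset.range (Nat.sqrt (N - 1) + 1), gT s l‖ ≤
        K * ((1 + Real.log N) * (N : ℝ) ^ (3 / 2 - s.re)) := by
  obtain ⟨C, hC, hb⟩ := bps_fA
  have hs0 : 0 < s.re := by linarith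
  refine ⟨C / (3 / 2 - s.re) + 4, fun N hN => ?_⟩
  have hN1 : (1 : ℝ) ≤ N := by exact_mod_cast hN
  have hN0 : (0 : ℝ) < N := by linarith
  have hlog : 0 ≤ Real.log N := Real.log_nonneg hN1
  have ha : 0 < 3 / 2 - s.re := by linarith
  have hsplit : dbl s N =
      ∑ n ∈ ((Finset.range N).filter (fun n => n % 2 = 1)).filter (fun n => ¬ IsSquare n),
        (n : ℂ) ^ (-s) * ∑ m ∈ Finset.range N, fA n m +
      ∑ n ∈ ((Finset.range N).filter (fun n => n % 2 = 1)).filter (fun n => ¬ ¬ IsSquare n),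
        (n : ℂ) ^ (-s) * ∑ m ∈ Finset.range N, fA n m := by
    rw [dbl_swap, Finset.sum_filter_add_sum_filter_not]
  have e1 : ‖∑ n ∈ ((Finset.range N).filter (fun n => n % 2 = 1)).filter (fun n => ¬ IsSquare n),
        (n : ℂ) ^ (-s) * ∑ m ∈ Finset.range N, fA n m‖ ≤
      C / (3 / 2 - s.re) * ((1 + Real.log N) * (N : ℝ) ^ (3 / 2 - s.re)) := by
    refine (norm_sum_le _ _).trans ?_
    have hterm : ∀ n ∈ ((Finset.range N).filter (fun n => n % 2 = 1)).filter (fun n => ¬ IsSquare n),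
        ‖(n : ℂ) ^ (-s) * ∑ m ∈ Finset.range N, fA n m‖ ≤
          C * (1 + Real.log N) * (n : ℝ) ^ ((3 / 2 - s.re) - 1) := by
      intro n hn
      rw [Finset.mem_filter, Finset.mem_filter, Finset.mem_range] at hn
      obtain ⟨⟨hnN, hn1⟩, hns⟩ := hn
      have hn0 : 0 < n := by omega
      have hn0' : (0 : ℝ) < n := by exact_mod_cast hn0
      have hn1' : (1 : ℝ) ≤ n := by exact_mod_cast hn0
      have hnN' : (n : ℝ) ≤ N := by exact_mod_cast hnN.le
      have hl : Real.log n ≤ Real.log N := Real.log_le_log hn0' hnN'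
      rw [norm_mul]
      have h2 := (hb n hn1 hns).sum_le N
      have h1 := norm_nat_cpow n (s := s) hs0.ne'
      have h3 : (n : ℝ) ^ (-s.re) * √n = (n : ℝ) ^ ((3 / 2 - s.re) - 1) := by
        rw [Real.sqrt_eq_rpow, ← Real.rpow_add hn0']
        congr 1
        ring
      have hln0 : 0 ≤ Real.log n := Real.log_nonneg hn1'
      calc _ ≤ (n : ℝ) ^ (-s.re) * (C * (√n * (1 + Real.log n))) := by
            apply mul_le_mul h1 h2 (norm_nonneg _) (by positivity)
        _ = C * (1 + Real.log n) * ((n : ℝ) ^ (-s.re) * √n) := by ring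
        _ ≤ C * (1 + Real.log N) * ((n : ℝ) ^ (-s.re) * √n) := by
            gcongr
        _ = _ := by rw [h3]
    refine (Finset.sum_le_sum hterm).trans ?_
    rw [← Finset.mul_sum]
    have hsub : ∑ n ∈ ((Finset.range N).filter (fun n => n % 2 = 1)).filter (fun n => ¬ IsSquare n),
        (n : ℝ) ^ ((3 / 2 - s.re) - 1) ≤ (N : ℝ) ^ (3 / 2 - s.re) / (3 / 2 - s.re) := by
      refine le_trans (Finset.sum_le_sum_of_subset_of_nonneg
        ((Finset.filter_subset _ _).trans (Finset.filter_subset _ _)) ?_)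
        (sum_rpow_le ha (by linarith) N)
      intro n _ _
      positivity
    calc _ ≤ C * (1 + Real.log N) * ((N : ℝ) ^ (3 / 2 - s.re) / (3 / 2 - s.re)) := by
          apply mul_le_mul_of_nonneg_left hsub
          positivity
      _ = _ := by ring
  have hgT : ∑ l ∈ Finset.range (Nat.sqrt (N - 1) + 1), gT s l =
      ∑ l ∈ (Finset.range (Nat.sqrt (N - 1) + 1)).filter (fun l => l % 2 = 1), gT s l := by
    rw [Finset.sum_filter]
    refine Finset.sum_congr rfl fun l _ => ?_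
    unfold gT
    split_ifs <;> rfl
  have e2 : ‖∑ n ∈ ((Finset.range N).filter (fun n => n % 2 = 1)).filter (fun n => ¬ ¬ IsSquare n),
        (n : ℂ) ^ (-s) * ∑ m ∈ Finset.range N, fA n m -
        (N : ℂ) / 2 * ∑ l ∈ Finset.range (Nat.sqrt (N - 1) + 1), gT s l‖ ≤
      4 * ((1 + Real.log N) * (N : ℝ) ^ (3 / 2 - s.re)) := by
    rw [sum_squares hN (fun n => (n : ℂ) ^ (-s) * ∑ m ∈ Finset.range N, fA n m), hgT,
      Finset.mul_sum, ← Finset.sum_sub_distrib]
    refine (norm_sum_le _ _).trans ?_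
    refine (Finset.sum_le_sum (g := fun _ => (2 : ℝ)) ?_).trans ?_
    · intro l hl
      rw [Finset.mem_filter] at hl
      exact main_term hs hl.2 N
    · rw [Finset.sum_const, nsmul_eq_mul]
      have hc : ((((Finset.range (Nat.sqrt (N - 1) + 1)).filter (fun l => l % 2 = 1)).card : ℕ) : ℝ) ≤
          √N + 1 := by
        have h1 := Finset.card_filter_le (Finset.range (Nat.sqrt (N - 1) + 1)) (fun l => l % 2 = 1)
        rw [Finset.card_range] at h1
        have h2 : Nat.sqrt (N - 1) ≤ Nat.sqrt N := Nat.sqrt_le_sqrt (by omega)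
        have h3 : ((Nat.sqrt N : ℕ) : ℝ) ≤ √N := Real.nat_sqrt_le_real_sqrt
        have h4 : ((((Finset.range (Nat.sqrt (N - 1) + 1)).filter (fun l => l % 2 = 1)).card : ℕ) : ℝ)
            ≤ ((Nat.sqrt N + 1 : ℕ) : ℝ) := by exact_mod_cast h1.trans (by omega)
        push_cast at h4
        linarith
      have h5 : (1 : ℝ) ≤ √N := by rw [Real.one_le_sqrt]; exact hN1
      have h6 : √N ≤ (N : ℝ) ^ (3 / 2 - s.re) := by
        rw [Real.sqrt_eq_rpow]
        exact Real.rpow_le_rpow_of_exponent_le hN1 (by linarith)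
      have h7 : (N : ℝ) ^ (3 / 2 - s.re) ≤ (1 + Real.log N) * (N : ℝ) ^ (3 / 2 - s.re) := by
        have : 0 ≤ (N : ℝ) ^ (3 / 2 - s.re) := by positivity
        nlinarith
      linarith
  rw [hsplit, add_sub_assoc]
  refine (norm_add_le _ _).trans ?_
  rw [add_mul]
  exact add_le_add e1 e2

/-- the error term is `o(N)` -/
theorem err_tendsto {σ : ℝ} (hs : 1 / 2 < σ) (K : ℝ) :
    Tendsto (fun N : ℕ => K * ((1 + Real.log N) * (N : ℝ) ^ (3 / 2 - σ)) / N) atTop (𝓝 0) := by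
  have hδ : 0 < σ - 1 / 2 := by linarith
  have h1 : Tendsto (fun x : ℝ => x ^ (-(σ - 1 / 2))) atTop (𝓝 0) :=
    tendsto_rpow_neg_atTop hδ
  have h2 : Tendsto (fun x : ℝ => Real.log x / x ^ (σ - 1 / 2)) atTop (𝓝 0) :=
    (isLittleO_log_rpow_atTop hδ).tendsto_div_nhds_zero
  have h3 : Tendsto (fun x : ℝ => K * (x ^ (-(σ - 1 / 2)) + Real.log x / x ^ (σ - 1 / 2))) atTop
      (𝓝 0) := by
    have := (h1.add h2).const_mul K
    simpa using this
  have h4 := h3.comp (tendsto_natCast_atTop_atTop (R := ℝ))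
  refine h4.congr' ?_
  filter_upwards [eventually_ge_atTop 1] with N hN
  have hN0 : (0 : ℝ) < N := by exact_mod_cast hN
  simp only [Function.comp_apply]
  have h5 : (N : ℝ) ^ (3 / 2 - σ) = N * (N : ℝ) ^ (-(σ - 1 / 2)) := by
    nth_rw 2 [← Real.rpow_one (N : ℝ)]
    rw [← Real.rpow_add hN0]
    congr 1
    ring
  rw [h5, div_eq_mul_inv (Real.log N), ← Real.rpow_neg hN0.le]
  field_simp

theorem mean_nonvanishing {s : ℂ} (hs : 1 / 2 < s.re) (hs1 : s.re < 1) :
    ∃ r : ℕ, r % 2 = 1 ∧ ¬ IsSquare r ∧ gAb (lam r) s ≠ 0 := by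
  by_contra hcon
  push Not at hcon
  obtain ⟨K1, h1⟩ := dbl_le hs hs1 hcon
  obtain ⟨K2, h2⟩ := dbl_main hs hs1
  obtain ⟨hsum, hne⟩ := T_ne_zero (u := 2 * s) (by simp; linarith)
  have hT : Tendsto (fun M : ℕ => ∑ l ∈ Finset.range M, gT s l) atTop
      (𝓝 (∑' l : ℕ, gT s l)) := hsum.hasSum.tendsto_sum_nat
  have hne' : ∑' l : ℕ, gT s l ≠ 0 := hne
  have hL : Tendsto (fun N : ℕ => Nat.sqrt (N - 1) + 1) atTop atTop := by
    rw [tendsto_atTop]
    intro b
    filter_upwards [eventually_ge_atTop (b * b + 1)] with N hN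
    have : b ≤ Nat.sqrt (N - 1) := by
      rw [Nat.le_sqrt]
      omega
    omega
  have hT2 := hT.comp hL
  have hT3 : Tendsto (fun N : ℕ => (1 / 2 : ℂ) * ∑ l ∈ Finset.range (Nat.sqrt (N - 1) + 1), gT s l)
      atTop (𝓝 ((1 / 2 : ℂ) * ∑' l : ℕ, gT s l)) := hT2.const_mul _
  have hzero : Tendsto (fun N : ℕ => (1 / 2 : ℂ) *
      ∑ l ∈ Finset.range (Nat.sqrt (N - 1) + 1), gT s l) atTop (𝓝 0) := by
    refine squeeze_zero_norm' ?_ (err_tendsto hs (K1 + K2))
    filter_upwards [eventually_ge_atTop 1] with N hN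
    have hN0 : (0 : ℝ) < N := by exact_mod_cast hN
    have hNC : (N : ℂ) ≠ 0 := by exact_mod_cast (show N ≠ 0 by omega)
    rw [le_div_iff₀ hN0]
    have e : ‖(1 / 2 : ℂ) * ∑ l ∈ Finset.range (Nat.sqrt (N - 1) + 1), gT s l‖ * N =
        ‖(N : ℂ) / 2 * ∑ l ∈ Finset.range (Nat.sqrt (N - 1) + 1), gT s l‖ := by
      rw [show (N : ℂ) / 2 * ∑ l ∈ Finset.range (Nat.sqrt (N - 1) + 1), gT s l =
        ((1 / 2 : ℂ) * ∑ l ∈ Finset.range (Nat.sqrt (N - 1) + 1), gT s l) * N by ring,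
        norm_mul _ (N : ℂ), Complex.norm_natCast]
    rw [e]
    have h3 := h1 N hN
    have h4 := h2 N hN
    have h5 : ‖(N : ℂ) / 2 * ∑ l ∈ Finset.range (Nat.sqrt (N - 1) + 1), gT s l‖ ≤
        ‖dbl s N‖ +
        ‖dbl s N - (N : ℂ) / 2 * ∑ l ∈ Finset.range (Nat.sqrt (N - 1) + 1), gT s l‖ := by
      have := norm_sub_le (dbl s N)
        (dbl s N - (N : ℂ) / 2 * ∑ l ∈ Finset.range (Nat.sqrt (N - 1) + 1), gT s l)
      rwa [sub_sub_cancel] at this
    rw [add_mul]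
    linarith
  have := tendsto_nhds_unique hT3 hzero
  rw [mul_eq_zero] at this
  rcases this with h | h
  · norm_num at h
  · exact hne' h

end Pool.Agent.MDSL
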