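import Pool.Agent.MDSL.Defs
import Pool.Agent.MDSL.Crt
import Pool.Agent.MDSL.JacGauss

set_option autoImplicit false

open Complex Filter Topology
open scoped NumberTheorySymbols
open Pool.Agent.MDS Pool.Agent.TubeDS

namespace Pool.Agent.MDSL

/-- the value of the Gauss sums of the Jacobi symbol -/
def JacGauss : Prop := ∀ r : ℕ, r % 2 = 1 → Squarefree r →
  ∑ x ∈ Finset.range r, ((J((x : ℤ) | r) : ℤ) : ℂ) * exp (2 * Real.pi * I * x / r) =
    if r % 4 = 1 then ((√(r : ℝ) : ℝ) : ℂ) else I * ((√(r : ℝ) : ℝ) : ℂ)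

/-- the root number `eps d` is the one of the character -/
theorem eps_eq_rootNumber {d : ℕ} [NeZero d] (hd : IsFundDisc d) (h1 : 1 < d)
    {χ : DirichletCharacter ℂ d} (hχ : ∀ n : ℕ, n ≠ 0 → χ (n : ZMod d) = (kron d n : ℂ))
    (hprim : χ.IsPrimitive) (heven : χ.Even) (hinv : χ⁻¹ = χ) :
    eps d = DirichletCharacter.rootNumber χ := by
  have hne : χ ≠ 1 := by
    rintro rfl
    rw [DirichletCharacter.isPrimitive_def, DirichletCharacter.conductor_one] at hprim
    omega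
  have hdC : (d : ℂ) ≠ 0 := by exact_mod_cast (NeZero.ne d)
  have hfe := DirichletCharacter.IsPrimitive.completedLFunction_one_sub hprim (2 : ℂ)
  rw [hinv] at hfe
  have hcomp : ∀ s, DirichletCharacter.LFunction χ s =
      DirichletCharacter.completedLFunction χ s * (Gammaℝ s)⁻¹ := by
    intro s
    rw [DirichletCharacter.LFunction_eq_completed_div_gammaFactor χ s (Or.inr (by omega)),
      heven.gammaFactor_def, div_eq_mul_inv]
  obtain ⟨hdiff, hL, -, hf, -⟩ := Lc_spec hd h1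
  have hLc : Lc d = DirichletCharacter.LFunction χ := by
    have h2 : AnalyticOnNhd ℂ (Lc d) Set.univ := hdiff.differentiableOn.analyticOnNhd isOpen_univ
    have h3 : AnalyticOnNhd ℂ (DirichletCharacter.LFunction χ) Set.univ :=
      (DirichletCharacter.differentiable_LFunction hne).differentiableOn.analyticOnNhd isOpen_univ
    refine h2.eq_of_eventuallyEq h3 (z₀ := (2 : ℂ)) ?_
    have h4 : {s : ℂ | 1 < s.re} ∈ 𝓝 (2 : ℂ) :=
      (isOpen_lt continuous_const continuous_re).mem_nhds (by simp)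
    filter_upwards [h4] with s hs
    rw [hL s hs, DirichletCharacter.LFunction_eq_LSeries χ hs]
    unfold L
    apply LSeries_congr
    intro n hn
    exact (hχ n hn).symm
  have hL2 : DirichletCharacter.LFunction χ 2 ≠ 0 :=
    DirichletCharacter.LFunction_ne_zero_of_one_le_re χ (Or.inl hne) (by norm_num)
  have e0 := hf (-1) (by
    intro n h
    have := congrArg Complex.re h
    simp at this
    have h9 : (0 : ℝ) ≤ n := Nat.cast_nonneg n
    linarith)
  rw [hLc, show (1 : ℂ) - (-1) = 2 by norm_num, hcomp (-1)] at e0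
  rw [show (1 : ℂ) - 2 = -1 by norm_num] at hfe
  rw [hfe] at e0
  have hG2 : Gammaℝ (2 : ℂ) ≠ 0 := by
    apply Gammaℝ_ne_zero_of_re_pos
    norm_num
  have hGm : Gammaℝ (-1 : ℂ) ≠ 0 := by
    rw [Ne, Gammaℝ_eq_zero_iff, not_exists]
    intro n hn
    have := congrArg Complex.re hn
    simp at this
    have h5 : (1 : ℝ) = ((2 * n : ℕ) : ℝ) := by push_cast; exact this
    have h6 : 1 = 2 * n := by exact_mod_cast h5
    omega
  have hc2 : DirichletCharacter.completedLFunction χ 2 =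
      DirichletCharacter.LFunction χ 2 * Gammaℝ 2 := by
    rw [hcomp 2, inv_mul_cancel_right₀ hG2]
  rw [hc2] at e0
  unfold X at e0
  rw [show (1 : ℂ) - (-1) = 2 by norm_num, show (2 : ℂ) - 1 / 2 = 1 / 2 - (-1) by norm_num] at e0
  have hpow : (d : ℂ) ^ ((1 : ℂ) / 2 - (-1)) ≠ 0 := by
    rw [Ne, cpow_eq_zero_iff, not_and_or]
    exact Or.inl hdC
  have hk : (d : ℂ) ^ ((1 : ℂ) / 2 - (-1)) * DirichletCharacter.LFunction χ 2 * Gammaℝ 2 *
      (Gammaℝ (-1))⁻¹ ≠ 0 :=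
    mul_ne_zero (mul_ne_zero (mul_ne_zero hpow hL2) hG2) (inv_ne_zero hGm)
  apply mul_right_cancel₀ hk
  linear_combination -e0

/-- the Gauss sum as a sum over `range` -/
theorem gaussSum_eq_range {d : ℕ} [NeZero d] (χ : DirichletCharacter ℂ d) :
    gaussSum χ ZMod.stdAddChar =
      ∑ x ∈ Finset.range d, χ (x : ZMod d) * exp (2 * Real.pi * I * x / d) := by
  unfold gaussSum
  rw [Finset.sum_range]
  have : ∀ a : ZMod d, χ a * ZMod.stdAddChar a =
      χ ((a.val : ℕ) : ZMod d) * exp (2 * Real.pi * I * (a.val : ℕ) / d) := by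
    intro a
    rw [ZMod.natCast_zmod_val]
    congr 1
    have h := ZMod.stdAddChar_coe (N := d) (a.val : ℤ)
    rw [Int.cast_natCast, ZMod.natCast_zmod_val] at h
    rw [h]
    push_cast
    rfl
  simp_rw [this]
  obtain ⟨k, rfl⟩ : ∃ k, d = k + 1 := ⟨d - 1, by have := NeZero.ne d; omega⟩
  rfl

theorem exp_period {N : ℕ} (hN : 0 < N) {x y : ℕ} (h : x ≡ y [MOD N]) :
    exp (2 * Real.pi * I * x / N) = exp (2 * Real.pi * I * y / N) := by
  rw [Complex.exp_eq_exp_iff_exists_int]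
  have hNC : (N : ℂ) ≠ 0 := by exact_mod_cast hN.ne'
  have h' : (x : ℤ) ≡ (y : ℤ) [ZMOD N] := by rw [Int.natCast_modEq_iff]; exact h
  obtain ⟨c, hc⟩ := h'.symm.dvd
  refine ⟨c, ?_⟩
  have hc' : (x : ℂ) - y = N * c := by exact_mod_cast hc
  field_simp
  linear_combination hc'

/-- the Gauss sum of a product -/
theorem gauss_mul {q b : ℕ} (hq : 0 < q) (hb : 0 < b) (hcop : q.Coprime b)
    (ψ : DirichletCharacter ℤ q) :
    ∑ x ∈ Finset.range (q * b), ((ψ (x : ZMod q) * J((x : ℤ) | b) : ℤ) : ℂ) *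
      exp (2 * Real.pi * I * x / ((q * b : ℕ) : ℂ)) =
    ((ψ (b : ZMod q) * J((q : ℤ) | b) : ℤ) : ℂ) *
      (∑ a ∈ Finset.range q, ((ψ (a : ZMod q) : ℤ) : ℂ) * exp (2 * Real.pi * I * a / q)) *
      (∑ y ∈ Finset.range b, ((J((y : ℤ) | b) : ℤ) : ℂ) * exp (2 * Real.pi * I * y / b)) := by
  have hqC : (q : ℂ) ≠ 0 := by exact_mod_cast hq.ne'
  have hbC : (b : ℂ) ≠ 0 := by exact_mod_cast hb.ne'
  rw [sum_crt hq hb hcop]
  · rw [mul_assoc (((ψ (b : ZMod q) * J((q : ℤ) | b) : ℤ) : ℂ)), Finset.sum_mul_sum, Finset.mul_sum]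
    refine Finset.sum_congr rfl fun a _ => ?_
    rw [Finset.mul_sum]
    refine Finset.sum_congr rfl fun y _ => ?_
    have e1 : ψ ((b * a + q * y : ℕ) : ZMod q) = ψ (b : ZMod q) * ψ (a : ZMod q) := by
      push_cast
      rw [← map_mul]
      congr 1
      simp
    have e2 : J(((b * a + q * y : ℕ) : ℤ) | b) = J((q : ℤ) | b) * J((y : ℤ) | b) := by
      rw [← jacobiSym.mul_left]
      apply jacobiSym.mod_left'
      push_cast
      rw [add_comm, Int.add_mul_emod_self_left]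
    have e3 : exp (2 * Real.pi * I * ((b * a + q * y : ℕ) : ℂ) / ((q * b : ℕ) : ℂ)) =
        exp (2 * Real.pi * I * a / q) * exp (2 * Real.pi * I * y / b) := by
      rw [← Complex.exp_add]
      congr 1
      push_cast
      field_simp
    rw [e1, e2, e3]
    push_cast
    ring
  · intro x y hxy
    have h1 : (x : ZMod q) = y := (ZMod.natCast_eq_natCast_iff _ _ _).mpr (hxy.of_dvd (Dvd.intro _ rfl))
    have h2 : J((x : ℤ) | b) = J((y : ℤ) | b) := by
      apply jacobiSym.mod_left'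
      have h3 : (x : ℤ) ≡ (y : ℤ) [ZMOD b] := by
        rw [Int.natCast_modEq_iff]; exact hxy.of_dvd (Dvd.intro_left _ rfl)
      exact h3
    rw [h1, h2, exp_period (Nat.mul_pos hq hb) hxy]

theorem omega_eq : exp (2 * Real.pi * I * 1 / 8) = ((√2 : ℝ) : ℂ) / 2 * (1 + I) := by
  rw [show (2 : ℂ) * Real.pi * I * 1 / 8 = ((Real.pi / 4 : ℝ) : ℂ) * I by push_cast; ring,
    Complex.exp_mul_I, ← Complex.ofReal_cos, ← Complex.ofReal_sin, Real.cos_pi_div_four,
    Real.sin_pi_div_four]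
  push_cast
  ring

theorem exp_eight (k : ℕ) : exp (2 * Real.pi * I * k / 8) = (((√2 : ℝ) : ℂ) / 2 * (1 + I)) ^ k := by
  rw [← omega_eq, ← Complex.exp_nat_mul]
  congr 1
  ring

theorem sqrt2_sq : ((√2 : ℝ) : ℂ) ^ 2 = 2 := by
  rw [← Complex.ofReal_pow, Real.sq_sqrt (by norm_num)]
  norm_num

theorem om2 : (((√2 : ℝ) : ℂ) / 2 * (1 + I)) ^ 2 = I := by
  linear_combination (1 + I) ^ 2 / 4 * sqrt2_sq + (1 / 2 : ℂ) * I_sq

theorem gauss_chi4 : ∑ a ∈ Finset.range 4, ((ZMod.χ₄ (a : ZMod 4) : ℤ) : ℂ) *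
    exp (2 * Real.pi * I * a / (4 : ℕ)) = 2 * I := by
  have h : ∀ a : ℕ, exp (2 * Real.pi * I * a / (4 : ℕ)) = I ^ a := by
    intro a
    have h2 : I ^ a = exp (2 * Real.pi * I * ((2 * a : ℕ) : ℂ) / 8) := by
      rw [exp_eight, pow_mul, om2]
    rw [h2]
    congr 1
    push_cast
    ring
  simp_rw [h]
  rw [Finset.sum_range_succ, Finset.sum_range_succ, Finset.sum_range_succ, Finset.sum_range_one]
  have e0 : ZMod.χ₄ ((0 : ℕ) : ZMod 4) = 0 := by decide
  have e1 : ZMod.χ₄ ((1 : ℕ) : ZMod 4) = 1 := by decide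
  have e2 : ZMod.χ₄ ((2 : ℕ) : ZMod 4) = 0 := by decide
  have e3 : ZMod.χ₄ ((3 : ℕ) : ZMod 4) = -1 := by decide
  rw [e0, e1, e2, e3]
  push_cast
  linear_combination (-I) * I_sq

theorem gauss_chi8 : ∑ a ∈ Finset.range 8, ((ZMod.χ₈ (a : ZMod 8) : ℤ) : ℂ) *
    exp (2 * Real.pi * I * a / (8 : ℕ)) = 2 * ((√2 : ℝ) : ℂ) := by
  have h : ∀ a : ℕ, exp (2 * Real.pi * I * a / (8 : ℕ)) = (((√2 : ℝ) : ℂ) / 2 * (1 + I)) ^ a := by
    intro a
    rw [← exp_eight]
    congr 1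
  simp_rw [h]
  simp only [Finset.sum_range_succ, Finset.sum_range_zero]
  have e0 : ZMod.χ₈ ((0 : ℕ) : ZMod 8) = 0 := by decide
  have e1 : ZMod.χ₈ ((1 : ℕ) : ZMod 8) = 1 := by decide
  have e2 : ZMod.χ₈ ((2 : ℕ) : ZMod 8) = 0 := by decide
  have e3 : ZMod.χ₈ ((3 : ℕ) : ZMod 8) = -1 := by decide
  have e4 : ZMod.χ₈ ((4 : ℕ) : ZMod 8) = 0 := by decide
  have e5 : ZMod.χ₈ ((5 : ℕ) : ZMod 8) = -1 := by decide
  have e6 : ZMod.χ₈ ((6 : ℕ) : ZMod 8) = 0 := by decide
  have e7 : ZMod.χ₈ ((7 : ℕ) : ZMod 8) = 1 := by decide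
  rw [e0, e1, e2, e3, e4, e5, e6, e7]
  have f2 := om2
  set ω : ℂ := ((√2 : ℝ) : ℂ) / 2 * (1 + I) with hω
  have f3 : ω ^ 3 = I * ω := by rw [pow_succ, f2]
  have f5 : ω ^ 5 = -ω := by
    rw [show ω ^ 5 = (ω ^ 2) ^ 2 * ω by ring, f2, I_sq]; ring
  have f7 : ω ^ 7 = -(I * ω) := by
    rw [show ω ^ 7 = (ω ^ 2) ^ 2 * (ω ^ 2) * ω by ring, f2, I_sq]; ring
  rw [f3, f5, f7]
  push_cast
  rw [hω]
  linear_combination (-((√2 : ℝ) : ℂ)) * I_sq

theorem gauss_chi8' : ∑ a ∈ Finset.range 8, ((ZMod.χ₈' (a : ZMod 8) : ℤ) : ℂ) *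
    exp (2 * Real.pi * I * a / (8 : ℕ)) = I * (2 * ((√2 : ℝ) : ℂ)) := by
  have h : ∀ a : ℕ, exp (2 * Real.pi * I * a / (8 : ℕ)) = (((√2 : ℝ) : ℂ) / 2 * (1 + I)) ^ a := by
    intro a
    rw [← exp_eight]
    congr 1
  simp_rw [h]
  simp only [Finset.sum_range_succ, Finset.sum_range_zero]
  have e0 : ZMod.χ₈' ((0 : ℕ) : ZMod 8) = 0 := by decide
  have e1 : ZMod.χ₈' ((1 : ℕ) : ZMod 8) = 1 := by decide
  have e2 : ZMod.χ₈' ((2 : ℕ) : ZMod 8) = 0 := by decide
  have e3 : ZMod.χ₈' ((3 : ℕ) : ZMod 8) = 1 := by decide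
  have e4 : ZMod.χ₈' ((4 : ℕ) : ZMod 8) = 0 := by decide
  have e5 : ZMod.χ₈' ((5 : ℕ) : ZMod 8) = -1 := by decide
  have e6 : ZMod.χ₈' ((6 : ℕ) : ZMod 8) = 0 := by decide
  have e7 : ZMod.χ₈' ((7 : ℕ) : ZMod 8) = -1 := by decide
  rw [e0, e1, e2, e3, e4, e5, e6, e7]
  have f2 := om2
  set ω : ℂ := ((√2 : ℝ) : ℂ) / 2 * (1 + I) with hω
  have f3 : ω ^ 3 = I * ω := by rw [pow_succ, f2]
  have f5 : ω ^ 5 = -ω := by
    rw [show ω ^ 5 = (ω ^ 2) ^ 2 * ω by ring, f2, I_sq]; ring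
  have f7 : ω ^ 7 = -(I * ω) := by
    rw [show ω ^ 7 = (ω ^ 2) ^ 2 * (ω ^ 2) * ω by ring, f2, I_sq]; ring
  rw [f3, f5, f7]
  push_cast
  rw [hω]
  linear_combination (((√2 : ℝ) : ℂ)) * I_sq

theorem sqrt_nat_mul (a b : ℕ) : ((√((a * b : ℕ) : ℝ) : ℝ) : ℂ) =
    ((√(a : ℝ) : ℝ) : ℂ) * ((√(b : ℝ) : ℝ) : ℂ) := by
  rw [← Complex.ofReal_mul, ← Real.sqrt_mul (by positivity)]
  push_cast
  rfl

theorem sqrt8 : ((√((8 : ℕ) : ℝ) : ℝ) : ℂ) = 2 * ((√2 : ℝ) : ℂ) := by
  rw [show ((8 : ℕ) : ℝ) = 2 ^ 2 * 2 by norm_num, Real.sqrt_mul (by positivity),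
    Real.sqrt_sq (by norm_num)]
  push_cast
  rfl

theorem sqrt4 : ((√((4 : ℕ) : ℝ) : ℝ) : ℂ) = 2 := by
  rw [show ((4 : ℕ) : ℝ) = 2 ^ 2 by norm_num, Real.sqrt_sq (by norm_num)]
  norm_num

/-- the value of the Gauss sum of the quadratic character -/
theorem gaussSum_kron (hJ : JacGauss) {d : ℕ} [NeZero d] (hd : IsFundDisc d) (h1 : 1 < d)
    {χ : DirichletCharacter ℂ d} (hχ : ∀ n : ℕ, n ≠ 0 → χ (n : ZMod d) = (kron d n : ℂ)) :
    gaussSum χ ZMod.stdAddChar = ((√(d : ℝ) : ℝ) : ℂ) := by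
  have h0 : χ ((0 : ℕ) : ZMod d) = 0 := by
    rw [Nat.cast_zero]
    exact DirichletCharacter.map_zero' χ (by omega)
  -- the main reduction
  have main : ∀ {q b : ℕ} (ψ : DirichletCharacter ℤ q), d = q * b → 0 < q → 0 < b →
      q.Coprime b → (∀ n : ℕ, n ≠ 0 → kron d n = ψ (n : ZMod q) * J((n : ℤ) | b)) →
      (ψ ((0 : ℕ) : ZMod q) * J(((0 : ℕ) : ℤ) | b) = 0) →
      gaussSum χ ZMod.stdAddChar = ((ψ (b : ZMod q) * J((q : ℤ) | b) : ℤ) : ℂ) *
      (∑ a ∈ Finset.range q, ((ψ (a : ZMod q) : ℤ) : ℂ) * exp (2 * Real.pi * I * a / q)) *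
      (∑ y ∈ Finset.range b, ((J((y : ℤ) | b) : ℤ) : ℂ) * exp (2 * Real.pi * I * y / b)) := by
    intro q b ψ hdq hq hb hcop hk hz
    rw [gaussSum_eq_range, ← gauss_mul hq hb hcop ψ, ← hdq]
    refine Finset.sum_congr rfl fun x _ => ?_
    congr 1
    rcases Nat.eq_zero_or_pos x with rfl | hx
    · rw [h0, hz, Int.cast_zero]
    · rw [hχ x hx.ne', hk x hx.ne']
  rcases hd with ⟨hd4, hsq⟩ | ⟨m, rfl, hm4, hsq⟩
  · have hodd : Odd d := Nat.odd_iff.mpr (by omega)
    have hk : ∀ n : ℕ, n ≠ 0 → kron d n = (1 : DirichletCharacter ℤ 1) (n : ZMod 1) * J((n : ℤ) | d) := by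
      intro n hn
      rw [MulChar.one_apply (isUnit_of_subsingleton _), one_mul]
      obtain ⟨ho, hn2⟩ := two_part hn
      unfold kron
      set v := n.factorization 2
      set u := n / 2 ^ v
      have h6 : J((d : ℤ) | u) = J((u : ℤ) | d) := jacobiSym.quadratic_reciprocity_one_mod_four hd4 ho
      rw [h6]
      conv_rhs => rw [hn2]
      push_cast
      rw [jacobiSym.mul_left, jacobiSym.pow_left, jacobiSym.at_two hodd]
    rw [main (q := 1) (b := d) 1 (by ring) one_pos (by omega) (Nat.coprime_one_left d) hk (by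
      rw [Nat.cast_zero, Nat.cast_zero, jacobiSym.zero_left (by omega), mul_zero])]
    rw [hJ d (by omega) hsq, if_pos hd4, Finset.sum_range_one]
    rw [MulChar.one_apply (isUnit_of_subsingleton _), MulChar.one_apply (isUnit_of_subsingleton _)]
    simp [jacobiSym.one_left]
  · have h0 : ZMod.χ₈ ((4 * m : ℕ) : ZMod 8) = 0 := by
      rw [ZMod.χ₈_nat_eq_if_mod_eight, if_pos (by omega)]
    have hkron_even : ∀ n : ℕ, n ≠ 0 → n % 2 = 0 → kron (4 * m) n = 0 := by
      intro n hn hn2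
      unfold kron
      rw [h0, zero_pow, zero_mul]
      have : 2 ∣ n := Nat.dvd_of_mod_eq_zero hn2
      exact (Nat.Prime.factorization_pos_of_dvd Nat.prime_two hn this).ne'
    have hkron_odd : ∀ n : ℕ, n % 2 = 1 → kron (4 * m) n = J((m : ℤ) | n) := by
      intro n hn
      unfold kron
      have hv : n.factorization 2 = 0 := Nat.factorization_eq_zero_of_not_dvd (by omega)
      rw [hv, pow_zero, one_mul, pow_zero, Nat.div_one]
      push_cast
      rw [show (4 : ℤ) * m = 2 ^ 2 * m by ring, jacobiSym.mul_left, jacobiSym.sq_one', one_mul]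
      rw [Int.gcd_comm]
      have : Nat.Coprime n 2 := by
        rw [Nat.coprime_two_right, Nat.odd_iff]; exact hn
      exact_mod_cast this
    rcases hm4 with hm4 | hm4
    · -- `m = 2 m'`
      obtain ⟨m', rfl⟩ : ∃ m', m = 2 * m' := ⟨m / 2, by omega⟩
      have hodd : Odd m' := Nat.odd_iff.mpr (by omega)
      have hsq' : Squarefree m' := hsq.squarefree_of_dvd (Dvd.intro_left _ rfl)
      have hcop : Nat.Coprime 8 m' := by
        have : Nat.Coprime 2 m' := by rw [Nat.coprime_two_left]; exact hodd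
        exact Nat.Coprime.pow_left 3 this
      have hc2 : Int.gcd 2 (m' : ℤ) = 1 := by
        have : Nat.Coprime 2 m' := by rw [Nat.coprime_two_left]; exact hodd
        exact_mod_cast this
      have h8 : J(((8 : ℕ) : ℤ) | m') = ZMod.χ₈ (m' : ZMod 8) := by
        rw [← jacobiSym.at_two hodd, show (((8 : ℕ) : ℤ)) = 2 ^ 2 * 2 by norm_num,
          jacobiSym.mul_left, jacobiSym.sq_one' hc2, one_mul]
      have hchi : ZMod.χ₈ (m' : ZMod 8) * ZMod.χ₈ (m' : ZMod 8) = 1 := by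
        rw [← jacobiSym.at_two hodd]
        have := jacobiSym.sq_one hc2
        rw [sq] at this
        exact this
      rcases (Nat.odd_mod_four_iff.mp (Nat.odd_iff.mp hodd)) with h1' | h3
      · have hk : ∀ n : ℕ, n ≠ 0 → kron (4 * (2 * m')) n = ZMod.χ₈ (n : ZMod 8) * J((n : ℤ) | m') := by
          intro n hn
          rcases Nat.mod_two_eq_zero_or_one n with he | ho
          · rw [hkron_even n hn he, ZMod.χ₈_nat_eq_if_mod_eight, if_pos he, zero_mul]
          · rw [hkron_odd n ho]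
            have hno : Odd n := Nat.odd_iff.mpr ho
            push_cast
            rw [jacobiSym.mul_left, jacobiSym.at_two hno,
              jacobiSym.quadratic_reciprocity_one_mod_four h1' hno]
        rw [main (q := 8) (b := m') ZMod.χ₈ (by ring) (by norm_num) (by omega) hcop hk (by
          have : ZMod.χ₈ ((0 : ℕ) : ZMod 8) = 0 := by decide
          rw [this, zero_mul])]
        rw [hJ m' (by omega) hsq', if_pos h1', gauss_chi8, h8, hchi,
          show 4 * (2 * m') = 8 * m' by ring, sqrt_nat_mul, sqrt8]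
        push_cast
        ring
      · have hk : ∀ n : ℕ, n ≠ 0 → kron (4 * (2 * m')) n = ZMod.χ₈' (n : ZMod 8) * J((n : ℤ) | m') := by
          intro n hn
          have hc := ZMod.χ₈'_int_eq_χ₄_mul_χ₈ (n : ℤ)
          rw [Int.cast_natCast, Int.cast_natCast] at hc
          rw [hc]
          rcases Nat.mod_two_eq_zero_or_one n with he | ho
          · rw [hkron_even n hn he, ZMod.χ₈_nat_eq_if_mod_eight, if_pos he, mul_zero, zero_mul]
          · rw [hkron_odd n ho]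
            have hno : Odd n := Nat.odd_iff.mpr ho
            push_cast
            rw [jacobiSym.mul_left, jacobiSym.at_two hno]
            rcases (Nat.odd_mod_four_iff.mp ho) with hn1 | hn3
            · rw [ZMod.χ₄_nat_one_mod_four hn1, one_mul,
                jacobiSym.quadratic_reciprocity_one_mod_four hn1 hodd]
            · rw [ZMod.χ₄_nat_three_mod_four hn3, jacobiSym.quadratic_reciprocity_three_mod_four h3 hn3]
              ring
        have hc := ZMod.χ₈'_int_eq_χ₄_mul_χ₈ (m' : ℤ)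
        rw [Int.cast_natCast, Int.cast_natCast, ZMod.χ₄_nat_three_mod_four h3] at hc
        have hcc : ZMod.χ₈' (m' : ZMod 8) * ZMod.χ₈ (m' : ZMod 8) = -1 := by
          rw [hc, mul_assoc, hchi]
          norm_num
        rw [main (q := 8) (b := m') ZMod.χ₈' (by ring) (by norm_num) (by omega) hcop hk (by
          have : ZMod.χ₈' ((0 : ℕ) : ZMod 8) = 0 := by decide
          rw [this, zero_mul])]
        rw [hJ m' (by omega) hsq', if_neg (by omega), gauss_chi8', h8, hcc,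
          show 4 * (2 * m') = 8 * m' by ring, sqrt_nat_mul, sqrt8]
        push_cast
        linear_combination (-(2 * ((√2 : ℝ) : ℂ) * ((√(m' : ℝ) : ℝ) : ℂ))) * I_sq
    · have hodd : Odd m := Nat.odd_iff.mpr (by omega)
      have hcop2 : Nat.Coprime 2 m := by rw [Nat.coprime_two_left]; exact hodd
      have hcop : Nat.Coprime 4 m := Nat.Coprime.pow_left 2 hcop2
      have hc2 : Int.gcd 2 (m : ℤ) = 1 := by exact_mod_cast hcop2
      have h4 : J(((4 : ℕ) : ℤ) | m) = 1 := by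
        rw [show (((4 : ℕ) : ℤ)) = 2 ^ 2 by norm_num, jacobiSym.sq_one' hc2]
      have hk : ∀ n : ℕ, n ≠ 0 → kron (4 * m) n = ZMod.χ₄ (n : ZMod 4) * J((n : ℤ) | m) := by
        intro n hn
        rcases Nat.mod_two_eq_zero_or_one n with he | ho
        · rw [hkron_even n hn he, ZMod.χ₄_nat_eq_if_mod_four, if_pos he, zero_mul]
        · rw [hkron_odd n ho]
          have hno : Odd n := Nat.odd_iff.mpr ho
          rcases (Nat.odd_mod_four_iff.mp ho) with hn1 | hn3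
          · rw [ZMod.χ₄_nat_one_mod_four hn1, one_mul,
              jacobiSym.quadratic_reciprocity_one_mod_four hn1 hodd]
          · rw [ZMod.χ₄_nat_three_mod_four hn3, jacobiSym.quadratic_reciprocity_three_mod_four hm4 hn3]
            ring
      rw [main (q := 4) (b := m) ZMod.χ₄ rfl (by norm_num) (by omega) hcop hk (by
        have : ZMod.χ₄ ((0 : ℕ) : ZMod 4) = 0 := by decide
        rw [this, zero_mul])]
      rw [hJ m (by omega) hsq, if_neg (by omega), gauss_chi4, h4, ZMod.χ₄_nat_three_mod_four hm4,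
        sqrt_nat_mul, sqrt4]
      push_cast
      linear_combination (-(2 * ((√(m : ℝ) : ℝ) : ℂ))) * I_sq

theorem rootOne_of (hJ : JacGauss) : RootOne := by
  intro d hd h1
  have : NeZero d := ⟨by omega⟩
  obtain ⟨χ, hχ, hprim, heven, hinv⟩ := exists_chi hd
  rw [eps_eq_rootNumber hd h1 hχ hprim heven hinv, DirichletCharacter.rootNumber, if_pos heven,
    pow_zero, div_one, gaussSum_kron hJ hd h1 hχ]
  have hd0 : (0 : ℝ) < d := by exact_mod_cast (by omega : 0 < d)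
  rw [Real.sqrt_eq_rpow, Complex.ofReal_cpow hd0.le]
  push_cast
  rw [div_self]
  rw [Ne, cpow_eq_zero_iff, not_and_or]
  left
  exact_mod_cast hd0.ne'

theorem rootOne : RootOne := rootOne_of fun _ hr hsq => jac_gauss hr hsq

end Pool.Agent.MDSL
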