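import Pool.Agent.MDSL.Abel
import Pool.Agent.MDSL.Jac
import Pool.Agent.MDSL.Euler
import Pool.Agent.MDS.Cont

/-!
# From the vanishing of `E_r(z)` to the vanishing of `L(1 - z, (r / ·))`
-/

set_option autoImplicit false

open Complex Filter Topology
open scoped NumberTheorySymbols
open Pool.Agent.MDS Pool.Agent.TubeDS

namespace Pool.Agent.MDSL

theorem differentiableOn_cpow_neg (p : ℕ) (hp : p ≠ 0) (c : ℂ) :
    DifferentiableOn ℂ (fun s : ℂ => 1 - c * (p : ℂ) ^ (-s)) {s | 0 < s.re} := by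
  have hp' : (p : ℂ) ≠ 0 := Nat.cast_ne_zero.mpr hp
  intro s _
  refine DifferentiableAt.differentiableWithinAt ?_
  exact (differentiableAt_const _).sub ((differentiableAt_const _).mul
    (DifferentiableAt.const_cpow differentiableAt_id.neg (Or.inl hp')))

theorem differentiableOn_prod (S : Finset ℕ) (hS : ∀ p ∈ S, p ≠ 0) (c : ℕ → ℂ) :
    DifferentiableOn ℂ (fun s : ℂ => ∏ p ∈ S, (1 - c p * (p : ℂ) ^ (-s))) {s | 0 < s.re} := by
  classical
  induction S using Finset.induction_on with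
  | empty =>
    simp only [Finset.prod_empty]
    exact differentiableOn_const _
  | insert a S ha ih =>
    have e : (fun s : ℂ => ∏ p ∈ insert a S, (1 - c p * (p : ℂ) ^ (-s))) =
        fun s : ℂ => (1 - c a * (a : ℂ) ^ (-s)) * ∏ p ∈ S, (1 - c p * (p : ℂ) ^ (-s)) := by
      funext s
      rw [Finset.prod_insert ha]
    rw [e]
    exact (differentiableOn_cpow_neg a (hS a (Finset.mem_insert_self a S)) _).mul
      (ih fun p hp => hS p (Finset.mem_insert_of_mem hp))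

/-- Euler factors do not vanish. -/
theorem factor_ne_zero {p : ℕ} (hp : 2 ≤ p) {c : ℂ} (hc : ‖c‖ ≤ 1) {z : ℂ} (hz : 0 < z.re) :
    1 - c * (p : ℂ) ^ (-z) ≠ 0 := by
  intro h
  have h1 : c * (p : ℂ) ^ (-z) = 1 := (sub_eq_zero.mp h).symm
  have h2 : ‖c * (p : ℂ) ^ (-z)‖ = 1 := by rw [h1, norm_one]
  have hp0 : 0 < p := by omega
  rw [norm_mul, norm_natCast_cpow_of_pos hp0, neg_re] at h2
  have h3 : (p : ℝ) ^ (-z.re) < 1 := by
    apply Real.rpow_lt_one_of_one_lt_of_neg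
    · exact_mod_cast (by omega : 1 < p)
    · linarith
  have h4 : (0 : ℝ) ≤ (p : ℝ) ^ (-z.re) := Real.rpow_nonneg (Nat.cast_nonneg p) _
  nlinarith [norm_nonneg c]

theorem norm_jac_le (a : ℤ) (b : ℕ) : ‖((J(a | b) : ℤ) : ℂ)‖ ≤ 1 := by
  rcases jacobiSym.trichotomy a b with h | h | h <;> rw [h] <;> simp

theorem norm_chi4_jac_le (x : ZMod 4) (a : ℤ) (b : ℕ) :
    ‖((ZMod.χ₄ x * J(a | b) : ℤ) : ℂ)‖ ≤ 1 := by
  have h1 : ZMod.χ₄ x = 0 ∨ ZMod.χ₄ x = 1 ∨ ZMod.χ₄ x = -1 := by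
    revert x
    decide
  rcases h1 with h1 | h1 | h1 <;> rw [h1] <;>
    rcases jacobiSym.trichotomy a b with h | h | h <;> rw [h] <;> simp

theorem not_square_mul_sq {r l : ℕ} (hns : ¬ IsSquare r) (hl : l ≠ 0) : ¬ IsSquare (r * l ^ 2) := by
  rintro ⟨k, hk⟩
  have h1 : l ^ 2 ∣ k ^ 2 := ⟨r, by rw [pow_two k, ← hk, mul_comm]⟩
  rw [Nat.pow_dvd_pow_iff two_ne_zero] at h1
  obtain ⟨t, rfl⟩ := h1
  apply hns
  refine ⟨t, ?_⟩
  have h2 : 0 < l ^ 2 := by positivity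
  refine Nat.eq_of_mul_eq_mul_right h2 ?_
  rw [hk]
  ring

theorem odd_mul_sq {r l : ℕ} (hr : r % 2 = 1) (hl : l % 2 = 1) : r * l ^ 2 % 2 = 1 := by
  rw [Nat.mul_mod, Nat.pow_mod, hr, hl]

/-- the Euler factors of `fA`, for `Re s > 0` -/
theorem gAb_fA_mul_sq {r l : ℕ} (hr : r % 2 = 1) (hns : ¬ IsSquare r) (hl : l % 2 = 1) {s : ℂ}
    (hs : 0 < s.re) : gAb (fA (r * l ^ 2)) s =
      (∏ p ∈ l.primeFactors, (1 - ((J((p : ℤ) | r) : ℤ) : ℂ) * (p : ℂ) ^ (-s))) *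
        gAb (fA r) s := by
  obtain ⟨C, -, hC⟩ := bps_fA
  have h1 := hC r hr hns
  have h2 := hC (r * l ^ 2) (odd_mul_sq hr hl) (not_square_mul_sq hns (by omega))
  refine gAb_eq_of h2 (F := fun s => (∏ p ∈ l.primeFactors,
    (1 - ((J((p : ℤ) | r) : ℤ) : ℂ) * (p : ℂ) ^ (-s))) * gAb (fA r) s) ?_ ?_ hs
  · refine DifferentiableOn.mul ?_ (gAb_differentiableOn h1)
    exact differentiableOn_prod l.primeFactors (fun p hp => (Nat.prime_of_mem_primeFactors hp).ne_zero)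
      fun p => ((J((p : ℤ) | r) : ℤ) : ℂ)
  · intro t ht
    rw [LSeries_fA_mul_sq hr hl ht, gAb_eq h1 ht]

/-- the Euler factors of `fB`, for `Re s > 0` -/
theorem gAb_fB_mul_sq {r l : ℕ} (hr : r % 2 = 1) (hns : ¬ IsSquare r) (hl : l % 2 = 1) {s : ℂ}
    (hs : 0 < s.re) : gAb (fB (r * l ^ 2)) s =
      (∏ p ∈ l.primeFactors, (1 - ((ZMod.χ₄ (p : ZMod 4) * J((p : ℤ) | r) : ℤ) : ℂ) *
        (p : ℂ) ^ (-s))) * gAb (fB r) s := by
  obtain ⟨C, -, hC⟩ := bps_fB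
  have h1 := hC r hr hns
  have h2 := hC (r * l ^ 2) (odd_mul_sq hr hl) (not_square_mul_sq hns (by omega))
  refine gAb_eq_of h2 (F := fun s => (∏ p ∈ l.primeFactors,
    (1 - ((ZMod.χ₄ (p : ZMod 4) * J((p : ℤ) | r) : ℤ) : ℂ) * (p : ℂ) ^ (-s))) *
      gAb (fB r) s) ?_ ?_ hs
  · refine DifferentiableOn.mul ?_ (gAb_differentiableOn h1)
    exact differentiableOn_prod l.primeFactors (fun p hp => (Nat.prime_of_mem_primeFactors hp).ne_zero)
      fun p => ((ZMod.χ₄ (p : ZMod 4) * J((p : ℤ) | r) : ℤ) : ℂ)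
  · intro t ht
    rw [LSeries_fB_mul_sq hr hl ht, gAb_eq h1 ht]

/-- `E_r` is half the sum of the two functions -/
theorem gAb_fE {r : ℕ} (hr : r % 2 = 1) (hns : ¬ IsSquare r) {s : ℂ} (hs : 0 < s.re) :
    gAb (fE r) s = (gAb (fA r) s + gAb (fB r) s) / 2 := by
  obtain ⟨C, -, hC⟩ := bps_fA
  obtain ⟨D, -, hD⟩ := bps_fB
  have h1 := hC r hr hns
  have h2 := hD r hr hns
  have h3 : BPS (fE r) ((C * (√r * (1 + Real.log r)) + D * (√r * (1 + Real.log r))) / 2) := by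
    refine ⟨?_, fun n => ?_, fun N => ?_⟩
    · rw [fE_eq, h1.zero, h2.zero, add_zero, zero_div]
    · rw [fE_eq, norm_div]
      have e1 : ‖fA r n + fB r n‖ ≤ 2 := (norm_add_le _ _).trans (by
        linarith [h1.le_one n, h2.le_one n])
      have e2 : ‖(2 : ℂ)‖ = 2 := by norm_num
      rw [e2]
      linarith
    · have e1 : ∑ m ∈ Finset.range N, fE r m =
          (∑ m ∈ Finset.range N, fA r m + ∑ m ∈ Finset.range N, fB r m) / 2 := by
        rw [← Finset.sum_add_distrib, Finset.sum_div]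
        exact Finset.sum_congr rfl fun m _ => fE_eq r m
      have e2 : ‖(2 : ℂ)‖ = 2 := by norm_num
      rw [e1, norm_div, e2]
      have e3 := norm_add_le (∑ m ∈ Finset.range N, fA r m) (∑ m ∈ Finset.range N, fB r m)
      linarith [h1.sum_le N, h2.sum_le N]
  refine gAb_eq_of h3 (F := fun s => (gAb (fA r) s + gAb (fB r) s) / 2) ?_ ?_ hs
  · exact ((gAb_differentiableOn h1).add (gAb_differentiableOn h2)).div_const 2
  · intro t ht
    have s1 : LSeriesSummable (fA r) t :=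
      LSeriesSummable_of_bounded_of_one_lt_re (fun n _ => h1.le_one n) ht
    have s2 : LSeriesSummable (fB r) t :=
      LSeriesSummable_of_bounded_of_one_lt_re (fun n _ => h2.le_one n) ht
    rw [gAb_eq h1 ht, gAb_eq h2 ht, ← LSeries_add s1 s2]
    have e1 : fE r = (1 / 2 : ℂ) • (fA r + fB r) := by
      funext n
      rw [fE_eq]
      change _ = (1 / 2 : ℂ) * (fA r n + fB r n)
      ring
    rw [e1, LSeries_smul]
    ring

theorem sep {z : ℂ} (hz : 0 < z.re) {q : ℕ} (hq : q % 2 = 1)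
    (h : ∀ r : ℕ, r % 2 = 1 → ¬ IsSquare r → q ∣ r → gAb (fE r) z = 0) :
    ∀ r : ℕ, r % 2 = 1 → ¬ IsSquare r → gAb (fA r) z = 0 ∧ gAb (fB r) z = 0 := by
  intro r hr hns
  have hr0 : r ≠ 0 := by omega
  have hq0 : q ≠ 0 := by omega
  -- a prime
  obtain ⟨p, hpgt, hp, hp3⟩ := Nat.forall_exists_prime_gt_and_eq_mod
    (show IsUnit (3 : ZMod 4) by decide) (r * q ^ 2)
  have hp4 : p % 4 = 3 := by
    have : ((p : ℕ) : ZMod 4) = ((3 : ℕ) : ZMod 4) := by
      rw [hp3]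
      rfl
    rw [ZMod.natCast_eq_natCast_iff] at this
    exact this
  have hchi : ZMod.χ₄ (p : ZMod 4) = -1 := ZMod.χ₄_nat_three_mod_four hp4
  set r' := r * q ^ 2 with hr'
  have hr'1 : r' % 2 = 1 := odd_mul_sq hr hq
  have hr'2 : ¬ IsSquare r' := not_square_mul_sq hns hq0
  have hr'0 : r' ≠ 0 := by omega
  have hJ : J((p : ℤ) | r') ≠ 0 := by
    have : NeZero r' := ⟨hr'0⟩
    rw [Ne, jacobiSym.eq_zero_iff_not_coprime, not_not]
    have : Nat.Coprime p r' := by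
      rw [Nat.Prime.coprime_iff_not_dvd hp]
      intro hdvd
      exact absurd (Nat.le_of_dvd (Nat.pos_of_ne_zero hr'0) hdvd) (by omega)
    exact this
  have hpp : p ^ 2 % 2 = 1 := by
    rw [Nat.pow_mod]
    have : p % 2 = 1 := by omega
    rw [this]
  have e1 := h r' hr'1 hr'2 (by
    rw [hr']
    exact Dvd.dvd.mul_left (dvd_pow_self q two_ne_zero) r)
  have e2 := h (r' * p ^ 2) (odd_mul_sq hr'1 (by omega)) (not_square_mul_sq hr'2 hp.ne_zero) (by
    rw [hr']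
    exact Dvd.dvd.mul_right (Dvd.dvd.mul_left (dvd_pow_self q two_ne_zero) r) _)
  rw [gAb_fE hr'1 hr'2 hz] at e1
  rw [gAb_fE (odd_mul_sq hr'1 (by omega)) (not_square_mul_sq hr'2 hp.ne_zero) hz,
    gAb_fA_mul_sq hr'1 hr'2 (by omega) hz, gAb_fB_mul_sq hr'1 hr'2 (by omega) hz,
    hp.primeFactors, Finset.prod_singleton, Finset.prod_singleton, hchi] at e2
  have hx : ((J((p : ℤ) | r') : ℤ) : ℂ) * (p : ℂ) ^ (-z) ≠ 0 := by
    refine mul_ne_zero (by exact_mod_cast hJ) ?_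
    rw [cpow_ne_zero_iff]
    left
    exact_mod_cast hp.ne_zero
  have hA : gAb (fA r') z = 0 ∧ gAb (fB r') z = 0 := by
    push_cast at e2
    set x := ((J((p : ℤ) | r') : ℤ) : ℂ) * (p : ℂ) ^ (-z) with hxdef
    have e3 : gAb (fA r') z = - gAb (fB r') z := by linear_combination 2 * e1
    have e4 : x * gAb (fB r') z = 0 := by
      rw [e3] at e2
      linear_combination e2
    have e5 : gAb (fB r') z = 0 := (mul_eq_zero.mp e4).resolve_left hx
    exact ⟨by rw [e3, e5, neg_zero], e5⟩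
  obtain ⟨hA1, hA2⟩ := hA
  rw [hr', gAb_fA_mul_sq hr hns hq hz] at hA1
  rw [hr', gAb_fB_mul_sq hr hns hq hz] at hA2
  constructor
  · refine (mul_eq_zero.mp hA1).resolve_left (Finset.prod_ne_zero_iff.mpr fun a ha => ?_)
    exact factor_ne_zero (Nat.prime_of_mem_primeFactors ha).two_le (norm_jac_le _ _) hz
  · refine (mul_eq_zero.mp hA2).resolve_left (Finset.prod_ne_zero_iff.mpr fun a ha => ?_)
    exact factor_ne_zero (Nat.prime_of_mem_primeFactors ha).two_le (norm_chi4_jac_le _ _ _) hz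

/-- the functional equation moves zeros -/
theorem Lc_one_sub_eq_zero {d : ℕ} (hd : IsFundDisc d) (h1 : 1 < d) {z : ℂ} (hz0 : 0 < z.re)
    (h : Lc d z = 0) : Lc d (1 - z) = 0 := by
  obtain ⟨-, -, -, h4, -⟩ := Lc_spec hd h1
  rw [h4 (1 - z), sub_sub_cancel, h, mul_zero]
  intro n hn
  have h5 := congrArg Complex.re hn
  simp at h5
  have h6 : (0 : ℝ) ≤ n := Nat.cast_nonneg n
  linarith

theorem lift {z : ℂ} (hz0 : 0 < z.re) (hz1 : z.re < 1)
    (h : ∀ r : ℕ, r % 2 = 1 → ¬ IsSquare r → gAb (fA r) z = 0 ∧ gAb (fB r) z = 0) :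
    ∀ r : ℕ, r % 2 = 1 → ¬ IsSquare r → gAb (lam r) (1 - z) = 0 := by
  intro r hr hns
  obtain ⟨C, -, hC⟩ := bps_fA
  obtain ⟨D, -, hD⟩ := bps_fB
  obtain ⟨r0, l, hrl, hsq⟩ := Nat.sq_mul_squarefree r
  have hrl' : r = r0 * l ^ 2 := by rw [← hrl, mul_comm]
  have hr0 : r0 % 2 = 1 := by
    by_contra hc
    have : r0 % 2 = 0 := by omega
    rw [hrl', Nat.mul_mod, this, zero_mul] at hr
    omega
  have hl : l % 2 = 1 := by
    by_contra hc
    have : l % 2 = 0 := by omega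
    rw [hrl', Nat.mul_mod, Nat.pow_mod, this] at hr
    simp at hr
  have hns0 : ¬ IsSquare r0 := by
    rintro ⟨k, hk⟩
    apply hns
    exact ⟨k * l, by rw [hrl', hk]; ring⟩
  have h10 : 1 < r0 := by
    rcases Nat.lt_or_ge 1 r0 with h1 | h1
    · exact h1
    · exfalso
      have : r0 = 1 := by omega
      exact hns0 ⟨1, by rw [this]⟩
  have hz' : 0 < (1 - z).re := by
    rw [sub_re, one_re]
    linarith
  have hl4 : l ^ 2 % 4 = 1 := by
    have : l % 4 = 1 ∨ l % 4 = 3 := by omega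
    rw [Nat.pow_mod]
    rcases this with h1 | h1 <;> rw [h1]
  rcases (show r0 % 4 = 1 ∨ r0 % 4 = 3 by omega) with h4 | h4
  · have hr4 : r % 4 = 1 := by rw [hrl', Nat.mul_mod, h4, hl4]
    have hfd : IsFundDisc r0 := Or.inl ⟨h4, hsq⟩
    obtain ⟨d1, d2, -, -, -⟩ := Lc_spec hfd h10
    have key : ∀ s : ℂ, 0 < s.re →
        gAb (fA r0) s = (1 - (kron r0 2 : ℂ) * (2 : ℂ) ^ (-s)) * Lc r0 s := by
      intro s hs
      refine gAb_eq_of (hC r0 hr0 hns0)
        (F := fun s => (1 - (kron r0 2 : ℂ) * (2 : ℂ) ^ (-s)) * Lc r0 s) ?_ ?_ hs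
      · have := differentiableOn_cpow_neg 2 two_ne_zero (kron r0 2 : ℂ)
        rw [Nat.cast_ofNat] at this
        exact this.mul d1.differentiableOn
      · intro t ht
        rw [LSeries_fA_eq_L h4 hsq ht, d2 t ht]
    have h5 := (h r0 hr0 hns0).1
    rw [key z hz0] at h5
    have h6 : Lc r0 z = 0 := by
      refine (mul_eq_zero.mp h5).resolve_left ?_
      have := factor_ne_zero (le_refl 2) (norm_kron_le r0 2) hz0
      rw [Nat.cast_ofNat] at this
      exact this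
    have h7 := Lc_one_sub_eq_zero hfd h10 hz0 h6
    rw [lam_eq_fA hr4, hrl', gAb_fA_mul_sq hr0 hns0 hl hz', key _ hz', h7, mul_zero, mul_zero]
  · have hr4 : r % 4 = 3 := by rw [hrl', Nat.mul_mod, h4, hl4]
    have hfd : IsFundDisc (4 * r0) := Or.inr ⟨r0, rfl, Or.inr h4, hsq⟩
    have h11 : 1 < 4 * r0 := by omega
    obtain ⟨d1, d2, -, -, -⟩ := Lc_spec hfd h11
    have key : ∀ s : ℂ, 0 < s.re → gAb (fB r0) s = Lc (4 * r0) s := by
      intro s hs
      refine gAb_eq_of (hD r0 hr0 hns0) d1.differentiableOn ?_ hs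
      intro t ht
      rw [LSeries_fB_eq_L h4 hsq ht, d2 t ht]
    have h5 := (h r0 hr0 hns0).2
    rw [key z hz0] at h5
    have h7 := Lc_one_sub_eq_zero hfd h11 hz0 h5
    rw [lam_eq_fB hr4, hrl', gAb_fB_mul_sq hr0 hns0 hl hz', key _ hz', h7, mul_zero]

end Pool.Agent.MDSL
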