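import Pool.Agent.MDSL.Defs

/-!
# The Riemann zeta function has a zero with real part at least `1 / 2`
-/

set_option autoImplicit false

open Complex Filter Topology MeasureTheory Set HurwitzZeta

namespace Pool.Agent.MDSL

namespace ZeroAux

/-- a zero-free entire function of order less than two is the exponential of a linear function -/
theorem exp_linear {X : ℂ → ℂ} (hX : Differentiable ℂ X) (h0 : ∀ z, X z ≠ 0) (h1 : X 0 = 1)
    {A R : ℕ → ℝ} (hR : Tendsto R atTop atTop) (hA : ∀ n, 0 < A n)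
    (hAR : Tendsto (fun n => A n / R n ^ 2) atTop (𝓝 0))
    (hb : ∀ n z, ‖z‖ < R n → ‖X z‖ ≤ Real.exp (A n)) :
    ∃ c : ℂ, ∀ z, X z = Complex.exp (c * z) := by
  have hdX : Differentiable ℂ (deriv X) := (hX.contDiff (n := 2)).differentiable_deriv_two
  have hh : Differentiable ℂ (fun z => deriv X z / X z) := fun z => (hdX z).div (hX z) (h0 z)
  obtain ⟨g, hg0, hg⟩ := (hh.isExactOn_univ).with_val_at 0 0
  have hgd : ∀ z, HasDerivAt g (deriv X z / X z) z := fun z => hg z (mem_univ z)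
  have hgD : Differentiable ℂ g := fun z => (hgd z).differentiableAt
  -- `X = exp g`
  have hexp : ∀ z, X z = Complex.exp (g z) := by
    have h2 : ∀ z, HasDerivAt (fun z => X z * Complex.exp (-g z)) 0 z := by
      intro z
      have h3 := ((hX z).hasDerivAt).mul ((hgd z).neg.cexp)
      refine h3.congr_deriv ?_
      have := h0 z
      simp only [Pi.neg_apply]
      field_simp
      ring
    have h3 : ∀ z, X z * Complex.exp (-g z) = X 0 * Complex.exp (-g 0) := by
      intro z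
      exact is_const_of_deriv_eq_zero (fun z => (h2 z).differentiableAt) (fun z => (h2 z).deriv) z 0
    intro z
    have h4 := h3 z
    rw [h1, hg0, neg_zero, Complex.exp_zero, mul_one, Complex.exp_neg] at h4
    have := Complex.exp_ne_zero (g z)
    field_simp at h4
    exact h4
  -- bound for `g`
  have hgb : ∀ n z, 0 < R n → ‖z‖ ≤ R n / 2 → ‖g z‖ ≤ 2 * A n := by
    intro n z hRn hz
    have h2 : MapsTo g (Metric.ball 0 (R n)) {z | z.re ≤ A n} := by
      intro w hw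
      have hw' : ‖w‖ < R n := by simpa using hw
      have h3 := hb n w hw'
      rw [hexp, Complex.norm_exp, Real.exp_le_exp] at h3
      exact h3
    have hz' : z ∈ Metric.ball (0 : ℂ) (R n) := by
      rw [mem_ball_zero_iff]
      linarith
    have h3 := Complex.borelCaratheodory_zero (hA n) hgD.differentiableOn h2 hRn hz' hg0
    refine h3.trans ?_
    have h4 : 0 < R n - ‖z‖ := by linarith
    rw [div_le_iff₀ h4]
    have := hA n
    nlinarith
  have h2 : ∀ c, iteratedDeriv 2 g c = 0 := by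
    intro c
    have h3 : ∀ᶠ n in atTop, ‖iteratedDeriv 2 g c‖ ≤ 64 * (A n / R n ^ 2) := by
      filter_upwards [hR.eventually_ge_atTop (4 * (‖c‖ + 1))] with n hn
      have hc := norm_nonneg c
      have hRn : 0 < R n := by linarith
      have h4 := Complex.norm_iteratedDeriv_le_of_forall_mem_sphere_norm_le (c := c)
        (R := R n / 4) (C := 2 * A n) (f := g) 2 (by linarith) hgD.diffContOnCl ?_
      · refine h4.trans (le_of_eq ?_)
        simp only [Nat.factorial]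
        field_simp
        norm_num
        ring
      · intro z hz
        refine hgb n z hRn ?_
        rw [mem_sphere_iff_norm] at hz
        have : ‖z‖ ≤ ‖z - c‖ + ‖c‖ := norm_le_norm_sub_add z c
        linarith
    have h4 : Tendsto (fun n => 64 * (A n / R n ^ 2)) atTop (𝓝 0) := by
      simpa using hAR.const_mul 64
    have h5 := ge_of_tendsto h4 h3
    exact norm_le_zero_iff.mp h5
  have hdg : Differentiable ℂ (deriv g) := (hgD.contDiff (n := 2)).differentiable_deriv_two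
  have h3 : ∀ z, deriv g z = deriv g 0 := by
    intro z
    refine is_const_of_deriv_eq_zero hdg (fun c => ?_) z 0
    have := h2 c
    rw [iteratedDeriv_succ, iteratedDeriv_one] at this
    exact this
  refine ⟨deriv g 0, fun z => ?_⟩
  rw [hexp]
  congr 1
  have h4 : ∀ z, HasDerivAt (fun z => g z - deriv g 0 * z) 0 z := by
    intro z
    have h5 := ((hgD z).hasDerivAt).sub ((hasDerivAt_id z).const_mul (deriv g 0))
    refine h5.congr_deriv ?_
    rw [h3 z]
    ring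
  have h5 := is_const_of_deriv_eq_zero (fun z => (h4 z).differentiableAt) (fun z => (h4 z).deriv) z 0
  simp only [hg0, mul_zero, sub_zero] at h5
  exact sub_eq_zero.mp h5

/-- the pair defining the completed zeta function -/
noncomputable abbrev P : WeakFEPair ℂ := hurwitzEvenFEPair 0

theorem f_modif_nonneg {t : ℝ} (ht : 0 < t) : ∃ y : ℝ, 0 ≤ y ∧ P.f_modif t = (y : ℂ) := by
  have hev : ∀ x : ℝ, 0 < x → 0 ≤ evenKernel 0 x - 1 := by
    intro x hx
    have h := hasSum_int_evenKernel₀ 0 hx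
    simp only [AddCircle.coe_zero, if_true] at h
    rw [← h.tsum_eq]
    refine tsum_nonneg fun n => ?_
    split_ifs
    · exact le_rfl
    · positivity
  rcases lt_trichotomy t 1 with h | h | h
  · refine ⟨evenKernel 0 t - t ^ (-(1 / 2) : ℝ), ?_, ?_⟩
    · have h1 := evenKernel_functional_equation 0 t
      rw [← evenKernel_eq_cosKernel_of_zero] at h1
      have h2 := hev (1 / t) (by positivity)
      have h3 : t ^ (-(1 / 2) : ℝ) = 1 / t ^ (1 / 2 : ℝ) := by
        rw [Real.rpow_neg ht.le]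
        exact (one_div _).symm
      rw [h1, h3]
      have h4 : (0 : ℝ) < 1 / t ^ (1 / 2 : ℝ) := by positivity
      nlinarith
    · rw [WeakFEPair.f_modif, Pi.add_apply, indicator_of_notMem (notMem_Ioi.mpr h.le), zero_add,
        indicator_of_mem (mem_Ioo.mpr ⟨ht, h⟩)]
      simp [P, hurwitzEvenFEPair]
  · refine ⟨0, le_rfl, ?_⟩
    subst h
    simp [WeakFEPair.f_modif]
  · refine ⟨evenKernel 0 t - 1, hev t ht, ?_⟩
    rw [WeakFEPair.f_modif, Pi.add_apply, indicator_of_mem (mem_Ioi.mpr h),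
      indicator_of_notMem (notMem_Ioo_of_ge h.le)]
    simp [P, hurwitzEvenFEPair]

theorem integrable (s : ℂ) : IntegrableOn (fun t : ℝ => (t : ℂ) ^ (s - 1) • P.f_modif t) (Ioi 0) :=
  (P.isStrongFEPair_toStrongFEPair.hasMellin s).1

/-- for real arguments the integrand is nonnegative -/
theorem norm_real (x : ℝ) :
    ‖P.Λ₀ x‖ = ∫ t in Ioi (0 : ℝ), ‖(t : ℂ) ^ ((x : ℂ) - 1) • P.f_modif t‖ := by
  have h1 : P.Λ₀ x = ∫ t in Ioi (0 : ℝ), (t : ℂ) ^ ((x : ℂ) - 1) • P.f_modif t := rfl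
  have h2 : ∀ t ∈ Ioi (0 : ℝ), (t : ℂ) ^ ((x : ℂ) - 1) • P.f_modif t =
      ((‖(t : ℂ) ^ ((x : ℂ) - 1) • P.f_modif t‖ : ℝ) : ℂ) := by
    intro t ht
    obtain ⟨y, hy, hy2⟩ := f_modif_nonneg ht
    have h3 : (t : ℂ) ^ ((x : ℂ) - 1) = ((t ^ (x - 1) : ℝ) : ℂ) := by
      rw [Complex.ofReal_cpow (le_of_lt ht)]
      push_cast
      rfl
    have h4 : (0 : ℝ) ≤ t ^ (x - 1) := Real.rpow_nonneg (le_of_lt ht) _
    rw [hy2, h3, smul_eq_mul, ← Complex.ofReal_mul, Complex.norm_real, Real.norm_eq_abs,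
      abs_of_nonneg (mul_nonneg h4 hy)]
  rw [h1, setIntegral_congr_fun measurableSet_Ioi h2, integral_complex_ofReal, Complex.norm_real,
    Real.norm_eq_abs, abs_of_nonneg (integral_nonneg fun _ => norm_nonneg _)]

theorem norm_strip {m : ℝ} {s : ℂ} (h1 : 1 / 2 - m ≤ s.re) (h2 : s.re ≤ m) :
    ‖P.Λ₀ s‖ ≤ ‖P.Λ₀ (m : ℝ)‖ + ‖P.Λ₀ ((1 / 2 - m : ℝ) : ℂ)‖ := by
  rw [norm_real, norm_real, ← integral_add (integrable _).norm (integrable _).norm]
  have h3 : P.Λ₀ s = ∫ t in Ioi (0 : ℝ), (t : ℂ) ^ (s - 1) • P.f_modif t := rfl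
  rw [h3]
  refine (norm_integral_le_integral_norm _).trans ?_
  refine setIntegral_mono_on (integrable _).norm
    ((integrable _).norm.add (integrable _).norm) measurableSet_Ioi fun t ht => ?_
  have ht0 : (0 : ℝ) < t := ht
  rw [norm_smul, norm_smul, norm_smul, ← add_mul]
  refine mul_le_mul_of_nonneg_right ?_ (norm_nonneg _)
  rw [Complex.norm_cpow_eq_rpow_re_of_pos ht0, Complex.norm_cpow_eq_rpow_re_of_pos ht0,
    Complex.norm_cpow_eq_rpow_re_of_pos ht0]
  simp only [Complex.sub_re, Complex.one_re, Complex.ofReal_re]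
  rcases le_total 1 t with h | h
  · have : t ^ (s.re - 1) ≤ t ^ (m - 1) := Real.rpow_le_rpow_of_exponent_le h (by linarith)
    have : (0 : ℝ) ≤ t ^ (1 / 2 - m - 1) := Real.rpow_nonneg ht0.le _
    linarith
  · have : t ^ (s.re - 1) ≤ t ^ (1 / 2 - m - 1) :=
      Real.rpow_le_rpow_of_exponent_ge ht0 h (by linarith)
    have : (0 : ℝ) ≤ t ^ (m - 1) := Real.rpow_nonneg ht0.le _
    linarith

theorem norm_strip' {m : ℝ} {s : ℂ} (h1 : 1 - 2 * m ≤ s.re) (h2 : s.re ≤ 2 * m) :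
    ‖completedRiemannZeta₀ s‖ ≤ 2 * ‖completedRiemannZeta₀ (2 * m : ℝ)‖ := by
  have e : ∀ s : ℂ, completedRiemannZeta₀ s = P.Λ₀ (s / 2) / 2 := fun s => rfl
  have h3 : ‖P.Λ₀ (s / 2)‖ ≤ ‖P.Λ₀ (m : ℝ)‖ + ‖P.Λ₀ ((1 / 2 - m : ℝ) : ℂ)‖ := by
    apply norm_strip
    · simp
      linarith
    · simp
      linarith
  have h4 : P.Λ₀ ((1 / 2 - m : ℝ) : ℂ) = P.Λ₀ (m : ℝ) := by
    have h5 := completedRiemannZeta₀_one_sub (2 * m : ℝ)
    rw [e, e] at h5
    have e1 : (1 - ((2 * m : ℝ) : ℂ)) / 2 = ((1 / 2 - m : ℝ) : ℂ) := by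
      push_cast
      ring
    have e2 : ((2 * m : ℝ) : ℂ) / 2 = (m : ℂ) := by
      push_cast
      ring
    rw [e1, e2] at h5
    linear_combination 2 * h5
  rw [h4] at h3
  rw [e, e, norm_div, norm_div]
  have e2 : ((2 * m : ℝ) : ℂ) / 2 = (m : ℂ) := by
    push_cast
    ring
  rw [e2]
  have : ‖(2 : ℂ)‖ = 2 := by simp
  rw [this]
  linarith

/-- the zeta function is bounded on `Re s ≥ 2` -/
theorem norm_zeta_le {s : ℂ} (hs : 2 ≤ s.re) : ‖riemannZeta s‖ ≤ MDS.zr 2 := by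
  have h1 : 1 < s.re := by linarith
  rw [← MDS.L_one h1]
  exact (MDS.norm_L_le h1).trans (MDS.zr_anti (by norm_num) hs)

theorem norm_cz_le (n : ℕ) :
    ‖completedRiemannZeta₀ (2 * (n + 1 : ℝ) : ℝ)‖ ≤ (MDS.zr 2 + 2) * n.factorial := by
  have hz := MDS.zr_nonneg 2
  set s : ℂ := ((2 * (n + 1 : ℝ) : ℝ) : ℂ) with hs
  have hsre : s.re = 2 * (n + 1 : ℝ) := by rw [hs, Complex.ofReal_re]
  have hn0 : (0 : ℝ) ≤ n := Nat.cast_nonneg n
  have hs0 : s ≠ 0 := by
    intro h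
    rw [h] at hsre
    simp only [Complex.zero_re] at hsre
    linarith
  have h1 : completedRiemannZeta₀ s = riemannZeta s * Gammaℝ s + 1 / s + 1 / (1 - s) := by
    have h2 := completedRiemannZeta_eq s
    have h3 := riemannZeta_def_of_ne_zero hs0
    have h4 : Gammaℝ s ≠ 0 := Gammaℝ_ne_zero_of_re_pos (by rw [hsre]; positivity)
    rw [h3, div_mul_cancel₀ _ h4, h2]
    ring
  have h2 : ‖Gammaℝ s‖ ≤ n.factorial := by
    have e1 : s / 2 = (n : ℂ) + 1 := by
      rw [hs]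
      push_cast
      ring
    have e2 : -s / 2 = -((n : ℂ) + 1) := by
      rw [neg_div, e1]
    rw [Gammaℝ_def, e1, e2, Complex.Gamma_nat_eq_factorial, norm_mul]
    have h3 : ‖((Real.pi : ℝ) : ℂ) ^ (-((n : ℂ) + 1))‖ ≤ 1 := by
      rw [Complex.norm_cpow_eq_rpow_re_of_pos Real.pi_pos]
      refine Real.rpow_le_one_of_one_le_of_nonpos ?_ ?_
      · linarith [Real.pi_gt_three]
      · simp
        linarith
    have h4 : ‖((n.factorial : ℕ) : ℂ)‖ = n.factorial := by simp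
    rw [h4]
    have h5 : (0 : ℝ) ≤ n.factorial := by positivity
    nlinarith
  have h3 : ‖1 / s‖ ≤ 1 := by
    have e : s = ((2 * (n + 1 : ℝ) : ℝ) : ℂ) := hs
    rw [e, norm_div, norm_one, Complex.norm_real, Real.norm_eq_abs, abs_of_pos (by positivity)]
    rw [div_le_one (by positivity)]
    linarith
  have h4 : ‖1 / (1 - s)‖ ≤ 1 := by
    have e : 1 - s = ((1 - 2 * (n + 1 : ℝ) : ℝ) : ℂ) := by
      rw [hs]
      push_cast
      ring
    rw [e, norm_div, norm_one, Complex.norm_real, Real.norm_eq_abs,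
      abs_of_neg (by linarith : 1 - 2 * (n + 1 : ℝ) < 0)]
    rw [div_le_one (by linarith)]
    linarith
  have h5 : ‖riemannZeta s‖ ≤ MDS.zr 2 := norm_zeta_le (by rw [hsre]; linarith)
  have h6 : (1 : ℝ) ≤ n.factorial := by exact_mod_cast Nat.one_le_iff_ne_zero.mpr n.factorial_ne_zero
  calc ‖completedRiemannZeta₀ s‖ = ‖riemannZeta s * Gammaℝ s + 1 / s + 1 / (1 - s)‖ := by rw [h1]
    _ ≤ ‖riemannZeta s‖ * ‖Gammaℝ s‖ + ‖1 / s‖ + ‖1 / (1 - s)‖ := by
        refine (norm_add_le _ _).trans (add_le_add ((norm_add_le _ _).trans ?_) le_rfl)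
        rw [norm_mul]
    _ ≤ MDS.zr 2 * n.factorial + 1 + 1 := by gcongr
    _ ≤ (MDS.zr 2 + 2) * n.factorial := by nlinarith

/-- Riemann's function -/
noncomputable def Xi (s : ℂ) : ℂ := 1 - s * (1 - s) * completedRiemannZeta₀ s

theorem Xi_differentiable : Differentiable ℂ Xi := by
  have := differentiable_completedZeta₀
  unfold Xi
  fun_prop

theorem Xi_one_sub (s : ℂ) : Xi (1 - s) = Xi s := by
  rw [Xi, Xi, completedRiemannZeta₀_one_sub]
  ring

theorem Xi_zero : Xi 0 = 1 := by simp [Xi]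

theorem Xi_one : Xi 1 = 1 := by simp [Xi]

theorem Xi_eq {s : ℂ} (hs0 : s ≠ 0) (hs1 : s ≠ 1) (hG : Gammaℝ s ≠ 0) :
    Xi s = -(s * (1 - s)) * (riemannZeta s * Gammaℝ s) := by
  have h2 := completedRiemannZeta_eq s
  have h3 := riemannZeta_def_of_ne_zero hs0
  have h4 : 1 - s ≠ 0 := sub_ne_zero.mpr (Ne.symm hs1)
  rw [h3, div_mul_cancel₀ _ hG, h2, Xi]
  field_simp
  ring

theorem Xi_two : Xi 2 = (Real.pi : ℂ) / 3 := by
  have h1 : Gammaℝ 2 = (Real.pi : ℂ)⁻¹ := by
    rw [Gammaℝ_def, neg_div, div_self two_ne_zero, Complex.Gamma_one, mul_one, Complex.cpow_neg_one]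
  have hpi : (Real.pi : ℂ) ≠ 0 := Complex.ofReal_ne_zero.mpr Real.pi_ne_zero
  rw [Xi_eq (by norm_num) (by norm_num) (by rw [h1]; exact inv_ne_zero hpi), h1, riemannZeta_two]
  field_simp
  norm_num

theorem norm_Xi_le (n : ℕ) {s : ℂ} (hs : ‖s‖ < 2 * n + 1) :
    ‖Xi s‖ ≤ (8 * (MDS.zr 2 + 2) + 1) * (n + 1) ^ 2 * n.factorial := by
  have hz := MDS.zr_nonneg 2
  have h1 := abs_le.mp ((Complex.abs_re_le_norm s).trans hs.le)
  have h2 : ‖completedRiemannZeta₀ s‖ ≤ 2 * ((MDS.zr 2 + 2) * n.factorial) := by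
    refine (norm_strip' (m := (n + 1 : ℝ)) (by linarith [h1.1]) (by linarith [h1.2])).trans ?_
    have := norm_cz_le n
    linarith
  have h3 : ‖s * (1 - s)‖ ≤ (2 * n + 1) * (2 * n + 2) := by
    rw [norm_mul]
    have : ‖1 - s‖ ≤ 1 + ‖s‖ := by
      simpa using norm_sub_le (1 : ℂ) s
    exact mul_le_mul hs.le (by linarith) (norm_nonneg _) (by positivity)
  have h6 : (1 : ℝ) ≤ n.factorial := by exact_mod_cast Nat.one_le_iff_ne_zero.mpr n.factorial_ne_zero
  have hn0 : (0 : ℝ) ≤ n := Nat.cast_nonneg n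
  have h7 : ((2 * n + 1) * (2 * n + 2) : ℝ) ≤ 4 * (n + 1) ^ 2 := by nlinarith
  have h8 : (1 : ℝ) ≤ (n + 1) ^ 2 * n.factorial := by
    have : (1 : ℝ) ≤ (n + 1) ^ 2 := by nlinarith
    nlinarith
  calc ‖Xi s‖ ≤ ‖(1 : ℂ)‖ + ‖s * (1 - s) * completedRiemannZeta₀ s‖ := norm_sub_le _ _
    _ = 1 + ‖s * (1 - s)‖ * ‖completedRiemannZeta₀ s‖ := by rw [norm_one, norm_mul]
    _ ≤ 1 + (4 * (n + 1) ^ 2) * (2 * ((MDS.zr 2 + 2) * n.factorial)) := by
        gcongr
        exact h3.trans h7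
    _ ≤ (8 * (MDS.zr 2 + 2) + 1) * (n + 1) ^ 2 * n.factorial := by nlinarith

theorem growth (n : ℕ) {s : ℂ} (hs : ‖s‖ < 2 * n + 1) :
    ‖Xi s‖ ≤ Real.exp (Real.log (8 * (MDS.zr 2 + 2) + 1) + (n + 2) * Real.log (n + 1)) := by
  have hz := MDS.zr_nonneg 2
  refine (norm_Xi_le n hs).trans ?_
  have hn0 : (0 : ℝ) < n + 1 := by positivity
  rw [Real.exp_add, Real.exp_log (by positivity), mul_comm ((n : ℝ) + 2), Real.exp_mul,
    Real.exp_log hn0, mul_assoc]
  refine mul_le_mul_of_nonneg_left ?_ (by positivity)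
  have h1 : (n.factorial : ℝ) ≤ (n + 1) ^ n := by
    have h2 : n.factorial ≤ n ^ n := Nat.factorial_le_pow n
    have h3 : n ^ n ≤ (n + 1) ^ n := Nat.pow_le_pow_left (by omega) n
    exact_mod_cast h2.trans h3
  have h2 : ((n : ℝ) + 1) ^ ((n : ℝ) + 2) = (n + 1) ^ 2 * (n + 1) ^ n := by
    rw [← pow_add, ← Real.rpow_natCast]
    congr 1
    push_cast
    ring
  rw [h2]
  exact mul_le_mul_of_nonneg_left h1 (by positivity)

theorem tendsto_rate (K : ℝ) :
    Tendsto (fun n : ℕ => (K + (n + 2) * Real.log (n + 1)) / ((2 * n + 1 : ℝ)) ^ 2) atTop (𝓝 0) := by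
  have h1 : Tendsto (fun n : ℕ => Real.log ((n : ℝ) + 1) / ((n : ℝ) + 1)) atTop (𝓝 0) := by
    have h2 := Real.isLittleO_log_id_atTop.tendsto_div_nhds_zero
    have h3 : Tendsto (fun n : ℕ => (n : ℝ) + 1) atTop atTop :=
      tendsto_atTop_add_const_right _ _ tendsto_natCast_atTop_atTop
    exact h2.comp h3
  have h2 : Tendsto (fun n : ℕ => |K| / ((n : ℝ) + 1)) atTop (𝓝 0) :=
    Tendsto.div_atTop tendsto_const_nhds
      (tendsto_atTop_add_const_right _ _ tendsto_natCast_atTop_atTop)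
  have h3 : Tendsto (fun n : ℕ => |K| / ((n : ℝ) + 1) + 2 * (Real.log ((n : ℝ) + 1) / ((n : ℝ) + 1)))
      atTop (𝓝 0) := by
    simpa using h2.add (h1.const_mul 2)
  refine squeeze_zero_norm (fun n => ?_) h3
  have hn0 : (0 : ℝ) ≤ n := Nat.cast_nonneg n
  have hl : 0 ≤ Real.log ((n : ℝ) + 1) := Real.log_nonneg (by linarith)
  rw [Real.norm_eq_abs, abs_div, abs_of_pos (by positivity : (0 : ℝ) < (2 * n + 1) ^ 2)]
  have h4 : |K + (n + 2) * Real.log (n + 1)| ≤ |K| + (n + 2) * Real.log (n + 1) := by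
    refine (abs_add_le _ _).trans ?_
    rw [abs_of_nonneg (by positivity : 0 ≤ ((n : ℝ) + 2) * Real.log (n + 1))]
  have h5 : ((n : ℝ) + 1) ^ 2 ≤ (2 * n + 1) ^ 2 := by nlinarith
  have h6 : |K| ≤ |K| * (n + 1) := by nlinarith [abs_nonneg K]
  calc |K + (n + 2) * Real.log (n + 1)| / (2 * n + 1) ^ 2
      ≤ (|K| + (n + 2) * Real.log (n + 1)) / (n + 1) ^ 2 := by
        gcongr
    _ ≤ (|K| * (n + 1) + (2 * (n + 1)) * Real.log (n + 1)) / (n + 1) ^ 2 := by
        gcongr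
        linarith
    _ = |K| / ((n : ℝ) + 1) + 2 * (Real.log ((n : ℝ) + 1) / ((n : ℝ) + 1)) := by
        field_simp

end ZeroAux

open ZeroAux in
/-- the Riemann zeta function has a zero with real part at least `1 / 2` -/
theorem exists_zero : ∃ ρ : ℂ, riemannZeta ρ = 0 ∧ 1 / 2 ≤ ρ.re := by
  by_contra hcon
  push Not at hcon
  have hz := MDS.zr_nonneg 2
  -- `Xi` has no zeros
  have h1 : ∀ s : ℂ, 1 / 2 ≤ s.re → Xi s ≠ 0 := by
    intro s hs
    rcases eq_or_ne s 1 with h | h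
    · rw [h, Xi_one]
      exact one_ne_zero
    · have hs0 : s ≠ 0 := by
        rintro rfl
        simp at hs
        linarith
      have hG : Gammaℝ s ≠ 0 := Gammaℝ_ne_zero_of_re_pos (by linarith)
      rw [Xi_eq hs0 h hG]
      have h3 : riemannZeta s ≠ 0 := by
        intro h0
        have := hcon s h0
        linarith
      exact mul_ne_zero (neg_ne_zero.mpr (mul_ne_zero hs0 (sub_ne_zero.mpr (Ne.symm h))))
        (mul_ne_zero h3 hG)
  have h2 : ∀ s : ℂ, Xi s ≠ 0 := by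
    intro s
    rcases le_total (1 / 2) s.re with h | h
    · exact h1 s h
    · rw [← Xi_one_sub]
      apply h1
      rw [Complex.sub_re, Complex.one_re]
      linarith
  have hR : Tendsto (fun n : ℕ => (2 * n + 1 : ℝ)) atTop atTop := by
    refine tendsto_atTop_add_const_right _ _ ?_
    exact Tendsto.const_mul_atTop two_pos tendsto_natCast_atTop_atTop
  have hA : ∀ n : ℕ, 0 < Real.log (8 * (MDS.zr 2 + 2) + 1) + ((n : ℝ) + 2) * Real.log (n + 1) := by
    intro n
    have hn0 : (0 : ℝ) ≤ n := Nat.cast_nonneg n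
    have hl : 0 ≤ Real.log ((n : ℝ) + 1) := Real.log_nonneg (by linarith)
    have : 0 < Real.log (8 * (MDS.zr 2 + 2) + 1) := Real.log_pos (by linarith)
    have : 0 ≤ ((n : ℝ) + 2) * Real.log (n + 1) := by positivity
    linarith
  obtain ⟨c, hc⟩ := exp_linear Xi_differentiable h2 Xi_zero hR hA
    (tendsto_rate _) (fun n z hz => growth n hz)
  have h3 := hc 1
  rw [Xi_one, mul_one] at h3
  have h4 := hc 2
  rw [Xi_two, mul_two, Complex.exp_add, ← h3, one_mul] at h4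
  have h5 : Real.pi / 3 = 1 := by
    have : ((Real.pi / 3 : ℝ) : ℂ) = ((1 : ℝ) : ℂ) := by
      push_cast
      exact h4
    exact_mod_cast this
  have := Real.pi_gt_three
  linarith

end Pool.Agent.MDSL
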