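import Pool.Agent.MDSL.Ext
import Pool.Agent.MDSL.Flips
import Pool.Agent.MDSL.DMZero
import Pool.Agent.MDSL.Mean
import Pool.Agent.MDSL.Root
import Pool.Agent.MDSL.JacGauss
import Pool.Agent.MDSL.Zero
import Pool.Agent.MDSL.SepLift
import Pool.Agent.MDSM.Main

/-!
# Limits to the continuation of the multiple Dirichlet series
-/

set_option autoImplicit false

open Complex Filter Topology
open scoped NumberTheorySymbols
open Pool.Agent.MDS Pool.Agent.TubeDS

namespace Pool.Agent.MDSL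

theorem rootNumbers : RootOne := rootOne_of fun _ hr hs => jac_gauss hr hs

theorem zeta_bound_of_holD {M : ℕ} (hM : 1 ≤ M) {c : ℝ} (h : ∀ m : ℕ, M ∣ m → m ≠ 0 → HolD m c)
    {ρ : ℂ} (hρ : riemannZeta ρ = 0) (hρ0 : 0 < ρ.re) : ρ.re / 2 ≤ c := by
  by_contra hcon
  push Not at hcon
  have hρ1 : ρ.re < 1 := by
    by_contra h1
    push Not at h1
    exact riemannZeta_ne_zero_of_one_le_re h1 hρ
  set z : ℂ := ρ / 2 with hz
  have hzre : z.re = ρ.re / 2 := by
    rw [hz]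
    simp
  have h2z : 2 * z = ρ := by rw [hz]; ring
  have hM0 : M ≠ 0 := by omega
  set e := M.factorization 2 with he
  set q := M / 2 ^ e with hq
  obtain ⟨hqo, hMq⟩ := two_part hM0
  have hE : ∀ r : ℕ, r % 2 = 1 → ¬ IsSquare r → q ∣ r → gAb (fE r) z = 0 := by
    intro r hr hns hqr
    have hdvd : M ∣ 4 ^ (e + 1) * r := by
      rw [hMq]
      refine mul_dvd_mul ?_ hqr
      have : (4 : ℕ) ^ (e + 1) = 2 ^ e * (2 ^ (e + 2)) := by
        rw [← pow_add, show (4 : ℕ) = 2 ^ 2 by norm_num, ← pow_mul]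
        congr 1
        ring
      rw [this]
      exact dvd_mul_right _ _
    have hne : 4 ^ (e + 1) * r ≠ 0 := by
      have : r ≠ 0 := by omega
      positivity
    exact fE_zero (by omega) hr hns (h _ hdvd hne) (by rw [hzre]; linarith) (by rw [hzre]; linarith)
      (by rw [hzre]; exact hcon) (by rw [h2z]; exact hρ)
  have hAB := sep (z := z) (by rw [hzre]; linarith) (Nat.odd_iff.mp hqo) hE
  have hlam := lift (z := z) (by rw [hzre]; linarith) (by rw [hzre]; linarith) hAB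
  obtain ⟨r, hr, hns, hne⟩ := mean_nonvanishing (s := 1 - z)
    (by rw [sub_re, one_re, hzre]; linarith) (by rw [sub_re, one_re, hzre]; linarith)
  exact hne (hlam r hr hns)

theorem limit {k M : ℕ} (hk : 1 ≤ k) (hM : 1 ≤ M) {x : (Fin k → ℝ) × ℝ} (h : ExtendsTo k M x)
    (J : Finset (Fin k)) {ρ : ℂ} (hρ : riemannZeta ρ = 0)
    (hρ0 : 0 < ρ.re) : ρ.re / 2 ≤ x.2 - ∑ j ∈ J, (1 / 2 - x.1 j) := by
  by_contra hcon
  push Not at hcon
  obtain ⟨D, hD, hx⟩ := h.good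
  set δ : ℝ := (ρ.re / 2 - (x.2 - ∑ j ∈ J, (1 / 2 - x.1 j))) / (2 * (J.card + 1)) with hδ
  have hδ0 : 0 < δ := div_pos (by linarith) (by positivity)
  obtain ⟨y, hy, hyx, hgen⟩ := exists_generic_near hD.isOpen hx hδ0
  obtain ⟨D', hD', hyD'⟩ := good_flips hD hy hgen J (Or.inr rootNumbers)
  have h1 : flips J y none < ρ.re / 2 := by
    have e1 : flips J y none = y none - ∑ j ∈ J, (1 / 2 - y (some j)) := rfl
    have e2 : y none ≤ x.2 + δ := by
      have := (abs_lt.mp (hyx none)).2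
      have e : ofP x none = x.2 := rfl
      rw [e] at this
      linarith
    have e3 : ∑ j ∈ J, (1 / 2 - x.1 j) - J.card * δ ≤ ∑ j ∈ J, (1 / 2 - y (some j)) := by
      have : ∑ j ∈ J, (1 / 2 - x.1 j) - J.card * δ = ∑ j ∈ J, ((1 / 2 - x.1 j) - δ) := by
        rw [Finset.sum_sub_distrib (f := fun j => 1 / 2 - x.1 j)]
        simp
      rw [this]
      refine Finset.sum_le_sum fun j _ => ?_
      have := (abs_lt.mp (hyx (some j))).2
      have e : ofP x (some j) = x.1 j := rfl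
      rw [e] at this
      linarith
    have e4 : (2 * ((J.card : ℝ) + 1)) * δ = ρ.re / 2 - (x.2 - ∑ j ∈ J, (1 / 2 - x.1 j)) := by
      rw [hδ]
      field_simp
    rw [e1]
    have e5 : (0 : ℝ) ≤ J.card := Nat.cast_nonneg _
    nlinarith
  obtain ⟨c, hc1, hc2⟩ := exists_between h1
  have h2 := zeta_bound_of_holD hM (fun m hm hm0 => holD_of_good hk hM hD' hyD' hc1 hm hm0) hρ hρ0
  linarith

theorem limit_max {k M : ℕ} (hk : 1 ≤ k) (hM : 1 ≤ M) {x : (Fin k → ℝ) × ℝ} (h : ExtendsTo k M x)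
    {ρ : ℂ} (hρ : riemannZeta ρ = 0) (hρ0 : 0 < ρ.re) :
    ρ.re / 2 + ∑ j, max 0 (1 / 2 - x.1 j) ≤ x.2 := by
  have h1 := limit hk hM h (Finset.univ.filter fun j => x.1 j < 1 / 2) hρ hρ0
  have h2 : ∑ j, max 0 (1 / 2 - x.1 j) =
      ∑ j ∈ Finset.univ.filter (fun j => x.1 j < 1 / 2), (1 / 2 - x.1 j) := by
    rw [Finset.sum_filter]
    refine Finset.sum_congr rfl fun j _ => ?_
    split_ifs with hj
    · exact max_eq_right (by linarith)
    · exact max_eq_left (by linarith)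
  rw [h2]
  linarith

theorem limit_quarter {k M : ℕ} (hk : 1 ≤ k) (hM : 1 ≤ M) {x : (Fin k → ℝ) × ℝ}
    (h : ExtendsTo k M x) : 1 / 4 + ∑ j, max 0 (1 / 2 - x.1 j) ≤ x.2 := by
  obtain ⟨ρ, hρ, hρ0⟩ := exists_zero
  have := limit_max hk hM h hρ (by linarith)
  linarith

/-- the size of a ball around the centre -/
theorem limit_ball {k M : ℕ} (hk : 1 ≤ k) (hM : 1 ≤ M) {r : ℝ}
    (h : ∀ x ∈ Metric.ball (((fun _ => 1 / 2), 1) : (Fin k → ℝ) × ℝ) r, ExtendsTo k M x) :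
    r ≤ 3 / (4 * (k + 1)) := by
  by_contra hcon
  push Not at hcon
  have hk0 : (0 : ℝ) < 4 * ((k : ℝ) + 1) := by positivity
  obtain ⟨u, hu1, hu2⟩ := exists_between hcon
  have hu0 : 0 < u := lt_trans (by positivity) hu1
  have hx : (((fun _ => 1 / 2 - u), 1 - u) : (Fin k → ℝ) × ℝ) ∈
      Metric.ball (((fun _ => 1 / 2), 1) : (Fin k → ℝ) × ℝ) r := by
    rw [Metric.mem_ball, Prod.dist_eq, max_lt_iff]
    constructor
    · refine (dist_pi_lt_iff (by linarith)).mpr fun j => ?_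
      rw [Real.dist_eq]
      simp only [sub_sub_cancel_left, abs_neg]
      rw [abs_of_pos hu0]
      exact hu2
    · rw [Real.dist_eq]
      simp only [sub_sub_cancel_left, abs_neg]
      rw [abs_of_pos hu0]
      exact hu2
  have h1 := limit_quarter hk hM (h _ hx)
  have h2 : ∑ j : Fin k, max 0 (1 / 2 - ((fun _ => 1 / 2 - u : Fin k → ℝ)) j) = k * u := by
    rw [Finset.sum_congr rfl fun j _ => (by
      rw [sub_sub_cancel, max_eq_right hu0.le] : max 0 (1 / 2 - (1 / 2 - u)) = u)]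
    simp
  simp only at h1
  rw [h2] at h1
  rw [div_lt_iff₀ hk0] at hu1
  nlinarith

/-- consequences for the moments -/
theorem limit_mean {k M : ℕ} (hk : 1 ≤ k) (hM : 1 ≤ M) {σ : Fin k → ℝ} {θ : ℝ}
    (h : MDSM.Asymp k M σ θ ∨ MDSM.MeanAsymp k M σ θ) {ρ : ℂ} (hρ : riemannZeta ρ = 0)
    (hρ0 : 0 < ρ.re) : ρ.re / 2 + ∑ j, max 0 (1 / 2 - σ j) ≤ θ := by
  have key : ∀ θ' : ℝ, θ ≤ θ' → 0 ≤ θ' → ∀ ρ : ℂ, riemannZeta ρ = 0 → 0 < ρ.re →
      ρ.re / 2 + ∑ j, max 0 (1 / 2 - σ j) ≤ θ' := by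
    intro θ' hθθ hθ' ρ hρ hρ0
    have h2 : ∀ c > θ', ExtendsTo k M (σ, c) := by
      rcases h with h | h
      · have h1 : ∀ c > θ', MDSM.Asymp k M σ c := fun c hc => h.mono (by linarith)
        exact ((MDSM.dictionary k M σ hθ').out 1 0).mp h1
      · have h1 : ∀ c > θ', MDSM.MeanAsymp k M σ c := fun c hc => h.mono (by linarith)
        exact ((MDSM.dictionary k M σ hθ').out 2 0).mp h1
    refine le_of_forall_gt fun c hc => ?_
    obtain ⟨c', h3, h4⟩ := exists_between hc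
    exact lt_of_le_of_lt (limit_max hk hM (h2 c' h3) hρ hρ0) h4
  rcases le_or_gt 0 θ with hθ | hθ
  · exact key θ le_rfl hθ ρ hρ hρ0
  · obtain ⟨ρ', hρ', hρ0'⟩ := exists_zero
    have h1 := key 0 hθ.le le_rfl ρ' hρ' (by linarith)
    have h2 : 0 ≤ ∑ j, max 0 (1 / 2 - σ j) := Finset.sum_nonneg fun j _ => le_max_left _ _
    linarith

end Pool.Agent.MDSL
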